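import Mathlib

/-!
# Smooth families are close in the `C^n` norm on compact sets (helper82)
-/

noncomputable section

open Set Filter Topology Metric
open scoped NNReal ContDiff

namespace Pool.Agent.CGD

universe u

theorem close_family {P F : Type u} [NormedAddCommGroup P] [NormedSpace ℝ P]
    [NormedAddCommGroup F] [NormedSpace ℝ F] {K : Set F} (hK : IsCompact K) (n : ℕ) :
    ∀ {G : Type u} [NormedAddCommGroup G] [NormedSpace ℝ G] {H : P × F → G},
      ContDiff ℝ n H → (∀ p, H (0, p) = 0) → ∀ {ε : ℝ}, 0 < ε →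
      ∀ᶠ s in 𝓝 (0 : P), ∀ p ∈ K, ‖iteratedFDeriv ℝ n (fun p => H (s, p)) p‖ < ε := by
  induction n with
  | zero =>
    intro G _ _ H hH h0 ε hε
    simp only [norm_iteratedFDeriv_zero]
    refine hK.eventually_forall_of_forall_eventually fun p _ => ?_
    have hc : Continuous fun z : P × F => ‖H (z.1, z.2)‖ := hH.continuous.norm
    have := hc.tendsto (0, p)
    simp only [h0, norm_zero] at this
    exact this.eventually_lt_const hε
  | succ n ih =>
    intro G _ _ H hH h0 ε hε
    have hd : Differentiable ℝ H := hH.differentiable (by simp)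
    have hsl : ∀ (s : P) (p : F), HasFDerivAt (fun p => H (s, p))
        ((fderiv ℝ H (s, p)).comp (ContinuousLinearMap.inr ℝ P F)) p := by
      intro s p
      have h1 : HasFDerivAt (fun p : F => (s, p)) (ContinuousLinearMap.inr ℝ P F) p :=
        hasFDerivAt_prodMk_right s p
      have h2 := HasFDerivAt.comp (g := H) p (hd (s, p)).hasFDerivAt h1
      exact h2
    have hH' : ContDiff ℝ n fun q : P × F =>
        (fderiv ℝ H q).comp (ContinuousLinearMap.inr ℝ P F) := by
      have h1 : ContDiff ℝ n (fderiv ℝ H) := hH.fderiv_right (by norm_cast)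
      exact h1.clm_comp contDiff_const
    have h0' : ∀ p : F, (fderiv ℝ H (0, p)).comp (ContinuousLinearMap.inr ℝ P F) = 0 := by
      intro p
      have h1 := hsl 0 p
      have h2 : (fun p => H ((0 : P), p)) = fun _ => (0 : G) := funext h0
      rw [h2] at h1
      exact h1.unique (hasFDerivAt_const (0 : G) p)
    filter_upwards [ih hH' h0' hε] with s hs p hp
    have h1 := hs p hp
    have h2 : (fun p => (fderiv ℝ H (s, p)).comp (ContinuousLinearMap.inr ℝ P F)) =
        fderiv ℝ (fun p => H (s, p)) := by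
      funext p
      exact (hsl s p).fderiv.symm
    rw [h2, norm_iteratedFDeriv_fderiv] at h1
    exact h1

/-- All orders up to `n`. -/
theorem close_family_le {P F G : Type u} [NormedAddCommGroup P] [NormedSpace ℝ P]
    [NormedAddCommGroup F] [NormedSpace ℝ F] [NormedAddCommGroup G] [NormedSpace ℝ G]
    {K : Set F} (hK : IsCompact K) {k : WithTop ℕ∞} {H : P × F → G} (hH : ContDiff ℝ k H)
    (h0 : ∀ p, H (0, p) = 0) {n : ℕ} (hn : (n : WithTop ℕ∞) ≤ k) {ε : ℝ} (hε : 0 < ε) :
    ∀ᶠ s in 𝓝 (0 : P), ∀ j ≤ n, ∀ p ∈ K, ‖iteratedFDeriv ℝ j (fun p => H (s, p)) p‖ < ε := by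
  have h : ∀ j ∈ Finset.range (n + 1), ∀ᶠ s in 𝓝 (0 : P), ∀ p ∈ K,
      ‖iteratedFDeriv ℝ j (fun p => H (s, p)) p‖ < ε := by
    intro j hj
    have hjn : j ≤ n := Nat.lt_succ_iff.1 (Finset.mem_range.1 hj)
    refine close_family hK j (hH.of_le ?_) h0 hε
    exact (by exact_mod_cast hjn : (j : WithTop ℕ∞) ≤ n).trans hn
  have h' := (Finset.eventually_all _).2 h
  filter_upwards [h'] with s hs j hj p hp
  exact hs j (Finset.mem_range.2 (Nat.lt_succ_iff.2 hj)) p hp

end Pool.Agent.CGD
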