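import Mathlib

/-!
# Geodesics, closed geodesics, time change (helper82)
-/

noncomputable section

open Set Filter Topology Metric MeasureTheory
open scoped NNReal ContDiff

namespace Pool.Agent.CGD

variable {F : Type*} [NormedAddCommGroup F] [NormedSpace ℝ F]

/-- Geodesics of the submanifold `N` of `F` with the Riemannian metric `g` (the restriction of a
field of bilinear forms on `F`): Euler-Lagrange curves of the energy, tested with the vectors
tangent to `N`. For `N = univ` this is the geodesic equation on `F`. -/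
def IsGeodesic (N : Set F) (g : F → F →L[ℝ] F →L[ℝ] ℝ) (γ : ℝ → F) : Prop :=
  Differentiable ℝ γ ∧ (∀ t, γ t ∈ N) ∧ Differentiable ℝ (fun r => g (γ r) (deriv γ r)) ∧
    ∀ t, ∀ e ∈ tangentConeAt ℝ N (γ t), deriv (fun r => g (γ r) (deriv γ r)) t e =
      (1 / 2) * fderiv ℝ (fun p => g p (deriv γ t) (deriv γ t)) (γ t) e

/-- Closed unit speed geodesics of the quotient of `(N, g)` by the group `Γ`. -/
def IsClosedGeodesic (N : Set F) (g : F → F →L[ℝ] F →L[ℝ] ℝ) (Γ : Subgroup (Equiv.Perm F))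
    (γ : ℝ → F) : Prop :=
  IsGeodesic N g γ ∧ (∀ t, g (γ t) (deriv γ t) (deriv γ t) = 1) ∧
    ∃ T > 0, ∃ A ∈ Γ, ∀ t, γ (t + T) = A (γ t)

/-- The tangent vectors of closed geodesics. -/
def closedVectors (N : Set F) (g : F → F →L[ℝ] F →L[ℝ] ℝ) (Γ : Subgroup (Equiv.Perm F)) :
    Set (F × F) :=
  {z | ∃ γ, IsClosedGeodesic N g Γ γ ∧ ∃ t, z = (γ t, deriv γ t)}

/-- The unit tangent bundle. -/
def unitBundle (N : Set F) (g : F → F →L[ℝ] F →L[ℝ] ℝ) : Set (F × F) :=
  {z | z.1 ∈ N ∧ z.2 ∈ tangentConeAt ℝ N z.1 ∧ g z.1 z.2 z.2 = 1}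

/-- The closed geodesic directions are dense in the unit tangent bundle. -/
def DenseClosed (N : Set F) (g : F → F →L[ℝ] F →L[ℝ] ℝ) (Γ : Subgroup (Equiv.Perm F)) : Prop :=
  unitBundle N g ⊆ closure (closedVectors N g Γ)

theorem tan_smul {N : Set F} {y v : F} (hv : v ∈ tangentConeAt ℝ N y) (c : ℝ) :
    c • v ∈ tangentConeAt ℝ N y := by
  obtain ⟨ι, l, hl, a, d, h1, h2, h3⟩ := exists_fun_of_mem_tangentConeAt hv
  refine mem_tangentConeAt_of_seq l (fun n => c * a n) d h1 h2 ?_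
  simp only [mul_smul]
  exact h3.const_smul c

theorem tan_snd {N : Set F} {x : ℝ} {y : F} {e : ℝ × F}
    (he : e ∈ tangentConeAt ℝ ((univ : Set ℝ) ×ˢ N) (x, y)) : e.2 ∈ tangentConeAt ℝ N y := by
  have h := (hasFDerivAt_snd (𝕜 := ℝ) (E := ℝ) (F := F)
    (p := (x, y))).hasFDerivWithinAt (s := (univ : Set ℝ) ×ˢ N)
  have h2 := h.mapsTo_tangent_cone he
  have h3 : Prod.snd '' ((univ : Set ℝ) ×ˢ N) = N := snd_image_prod univ_nonempty N
  rw [h3] at h2
  exact h2

/-- Time change. -/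
theorem reparam {N : Set F} {g : F → F →L[ℝ] F →L[ℝ] ℝ} {Γ : Subgroup (Equiv.Perm F)}
    {Y Z : ℝ → F} {ζ : ℝ → F →L[ℝ] ℝ}
    {μ : ℝ → ℝ} (hμc : Continuous μ) (hμ : ∀ t, 0 < μ t) (hYN : ∀ t, Y t ∈ N)
    (hY : ∀ t, HasDerivAt Y (μ t • Z t) t)
    (hZ : ∀ t, HasDerivAt (fun r => g (Y r) (Z r)) (μ t • ζ t) t)
    (hζ : ∀ t, ∀ e ∈ tangentConeAt ℝ N (Y t),
      ζ t e = (1 / 2) * fderiv ℝ (fun p => g p (Z t) (Z t)) (Y t) e)
    (hunit : ∀ t, g (Y t) (Z t) (Z t) = 1) {P : ℝ} (hP : 0 < P) {A : Equiv.Perm F} (hA : A ∈ Γ)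
    (hYP : ∀ t, Y (t + P) = A (Y t)) (hμP : ∀ t, μ (t + P) = μ t) (t₀ : ℝ) :
    (Y t₀, Z t₀) ∈ closedVectors N g Γ := by
  set τ : ℝ → ℝ := fun t => ∫ s in (0:ℝ)..t, μ s with hτ
  have hτd : ∀ t, HasDerivAt τ (μ t) t := fun t =>
    intervalIntegral.integral_hasDerivAt_right (hμc.intervalIntegrable _ _)
      (hμc.stronglyMeasurableAtFilter _ _) hμc.continuousAt
  have hτm : StrictMono τ := by
    refine strictMono_of_deriv_pos fun t => ?_
    rw [(hτd t).deriv]
    exact hμ t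
  have hτc : Continuous τ := continuous_iff_continuousAt.2 fun t => (hτd t).continuousAt
  have hτ0 : τ 0 = 0 := by simp [hτ]
  have hτP : ∀ t, τ (t + P) = τ t + τ P := by
    intro t
    have hd : ∀ t, HasDerivAt (fun t => τ (t + P) - τ t) 0 t := by
      intro t
      have h1 := ((hτd (t + P)).comp_add_const t P).fun_sub (hτd t)
      rw [hμP, sub_self] at h1
      exact h1
    have := is_const_of_deriv_eq_zero (fun t => (hd t).differentiableAt) (fun t => (hd t).deriv)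
      t 0
    simp only [zero_add, hτ0, sub_zero] at this
    linarith
  have hτPpos : 0 < τ P := by
    have := hτm hP
    rwa [hτ0] at this
  have hτn : ∀ n : ℕ, τ (n * P) = n * τ P := by
    intro n
    induction n with
    | zero => simp [hτ0]
    | succ n ih =>
      push_cast
      rw [show ((n : ℝ) + 1) * P = n * P + P by ring, hτP, ih]
      ring
  have hτn' : ∀ n : ℕ, τ (-(n * P)) = -(n * τ P) := by
    intro n
    induction n with
    | zero => simp [hτ0]
    | succ n ih =>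
      have h1 := hτP (-(((n + 1 : ℕ) : ℝ) * P))
      rw [show -(((n + 1 : ℕ) : ℝ) * P) + P = -(n * P) by push_cast; ring, ih] at h1
      push_cast at h1 ⊢
      linarith
  have hsurj : Function.Surjective τ := by
    intro k
    obtain ⟨n, hn⟩ := exists_nat_ge (|k| / τ P)
    rw [div_le_iff₀ hτPpos] at hn
    have h1 : k ≤ τ (n * P) := by
      rw [hτn]; exact (le_abs_self k).trans hn
    have h2 : τ (-(n * P)) ≤ k := by
      rw [hτn']
      have := neg_abs_le k
      linarith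
    have hle : -(n * P) ≤ n * P := by
      have : 0 ≤ n * P := by positivity
      linarith
    obtain ⟨t, -, ht⟩ := intermediate_value_Icc hle hτc.continuousOn ⟨h2, h1⟩
    exact ⟨t, ht⟩
  set ψ : ℝ ≃o ℝ := hτm.orderIsoOfSurjective τ hsurj with hψ
  have hψτ : ∀ t, ψ t = τ t := fun t => rfl
  set θ : ℝ → ℝ := fun t => ψ.symm t with hθ
  have hθτ : ∀ t, θ (τ t) = t := fun t => by rw [← hψτ]; exact ψ.symm_apply_apply t
  have hτθ : ∀ t, τ (θ t) = t := fun t => by rw [← hψτ]; exact ψ.apply_symm_apply t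
  have hθc : Continuous θ := ψ.symm.continuous
  have hθd : ∀ t, HasDerivAt θ (μ (θ t))⁻¹ t := fun t =>
    HasDerivAt.of_local_left_inverse hθc.continuousAt (hτd (θ t)) (hμ (θ t)).ne'
      (Eventually.of_forall hτθ)
  set γ : ℝ → F := fun t => Y (θ t) with hγ
  have hγd : ∀ t, HasDerivAt γ (Z (θ t)) t := by
    intro t
    have h1 := (hY (θ t)).scomp t (hθd t)
    rw [smul_smul, inv_mul_cancel₀ (hμ (θ t)).ne', one_smul] at h1
    exact h1
  have hγd' : ∀ t, deriv γ t = Z (θ t) := fun t => (hγd t).deriv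
  have hmom : ∀ t, HasDerivAt (fun r => g (γ r) (deriv γ r)) (ζ (θ t)) t := by
    intro t
    have h1 := (hZ (θ t)).scomp t (hθd t)
    rw [smul_smul, inv_mul_cancel₀ (hμ (θ t)).ne', one_smul] at h1
    have h2 : (fun r => g (γ r) (deriv γ r)) = (fun r => g (Y r) (Z r)) ∘ θ := by
      funext r
      show g (γ r) (deriv γ r) = g (Y (θ r)) (Z (θ r))
      rw [hγd']
    rw [h2]
    exact h1
  refine ⟨γ, ⟨⟨fun t => (hγd t).differentiableAt, fun t => hYN _,
    fun t => (hmom t).differentiableAt, fun t e he => ?_⟩, fun t => ?_, τ P, hτPpos, A, hA,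
    fun t => ?_⟩, τ t₀, ?_⟩
  · rw [(hmom t).deriv, hγd']
    exact hζ _ e he
  · rw [hγd']
    exact hunit _
  · have h1 : θ (t + τ P) = θ t + P := by
      apply hτm.injective
      rw [hτθ, hτP, hτθ]
    simp only [hγ, h1, hYP]
  · rw [hγd', hθτ]
    show _ = (Y (θ (τ t₀)), _)
    rw [hθτ]

end Pool.Agent.CGD
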