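import Mathlib
import Pool.Agent.Bous.Ode

/-!
# The flow of the one dimensional motion `x'' = b'(x) / 2` with a clock `w' = ρ(x)` (helper82)
-/

noncomputable section

open Set Filter Topology Metric
open scoped NNReal ContDiff

namespace Pool.Agent.CGD

/-- Two solutions of an autonomous Lipschitz equation: two-sided Gronwall bound. -/
theorem flow_dist {V : Type*} [NormedAddCommGroup V] [NormedSpace ℝ V] {f : V → V} {K : ℝ≥0}
    (hf : LipschitzWith K f) {α β : ℝ → V} (hα : ∀ t, HasDerivAt α (f (α t)) t)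
    (hβ : ∀ t, HasDerivAt β (f (β t)) t) (t : ℝ) :
    dist (α t) (β t) ≤ dist (α 0) (β 0) * Real.exp (K * |t|) := by
  have key : ∀ {f : V → V}, LipschitzWith K f → ∀ {α β : ℝ → V},
      (∀ t, HasDerivAt α (f (α t)) t) → (∀ t, HasDerivAt β (f (β t)) t) → ∀ t, 0 ≤ t →
      dist (α t) (β t) ≤ dist (α 0) (β 0) * Real.exp (K * t) := by
    intro f hf α β hα hβ t ht
    have h1 := dist_le_of_trajectories_ODE (v := fun _ => f) (K := K) (a := 0) (b := t)
      (f := α) (g := β) (δ := dist (α 0) (β 0)) (fun _ => hf)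
      (fun s _ => (hα s).continuousAt.continuousWithinAt)
      (fun s _ => (hα s).hasDerivWithinAt)
      (fun s _ => (hβ s).continuousAt.continuousWithinAt)
      (fun s _ => (hβ s).hasDerivWithinAt) le_rfl t ⟨ht, le_rfl⟩
    simpa using h1
  rcases le_total 0 t with ht | ht
  · rw [abs_of_nonneg ht]
    exact key hf hα hβ t ht
  · rw [abs_of_nonpos ht]
    have hf' : LipschitzWith K (fun x => -f x) := hf.neg
    have hα' : ∀ s, HasDerivAt (fun r => α (-r)) (-f (α (-s))) s := by
      intro s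
      have h := (hα (-s)).scomp s (hasDerivAt_neg s)
      simpa [Function.comp_def] using h
    have hβ' : ∀ s, HasDerivAt (fun r => β (-r)) (-f (β (-s))) s := by
      intro s
      have h := (hβ (-s)).scomp s (hasDerivAt_neg s)
      simpa [Function.comp_def] using h
    have h := key hf' hα' hβ' (-t) (by linarith)
    simpa using h

/-- The flow of an autonomous Lipschitz field is jointly continuous. -/
theorem flow_continuous {V : Type*} [NormedAddCommGroup V] [NormedSpace ℝ V] {f : V → V} {K : ℝ≥0}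
    (hf : LipschitzWith K f) {Φ : V → ℝ → V} (h0 : ∀ x, Φ x 0 = x)
    (hΦ : ∀ x t, HasDerivAt (Φ x) (f (Φ x t)) t) :
    Continuous fun q : V × ℝ => Φ q.1 q.2 := by
  rw [continuous_iff_continuousAt]
  rintro ⟨x, t⟩
  rw [ContinuousAt, tendsto_iff_dist_tendsto_zero]
  have hb : ∀ q : V × ℝ, dist (Φ q.1 q.2) (Φ x t) ≤
      dist q.1 x * Real.exp (K * |q.2|) + dist (Φ x q.2) (Φ x t) := by
    intro q
    refine (dist_triangle _ (Φ x q.2) _).trans ?_
    gcongr
    have := flow_dist hf (hΦ q.1) (hΦ x) q.2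
    rwa [h0, h0] at this
  have hc : Continuous (Φ x) := continuous_iff_continuousAt.2 fun s => (hΦ x s).continuousAt
  have hlim : Tendsto (fun q : V × ℝ => dist q.1 x * Real.exp (K * |q.2|) +
      dist (Φ x q.2) (Φ x t)) (𝓝 (x, t)) (𝓝 0) := by
    have hcont : Continuous fun q : V × ℝ => dist q.1 x * Real.exp (K * |q.2|) +
        dist (Φ x q.2) (Φ x t) := by fun_prop
    have := hcont.tendsto (x, t)
    simpa using this
  exact squeeze_zero (fun _ => dist_nonneg) hb hlim

/-- The field of the one dimensional motion with clock. -/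
def fld (φ ρ : ℝ → ℝ) (p : ℝ × ℝ × ℝ) : ℝ × ℝ × ℝ := (p.2.1, φ p.1, ρ p.1)

theorem lip_aux {g φ ρ : ℝ → ℝ} {K : ℝ≥0} (hg : LipschitzWith 1 g) (hφ : LipschitzWith K φ)
    (hρ : LipschitzWith K ρ) :
    LipschitzWith (max 1 K) (fun q : ℝ × ℝ × ℝ => (g q.2.1, φ q.1, ρ q.1)) := by
  have h1 : LipschitzWith 1 (fun p : ℝ × ℝ × ℝ => g p.2.1) := by
    have := hg.comp ((LipschitzWith.prod_fst (α := ℝ) (β := ℝ)).comp
      (LipschitzWith.prod_snd (α := ℝ) (β := ℝ × ℝ)))
    simpa [Function.comp_def] using this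
  have h2 : LipschitzWith K (fun p : ℝ × ℝ × ℝ => φ p.1) := by
    have := hφ.comp (LipschitzWith.prod_fst (α := ℝ) (β := ℝ × ℝ))
    simpa [Function.comp_def] using this
  have h3 : LipschitzWith K (fun p : ℝ × ℝ × ℝ => ρ p.1) := by
    have := hρ.comp (LipschitzWith.prod_fst (α := ℝ) (β := ℝ × ℝ))
    simpa [Function.comp_def] using this
  have := h1.prodMk (h2.prodMk h3)
  simpa using this

theorem fld_lip {φ ρ : ℝ → ℝ} {K : ℝ≥0} (hφ : LipschitzWith K φ) (hρ : LipschitzWith K ρ) :
    LipschitzWith (max 1 K) (fld φ ρ) := lip_aux (g := fun u => u) LipschitzWith.id hφ hρ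

/-- Global solutions of the motion with clock. -/
theorem exists_sol {φ ρ : ℝ → ℝ} {K : ℝ≥0} (hφ : LipschitzWith K φ) (hρ : LipschitzWith K ρ)
    {B : ℝ≥0} (hφB : ∀ x, |φ x| ≤ B) (hρB : ∀ x, |ρ x| ≤ B) (p : ℝ × ℝ × ℝ) :
    ∃ α : ℝ → ℝ × ℝ × ℝ, α 0 = p ∧ ∀ t, HasDerivAt α (fld φ ρ (α t)) t := by
  refine Pool.Agent.Bous.glue_solutions (f := fun _ => fld φ ρ) (fun _ => fld_lip hφ hρ) fun n => ?_
  set M : ℝ := |p.2.1| + B * n with hM
  have hM0 : 0 ≤ M := by positivity
  have hcl : LipschitzWith 1 (fun u : ℝ => max (-M) (min M u)) := by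
    have h1 : LipschitzWith 1 (fun u : ℝ => min M u) := LipschitzWith.id.const_min M
    exact h1.const_max (-M)
  have hlip := lip_aux hcl hφ hρ
  obtain ⟨α, h0, hα⟩ := Pool.Agent.Bous.exists_solution_global hlip
    (M := max M.toNNReal B) (fun q => by
      rw [Prod.norm_def, Prod.norm_def, NNReal.coe_max, Real.coe_toNNReal _ hM0]
      simp only [Real.norm_eq_abs]
      refine max_le (le_max_of_le_left ?_) (max_le (le_max_of_le_right (hφB _))
        (le_max_of_le_right (hρB _)))
      rw [abs_le]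
      exact ⟨le_max_left _ _, max_le (by linarith) (min_le_left _ _)⟩) p
  refine ⟨α, h0, fun t ht => ?_⟩
  have hu : ∀ s, HasDerivAt (fun r => (α r).2.1) (φ (α s).1) s := by
    intro s
    have h := ((hasDerivAt_iff_hasFDerivAt.1 (hα s)).snd.fst).hasDerivAt
    simpa using h
  have hbd : |(α t).2.1 - (α 0).2.1| ≤ B * |t - 0| := by
    have := Convex.norm_image_sub_le_of_norm_hasDerivWithin_le (f := fun r => (α r).2.1)
      (f' := fun s => φ (α s).1) (C := B) (s := univ) (x := 0) (y := t)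
      (fun s _ => (hu s).hasDerivWithinAt) (fun s _ => hφB _) convex_univ trivial trivial
    simpa using this
  have h2 : |(α t).2.1| ≤ M := by
    have ht' : |t| ≤ n := abs_le.2 ⟨ht.1.le, ht.2.le⟩
    have h3 : (α 0).2.1 = p.2.1 := by rw [h0]
    rw [h3, sub_zero] at hbd
    have h4 : |(α t).2.1| ≤ |p.2.1| + |(α t).2.1 - p.2.1| := by
      have := abs_add_le p.2.1 ((α t).2.1 - p.2.1)
      simpa using this
    have h5 : (B : ℝ) * |t| ≤ B * n := by gcongr
    linarith
  have h3 : max (-M) (min M (α t).2.1) = (α t).2.1 := by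
    rw [abs_le] at h2
    rw [min_eq_right h2.2, max_eq_right h2.1]
  have h4 := hα t
  rw [h3] at h4
  exact h4

end Pool.Agent.CGD
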