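import Mathlib
import Pool.Agent.CGD.Flow

/-!
# The system of one dimensional motions (helper82)
-/

noncomputable section

open Set Filter Topology Metric
open scoped NNReal ContDiff

namespace Pool.Agent.CGD

/-- All solutions of `X' = U`, `U' = b'(X) / 2`, `W' = ρ(X)`, `W 0 = 0`, indexed by the initial
values `(X 0, U 0)`. -/
structure Sys (b ρ : ℝ → ℝ) where
  X : ℝ × ℝ → ℝ → ℝ
  U : ℝ × ℝ → ℝ → ℝ
  W : ℝ × ℝ → ℝ → ℝ
  X0 : ∀ p, X p 0 = p.1
  U0 : ∀ p, U p 0 = p.2
  W0 : ∀ p, W p 0 = 0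
  dX : ∀ p t, HasDerivAt (X p) (U p t) t
  dU : ∀ p t, HasDerivAt (U p) (deriv b (X p t) / 2) t
  dW : ∀ p t, HasDerivAt (W p) (ρ (X p t)) t
  cX : Continuous fun q : (ℝ × ℝ) × ℝ => X q.1 q.2
  cU : Continuous fun q : (ℝ × ℝ) × ℝ => U q.1 q.2
  cW : Continuous fun q : (ℝ × ℝ) × ℝ => W q.1 q.2
  uniq : ∀ x u : ℝ → ℝ, (∀ t, HasDerivAt x (u t) t) → (∀ t, HasDerivAt u (deriv b (x t) / 2) t) →
    ∀ t, x t = X (x 0, u 0) t ∧ u t = U (x 0, u 0) t

theorem per_bdd {f : ℝ → ℝ} (hf : Continuous f) (hp : Function.Periodic f 1) :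
    ∃ B : ℝ≥0, ∀ x, |f x| ≤ B := by
  obtain ⟨C, hC⟩ := (hp.isBounded_of_continuous one_ne_zero hf).exists_norm_le
  exact ⟨C.toNNReal, fun x => (hC _ (mem_range_self x)).trans (Real.le_coe_toNNReal C)⟩

theorem per_deriv {f : ℝ → ℝ} (hp : Function.Periodic f 1) : Function.Periodic (deriv f) 1 := by
  intro x
  have h : (fun y => f (y + 1)) = f := funext hp
  have := deriv_comp_add_const f 1 x
  rw [h] at this
  exact this.symm

theorem per_lip {f : ℝ → ℝ} (hf : ContDiff ℝ 1 f) (hp : Function.Periodic f 1) :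
    ∃ K : ℝ≥0, LipschitzWith K f := by
  obtain ⟨K, hK⟩ := per_bdd (hf.continuous_deriv le_rfl) (per_deriv hp)
  refine ⟨K, lipschitzWith_of_nnnorm_deriv_le (hf.differentiable one_ne_zero) fun x => ?_⟩
  rw [← NNReal.coe_le_coe, coe_nnnorm]
  exact hK x

theorem exists_sys {b ρ : ℝ → ℝ} (hb : ContDiff ℝ 2 b) (hbp : Function.Periodic b 1)
    (hρ : ContDiff ℝ 1 ρ) (hρp : Function.Periodic ρ 1) : Nonempty (Sys b ρ) := by
  set φ : ℝ → ℝ := fun x => deriv b x / 2 with hφdef
  have hφ : ContDiff ℝ 1 φ := by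
    have : ContDiff ℝ 1 (deriv b) := by
      have h2 : ContDiff ℝ (1 + 1) b := by simpa [one_add_one_eq_two] using hb
      exact (contDiff_succ_iff_deriv.1 h2).2.2
    exact this.div_const 2
  have hφp : Function.Periodic φ 1 := by
    intro x
    simp only [hφdef]
    rw [per_deriv hbp x]
  obtain ⟨K1, hK1⟩ := per_lip hφ hφp
  obtain ⟨K2, hK2⟩ := per_lip hρ hρp
  obtain ⟨B1, hB1⟩ := per_bdd hφ.continuous hφp
  obtain ⟨B2, hB2⟩ := per_bdd hρ.continuous hρp
  have hL1 : LipschitzWith (max K1 K2) φ := hK1.weaken (le_max_left _ _)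
  have hL2 : LipschitzWith (max K1 K2) ρ := hK2.weaken (le_max_right _ _)
  have hlip := fld_lip hL1 hL2
  have hex := fun p : ℝ × ℝ × ℝ => exists_sol hL1 hL2 (B := max B1 B2)
    (fun x => (hB1 x).trans (by exact_mod_cast le_max_left _ _))
    (fun x => (hB2 x).trans (by exact_mod_cast le_max_right _ _)) p
  choose Φ h0 hΦ using hex
  have hcont := flow_continuous hlip h0 hΦ
  have hd1 : ∀ p t, HasDerivAt (fun s => (Φ p s).1) (Φ p t).2.1 t := by
    intro p t
    have h := ((hasDerivAt_iff_hasFDerivAt.1 (hΦ p t)).fst).hasDerivAt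
    simpa [fld] using h
  have hd2 : ∀ p t, HasDerivAt (fun s => (Φ p s).2.1) (φ (Φ p t).1) t := by
    intro p t
    have h := ((hasDerivAt_iff_hasFDerivAt.1 (hΦ p t)).snd.fst).hasDerivAt
    simpa [fld] using h
  have hd3 : ∀ p t, HasDerivAt (fun s => (Φ p s).2.2) (ρ (Φ p t).1) t := by
    intro p t
    have h := ((hasDerivAt_iff_hasFDerivAt.1 (hΦ p t)).snd.snd).hasDerivAt
    simpa [fld] using h
  have hc' : Continuous fun q : (ℝ × ℝ) × ℝ => Φ (q.1.1, q.1.2, 0) q.2 := by
    have : Continuous fun q : (ℝ × ℝ) × ℝ => ((q.1.1, q.1.2, (0 : ℝ)), q.2) := by fun_prop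
    exact hcont.comp this
  refine ⟨{ X := fun p t => (Φ (p.1, p.2, 0) t).1
            U := fun p t => (Φ (p.1, p.2, 0) t).2.1
            W := fun p t => (Φ (p.1, p.2, 0) t).2.2
            X0 := fun p => by simp [h0]
            U0 := fun p => by simp [h0]
            W0 := fun p => by simp [h0]
            dX := fun p t => hd1 _ t
            dU := fun p t => hd2 _ t
            dW := fun p t => hd3 _ t
            cX := continuous_fst.comp hc'
            cU := (continuous_fst.comp continuous_snd).comp hc'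
            cW := (continuous_snd.comp continuous_snd).comp hc'
            uniq := ?_ }⟩
  intro x u hx hu t
  have hw : ∀ t, HasDerivAt (fun t => ∫ s in (0:ℝ)..t, ρ (x s)) (ρ (x t)) t := by
    intro t
    have hxc : Continuous x := continuous_iff_continuousAt.2 fun s => (hx s).continuousAt
    have hc : Continuous fun s => ρ (x s) := hρ.continuous.comp hxc
    exact intervalIntegral.integral_hasDerivAt_right (hc.intervalIntegrable _ _)
      (hc.stronglyMeasurableAtFilter _ _) hc.continuousAt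
  set β : ℝ → ℝ × ℝ × ℝ := fun t => (x t, u t, ∫ s in (0:ℝ)..t, ρ (x s)) with hβ
  have hβd : ∀ t, HasDerivAt β (fld φ ρ (β t)) t := by
    intro t
    exact (hx t).prodMk ((hu t).prodMk (hw t))
  have h := flow_dist hlip hβd (hΦ (x 0, u 0, 0)) t
  have h00 : β 0 = Φ (x 0, u 0, 0) 0 := by rw [h0]; simp [hβ]
  rw [h00, dist_self, zero_mul] at h
  have heq : β t = Φ (x 0, u 0, 0) t := dist_le_zero.1 h
  refine ⟨?_, ?_⟩
  · have := congrArg Prod.fst heq
    simpa [hβ] using this
  · have := congrArg (fun q => q.2.1) heq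
    simpa [hβ] using this

end Pool.Agent.CGD
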