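import Mathlib
import Pool.Agent.CGD.Sys

/-!
# One dimensional motions: energy, symmetries, first return (helper82)
-/

noncomputable section

open Set Filter Topology Metric
open scoped NNReal ContDiff

namespace Pool.Agent.CGD

/-- Sign of a function near a point where the (continuous) derivative is positive. -/
theorem mono_near {f f' : ℝ → ℝ} (hf : ∀ t, HasDerivAt f (f' t) t) {T : ℝ}
    (hc : ContinuousAt f' T) (h : 0 < f' T) :
    ∃ δ > 0, (∀ t ∈ Ioo (T - δ) T, f t < f T) ∧ ∀ t ∈ Ioo T (T + δ), f T < f t := by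
  have hev : ∀ᶠ t in 𝓝 T, 0 < f' t := hc.eventually_const_lt h
  obtain ⟨δ, hδ, hball⟩ := Metric.eventually_nhds_iff_ball.1 hev
  have hmono : StrictMonoOn f (Ioo (T - δ) (T + δ)) := by
    refine strictMonoOn_of_deriv_pos (convex_Ioo _ _)
      (fun s _ => (hf s).continuousAt.continuousWithinAt) fun s hs => ?_
    rw [interior_Ioo] at hs
    rw [(hf s).deriv]
    apply hball
    rw [mem_ball, Real.dist_eq, abs_lt]
    exact ⟨by linarith [hs.1], by linarith [hs.2]⟩
  refine ⟨δ, hδ, fun t ht => ?_, fun t ht => ?_⟩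
  · exact hmono ⟨ht.1, by linarith [ht.2]⟩ ⟨by linarith, by linarith⟩ ht.2
  · exact hmono ⟨by linarith, by linarith⟩ ⟨by linarith [ht.1], ht.2⟩ ht.1

/-- If `f` and `f'` converge at infinity, then `f'` converges to zero. -/
theorem deriv_lim_zero {f f' : ℝ → ℝ} (hf : ∀ t, HasDerivAt f (f' t) t) {a m : ℝ}
    (ha : Tendsto f atTop (𝓝 a)) (hm : Tendsto f' atTop (𝓝 m)) : m = 0 := by
  have hex : ∀ n : ℕ, ∃ ξ ∈ Ioo (n : ℝ) (n + 1), f' ξ = (f (n + 1) - f n) / ((n : ℝ) + 1 - n) :=
    fun n => exists_hasDerivAt_eq_slope f f' (by linarith)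
      (fun s _ => (hf s).continuousAt.continuousWithinAt) fun s _ => hf s
  choose ξ hξ hξe using hex
  have h1 : Tendsto ξ atTop atTop := tendsto_atTop_mono (fun n => (hξ n).1.le)
    tendsto_natCast_atTop_atTop
  have h2 : Tendsto (fun n => f' (ξ n)) atTop (𝓝 m) := hm.comp h1
  have h3 : Tendsto (fun n : ℕ => f (n + 1) - f n) atTop (𝓝 (a - a)) := by
    refine Tendsto.sub ?_ (ha.comp tendsto_natCast_atTop_atTop)
    exact ha.comp (tendsto_atTop_add_const_right _ 1 tendsto_natCast_atTop_atTop)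
  have h4 : (fun n => f' (ξ n)) = fun n : ℕ => f (n + 1) - f n := by
    funext n
    rw [hξe n]
    have : (n : ℝ) + 1 - n = 1 := by ring
    rw [this, div_one]
  rw [h4, ] at h2
  rw [sub_self] at h3
  exact tendsto_nhds_unique h2 h3

variable {b ρ : ℝ → ℝ}

namespace Sys

variable (S : Sys b ρ)

theorem contX (p : ℝ × ℝ) : Continuous (S.X p) :=
  continuous_iff_continuousAt.2 fun t => (S.dX p t).continuousAt

theorem contU (p : ℝ × ℝ) : Continuous (S.U p) :=
  continuous_iff_continuousAt.2 fun t => (S.dU p t).continuousAt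

theorem contW (p : ℝ × ℝ) : Continuous (S.W p) :=
  continuous_iff_continuousAt.2 fun t => (S.dW p t).continuousAt

theorem energy (hb : Differentiable ℝ b) (p : ℝ × ℝ) (t : ℝ) :
    S.U p t ^ 2 - b (S.X p t) = p.2 ^ 2 - b p.1 := by
  have hd : ∀ t, HasDerivAt (fun t => S.U p t ^ 2 - b (S.X p t)) 0 t := by
    intro t
    have h1 := (S.dU p t).fun_pow 2
    have h2 := ((hb (S.X p t)).hasDerivAt.comp t (S.dX p t))
    have h3 := h1.fun_sub h2
    refine h3.congr_deriv ?_
    simp only [Nat.cast_ofNat, Nat.add_one_sub_one, pow_one]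
    ring
  have := is_const_of_deriv_eq_zero (fun t => (hd t).differentiableAt) (fun t => (hd t).deriv) t 0
  simpa [S.U0, S.X0] using this

theorem W_eq {p : ℝ × ℝ} {w : ℝ → ℝ} (hw : ∀ t, HasDerivAt w (ρ (S.X p t)) t) (h0 : w 0 = 0)
    (t : ℝ) : w t = S.W p t := by
  have hd : ∀ t, HasDerivAt (fun t => w t - S.W p t) 0 t := by
    intro t
    have := (hw t).fun_sub (S.dW p t)
    simpa using this
  have := is_const_of_deriv_eq_zero (fun t => (hd t).differentiableAt) (fun t => (hd t).deriv) t 0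
  have h2 : w t - S.W p t = 0 := by simpa [h0, S.W0] using this
  linarith

theorem shift (hbp : Function.Periodic b 1) (x u t : ℝ) :
    S.X (x + 1, u) t = S.X (x, u) t + 1 ∧ S.U (x + 1, u) t = S.U (x, u) t := by
  have h := S.uniq (fun t => S.X (x, u) t + 1) (S.U (x, u)) (fun t => (S.dX _ t).add_const 1)
    (fun t => by rw [per_deriv hbp]; exact S.dU _ t) t
  simp only [S.X0, S.U0] at h
  exact ⟨h.1.symm, h.2.symm⟩

theorem shiftW (hbp : Function.Periodic b 1) (hρp : Function.Periodic ρ 1) (x u t : ℝ) :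
    S.W (x + 1, u) t = S.W (x, u) t := by
  refine (S.W_eq (p := (x + 1, u)) (w := S.W (x, u)) (fun t => ?_) (S.W0 _) t).symm
  rw [(S.shift hbp x u t).1, hρp]
  exact S.dW _ t

theorem rev (x u t : ℝ) :
    S.X (x, -u) t = S.X (x, u) (-t) ∧ S.U (x, -u) t = - S.U (x, u) (-t) := by
  have h := S.uniq (fun t => S.X (x, u) (-t)) (fun t => - S.U (x, u) (-t))
    (fun t => by
      have := (S.dX (x, u) (-t)).scomp t (hasDerivAt_neg t)
      simpa [Function.comp_def] using this)
    (fun t => by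
      have := ((S.dU (x, u) (-t)).scomp t (hasDerivAt_neg t)).fun_neg
      simpa [Function.comp_def] using this) t
  simp only [neg_zero, S.X0, S.U0] at h
  exact ⟨h.1.symm, h.2.symm⟩

theorem revW (x u t : ℝ) : S.W (x, -u) t = - S.W (x, u) (-t) := by
  refine (S.W_eq (p := (x, -u)) (w := fun t => - S.W (x, u) (-t)) (fun t => ?_) ?_ t).symm
  · rw [(S.rev x u t).1]
    have := ((S.dW (x, u) (-t)).scomp t (hasDerivAt_neg t)).fun_neg
    simpa [Function.comp_def] using this
  · simp [S.W0]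

theorem trans (p : ℝ × ℝ) (t₀ t : ℝ) :
    S.X (S.X p t₀, S.U p t₀) t = S.X p (t₀ + t) ∧
      S.U (S.X p t₀, S.U p t₀) t = S.U p (t₀ + t) := by
  have h := S.uniq (fun t => S.X p (t₀ + t)) (fun t => S.U p (t₀ + t))
    (fun t => (S.dX p (t₀ + t)).comp_const_add t₀ t)
    (fun t => (S.dU p (t₀ + t)).comp_const_add t₀ t) t
  simp only [add_zero] at h
  exact ⟨h.1.symm, h.2.symm⟩

theorem transW (p : ℝ × ℝ) (t₀ t : ℝ) :
    S.W (S.X p t₀, S.U p t₀) t = S.W p (t₀ + t) - S.W p t₀ := by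
  refine (S.W_eq (p := (S.X p t₀, S.U p t₀)) (w := fun t => S.W p (t₀ + t) - S.W p t₀)
    (fun t => ?_) (by simp) t).symm
  rw [(S.trans p t₀ t).1]
  exact ((S.dW p (t₀ + t)).comp_const_add t₀ t).sub_const _

/-- The motion through `p` is periodic up to the translation by `j`, and `c` times the clock
advances by `K` over the period. -/
def Per (s K : ℝ) (j : ℤ) (p : ℝ × ℝ) : Prop :=
  ∃ P > 0, (∀ t, S.X p (t + P) = S.X p t + j) ∧ (∀ t, S.U p (t + P) = S.U p t) ∧
    (∀ t, S.W p (t + P) = S.W p t + S.W p P) ∧ √(b p.1 - p.2 ^ 2 + s) * S.W p P = K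

theorem Per.rev {s K x u : ℝ} {j : ℤ} (h : S.Per s K j (x, u)) : S.Per s K (-j) (x, -u) := by
  obtain ⟨P, hP, h1, h2, h3, hq⟩ := h
  refine ⟨P, hP, fun t => ?_, fun t => ?_, ?_⟩
  · rw [(S.rev x u _).1, (S.rev x u _).1]
    have := h1 (-(t + P))
    rw [show -(t + P) + P = -t by ring] at this
    rw [this]; push_cast; ring
  · rw [(S.rev x u _).2, (S.rev x u _).2]
    have := h2 (-(t + P))
    rw [show -(t + P) + P = -t by ring] at this
    rw [this]
  · have key : ∀ t, S.W (x, -u) (t + P) = S.W (x, -u) t + S.W (x, u) P := by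
      intro t
      rw [S.revW, S.revW]
      have := h3 (-(t + P))
      rw [show -(t + P) + P = -t by ring] at this
      rw [this]; ring
    have hP2 : S.W (x, -u) P = S.W (x, u) P := by
      have := key 0
      rw [S.W0] at this
      simpa using this
    refine ⟨fun t => by rw [key, hP2], ?_⟩
    rw [hP2]
    simpa using hq

/-- A motion which is at rest at two times is periodic. -/
theorem closed_of_rest {p : ℝ × ℝ} (hp : p.2 = 0) {T : ℝ} (hT : S.U p T = 0) :
    (∀ t, S.X p (t + 2 * T) = S.X p t) ∧ (∀ t, S.U p (t + 2 * T) = S.U p t) ∧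
    (∀ t, S.W p (t + 2 * T) = S.W p t + 2 * S.W p T) := by
  obtain ⟨x, u⟩ := p
  simp only at hp
  subst hp
  have e1 : ∀ t, S.X (x, 0) (-t) = S.X (x, 0) t ∧ S.U (x, 0) (-t) = - S.U (x, 0) t := by
    intro t
    have h := S.rev x 0 t
    rw [neg_zero] at h
    exact ⟨h.1.symm, by rw [h.2, neg_neg]⟩
  have e1W : ∀ t, S.W (x, 0) (-t) = - S.W (x, 0) t := by
    intro t
    have h := S.revW x 0 t
    rw [neg_zero] at h
    rw [h, neg_neg]
  have e2 : ∀ t, S.X (x, 0) (T - t) = S.X (x, 0) (T + t) ∧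
      S.U (x, 0) (T - t) = - S.U (x, 0) (T + t) := by
    intro t
    have h := S.rev (S.X (x, 0) T) 0 t
    have h1 := S.trans (x, 0) T t
    have h2 := S.trans (x, 0) T (-t)
    rw [hT] at h1 h2
    rw [neg_zero] at h
    rw [← sub_eq_add_neg] at h2
    rw [← h1.1, ← h1.2, ← h2.1, ← h2.2, h.1, h.2, neg_neg]
    exact ⟨rfl, rfl⟩
  have e2W : ∀ t, S.W (x, 0) (T - t) = 2 * S.W (x, 0) T - S.W (x, 0) (T + t) := by
    intro t
    have h := S.revW (S.X (x, 0) T) 0 t
    have h1 := S.transW (x, 0) T t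
    have h2 := S.transW (x, 0) T (-t)
    rw [hT] at h1 h2
    rw [neg_zero] at h
    rw [← sub_eq_add_neg] at h2
    linarith
  refine ⟨fun t => ?_, fun t => ?_, fun t => ?_⟩
  · have h1 := (e2 (t + T)).1
    rw [show T - (t + T) = -t by ring, show T + (t + T) = t + 2 * T by ring, (e1 t).1] at h1
    exact h1.symm
  · have h1 := (e2 (t + T)).2
    rw [show T - (t + T) = -t by ring, show T + (t + T) = t + 2 * T by ring, (e1 t).2] at h1
    linarith
  · have h1 := e2W (t + T)
    rw [show T - (t + T) = -t by ring, show T + (t + T) = t + 2 * T by ring, e1W t] at h1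
    linarith

end Sys

end Pool.Agent.CGD
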