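import Mathlib
import Pool.Agent.CGD.Mot

/-!
# Regular turning points and first return (helper82)
-/

noncomputable section

open Set Filter Topology Metric MeasureTheory
open scoped NNReal ContDiff

namespace Pool.Agent.CGD

variable {b ρ : ℝ → ℝ}

/-- `x` is a left turning point at a regular value of `b`. -/
def Good (b : ℝ → ℝ) (x : ℝ) : Prop := 0 < deriv b x ∧ ∀ z, b z = b x → deriv b z ≠ 0

theorem good_open (hb : ContDiff ℝ 2 b) (hbp : Function.Periodic b 1) :
    IsOpen {x | Good b x} := by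
  have hd : Continuous (deriv b) := hb.continuous_deriv (by norm_num)
  set C := b '' (Icc (0:ℝ) 1 ∩ {z | deriv b z = 0}) with hCdef
  have hC : IsClosed C :=
    ((isCompact_Icc.inter_right (isClosed_eq hd continuous_const)).image hb.continuous).isClosed
  have heq : {x | Good b x} = {x | 0 < deriv b x} ∩ b ⁻¹' Cᶜ := by
    ext x
    constructor
    · rintro ⟨h1, h2⟩
      refine ⟨h1, ?_⟩
      rintro ⟨z, ⟨_, hz⟩, hzx⟩
      exact h2 z hzx hz
    · rintro ⟨h1, h2⟩
      refine ⟨h1, fun z hz h0 => h2 ?_⟩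
      have e1 : b (Int.fract z) = b z := by
        have := hbp.sub_int_mul_eq (x := z) ⌊z⌋
        rw [mul_one] at this
        exact this
      have e2 : deriv b (Int.fract z) = deriv b z := by
        have := (per_deriv hbp).sub_int_mul_eq (x := z) ⌊z⌋
        rw [mul_one] at this
        exact this
      exact ⟨Int.fract z, ⟨⟨Int.fract_nonneg z, (Int.fract_lt_one z).le⟩, by
        show deriv b (Int.fract z) = 0
        rw [e2, h0]⟩, by rw [e1, hz]⟩
  rw [heq]
  exact (isOpen_lt continuous_const hd).inter (hC.isOpen_compl.preimage hb.continuous)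

/-- Regular values are dense (Sard in dimension one). -/
theorem exists_regular (hb : ContDiff ℝ 2 b) {v₁ v₂ : ℝ} (hv : v₁ < v₂) :
    ∃ v ∈ Ioo v₁ v₂, ∀ z, b z = v → deriv b z ≠ 0 := by
  have hnull : volume (b '' {z | deriv b z = 0}) = 0 := by
    refine addHaar_image_eq_zero_of_det_fderivWithin_eq_zero volume (f' := fun z => fderiv ℝ b z)
      (fun z _ => ((hb.differentiable (by norm_num)) z).hasFDerivAt.hasFDerivWithinAt) ?_
    intro z hz
    have h0 : fderiv ℝ b z = 0 := by
      ext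
      simpa using hz
    rw [h0, ContinuousLinearMap.det]
    simp
  by_contra hcon
  push Not at hcon
  have hsub : Ioo v₁ v₂ ⊆ b '' {z | deriv b z = 0} := by
    intro v hv'
    obtain ⟨z, hz, h0⟩ := hcon v hv'
    exact ⟨z, h0, hz⟩
  have := measure_mono_null hsub hnull
  rw [Real.volume_Ioo, ENNReal.ofReal_eq_zero] at this
  linarith

namespace Sys

variable (S : Sys b ρ)

/-- The motion started at rest at a regular turning point comes to rest again. -/
theorem exists_rest (hb : ContDiff ℝ 2 b) {x : ℝ} (hcap : ∃ y > x, b y ≤ b x)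
    (hx : Good b x) : ∃ t > 0, S.U (x, 0) t = 0 := by
  by_contra hcon
  push Not at hcon
  have hdb : Differentiable ℝ b := hb.differentiable (by norm_num)
  have hd : Continuous (deriv b) := hb.continuous_deriv (by norm_num)
  have hφ : ContinuousAt (fun t => deriv b (S.X (x, 0) t) / 2) 0 :=
    ((hd.comp (S.contX _)).div_const 2).continuousAt
  obtain ⟨δ, hδ, -, hpos⟩ := mono_near (S.dU (x, 0)) hφ (by
    rw [S.X0]; have := hx.1; simp only; linarith)
  have hU0 : S.U (x, 0) 0 = 0 := S.U0 _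
  have hX0 : S.X (x, 0) 0 = x := S.X0 _
  -- `U > 0` for all positive times
  have hUpos : ∀ t, 0 < t → 0 < S.U (x, 0) t := by
    intro t ht
    by_contra hneg
    have hlt : S.U (x, 0) t < 0 := lt_of_le_of_ne (not_lt.1 hneg) (hcon t ht)
    set t₁ := min (δ / 2) (t / 2) with ht1
    have h1 : 0 < t₁ := by positivity
    have h1t : t₁ < t := (min_le_right _ _).trans_lt (by linarith)
    have h1δ : t₁ < 0 + δ := (min_le_left _ _).trans_lt (by linarith)
    have h2 : 0 < S.U (x, 0) t₁ := by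
      have := hpos t₁ ⟨h1, h1δ⟩
      rwa [hU0] at this
    obtain ⟨t', ht', h0⟩ := intermediate_value_Icc' h1t.le (S.contU (x, 0)).continuousOn
      ⟨hlt.le, h2.le⟩
    exact hcon t' (h1.trans_le ht'.1) h0
  have hmono : StrictMonoOn (S.X (x, 0)) (Ici 0) := by
    refine strictMonoOn_of_deriv_pos (convex_Ici 0) (S.contX _).continuousOn fun s hs => ?_
    rw [interior_Ici] at hs
    rw [(S.dX _ s).deriv]
    exact hUpos s hs
  have hen : ∀ t, S.U (x, 0) t ^ 2 = b (S.X (x, 0) t) - b x := by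
    intro t
    have := S.energy hdb (x, 0) t
    simp only at this
    linarith
  -- confinement
  obtain ⟨cap, hcapx, hcapb⟩ := hcap
  have hlt : ∀ t, 0 ≤ t → S.X (x, 0) t ≤ cap := by
    intro t ht
    by_contra hcon'
    rw [not_le] at hcon'
    obtain ⟨t', ht', h1⟩ := intermediate_value_Icc ht (S.contX (x, 0)).continuousOn
      (show cap ∈ Icc (S.X (x, 0) 0) (S.X (x, 0) t) from ⟨by rw [hX0]; linarith, hcon'.le⟩)
    have ht'0 : 0 < t' := by
      rcases ht'.1.lt_or_eq with h | h
      · exact h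
      · rw [← h, hX0] at h1; linarith
    have h2 := hen t'
    rw [h1] at h2
    have := hUpos t' ht'0
    nlinarith
  set g : ℝ → ℝ := fun t => S.X (x, 0) (max t 0) with hg
  have hgm : Monotone g := by
    intro s t hst
    exact hmono.monotoneOn (show max s 0 ∈ Ici (0:ℝ) from le_max_right s 0)
      (show max t 0 ∈ Ici (0:ℝ) from le_max_right t 0) (max_le_max_right 0 hst)
  have hgb : BddAbove (range g) := ⟨cap, by
    rintro _ ⟨t, rfl⟩
    exact hlt _ (le_max_right _ _)⟩
  set xi := ⨆ t, g t with hxi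
  have hlimg : Tendsto g atTop (𝓝 xi) := tendsto_atTop_ciSup hgm hgb
  have hlimX : Tendsto (S.X (x, 0)) atTop (𝓝 xi) := by
    refine hlimg.congr' ?_
    filter_upwards [eventually_ge_atTop (0:ℝ)] with t ht
    simp only [hg]
    rw [max_eq_left ht]
  have hlimU2 : Tendsto (fun t => S.U (x, 0) t ^ 2) atTop (𝓝 (b xi - b x)) := by
    have h1 : Tendsto (fun t => b (S.X (x, 0) t) - b x) atTop (𝓝 (b xi - b x)) :=
      ((hb.continuous.tendsto xi).comp hlimX).sub_const _
    refine h1.congr fun t => (hen t).symm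
  have hlimU : Tendsto (S.U (x, 0)) atTop (𝓝 (√(b xi - b x))) := by
    refine ((Real.continuous_sqrt.tendsto _).comp hlimU2).congr' ?_
    filter_upwards [eventually_gt_atTop (0:ℝ)] with t ht
    simp only [Function.comp_apply]
    exact Real.sqrt_sq (hUpos t ht).le
  have hzero := deriv_lim_zero (S.dX (x, 0)) hlimX hlimU
  rw [hzero] at hlimU
  have hlimU' : Tendsto (fun t => deriv b (S.X (x, 0) t) / 2) atTop (𝓝 (deriv b xi / 2)) :=
    ((hd.tendsto xi).comp hlimX).div_const 2
  have hzero' := deriv_lim_zero (S.dU (x, 0)) hlimU hlimU'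
  have hbx : b xi = b x := by
    have h1 : Tendsto (fun t => S.U (x, 0) t ^ 2) atTop (𝓝 (0 ^ 2)) := hlimU.pow 2
    have := tendsto_nhds_unique hlimU2 h1
    linarith
  exact hx.2 xi hbx (by linarith)

/-- First return to rest. -/
theorem first_return (hb : ContDiff ℝ 2 b) {x : ℝ} (hcap : ∃ y > x, b y ≤ b x)
    (hx : Good b x) : ∃ T > 0, (∀ t ∈ Ioo 0 T, 0 < S.U (x, 0) t) ∧ S.U (x, 0) T = 0 ∧
      ∃ η > 0, ∀ t ∈ Ioo T (T + η), S.U (x, 0) t < 0 := by
  obtain ⟨t₂, ht₂, hU2⟩ := S.exists_rest hb hcap hx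
  have hdb : Differentiable ℝ b := hb.differentiable (by norm_num)
  have hd : Continuous (deriv b) := hb.continuous_deriv (by norm_num)
  have hφ : Continuous (fun t => deriv b (S.X (x, 0) t) / 2) :=
    ((hd.comp (S.contX _)).div_const 2)
  obtain ⟨δ, hδ, -, hpos⟩ := mono_near (S.dU (x, 0)) hφ.continuousAt (T := 0) (by
    rw [S.X0]; have := hx.1; simp only; linarith)
  have hU0 : S.U (x, 0) 0 = 0 := S.U0 _
  rw [hU0] at hpos
  have hpos' : ∀ t ∈ Ioo 0 δ, 0 < S.U (x, 0) t := fun t ht => hpos t ⟨ht.1, by linarith [ht.2]⟩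
  set Z : Set ℝ := {t | δ / 2 ≤ t ∧ S.U (x, 0) t = 0} with hZ
  have hZc : IsClosed Z := (isClosed_Ici (a := δ / 2)).inter
    (isClosed_eq (S.contU (x, 0)) continuous_const)
  have ht₂δ : δ / 2 ≤ t₂ := by
    by_contra h
    rw [not_le] at h
    have := hpos' t₂ ⟨ht₂, by linarith⟩
    linarith
  have hZn : Z.Nonempty := ⟨t₂, ht₂δ, hU2⟩
  have hZb : BddBelow Z := ⟨δ / 2, fun t ht => ht.1⟩
  set T := sInf Z with hT
  have hTZ : T ∈ Z := hZc.csInf_mem hZn hZb
  have hTpos : 0 < T := lt_of_lt_of_le (by positivity) hTZ.1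
  have hbefore : ∀ t ∈ Ioo 0 T, 0 < S.U (x, 0) t := by
    intro t ht
    by_cases hlt : t < δ
    · exact hpos' t ⟨ht.1, hlt⟩
    rw [not_lt] at hlt
    by_contra hneg
    rw [not_lt] at hneg
    have h2 : 0 < S.U (x, 0) (δ / 2) := hpos' _ ⟨by positivity, by linarith⟩
    obtain ⟨t', ht', h0⟩ := intermediate_value_Icc' (by linarith : δ / 2 ≤ t)
      (S.contU (x, 0)).continuousOn ⟨hneg, h2.le⟩
    have h3 : T ≤ t' := csInf_le hZb ⟨ht'.1, h0⟩
    linarith [ht'.2, ht.2]
  refine ⟨T, hTpos, hbefore, hTZ.2, ?_⟩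
  have hen := S.energy hdb (x, 0) T
  rw [hTZ.2] at hen
  simp only at hen
  have hbT : b (S.X (x, 0) T) = b x := by linarith
  have hne := hx.2 _ hbT
  have hle : deriv b (S.X (x, 0) T) ≤ 0 := by
    by_contra hp
    rw [not_le] at hp
    obtain ⟨δ', hδ', hbef, -⟩ := mono_near (S.dU (x, 0)) hφ.continuousAt (T := T)
      (by linarith)
    set t := max (T - δ' / 2) (T / 2) with ht
    have h1 : T - δ' < t := lt_of_lt_of_le (by linarith) (le_max_left _ _)
    have h2 : t < T := max_lt (by linarith) (by linarith)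
    have h3 : 0 < t := lt_of_lt_of_le (by linarith) (le_max_right _ _)
    have h4 := hbef t ⟨h1, h2⟩
    have h5 := hbefore t ⟨h3, h2⟩
    rw [hTZ.2] at h4
    linarith
  have hlt : deriv b (S.X (x, 0) T) < 0 := lt_of_le_of_ne hle hne
  obtain ⟨η, hη, -, haft⟩ := mono_near (f := fun t => - S.U (x, 0) t)
    (f' := fun t => -(deriv b (S.X (x, 0) t) / 2)) (fun t => (S.dU (x, 0) t).neg)
    hφ.neg.continuousAt (T := T) (by linarith)
  refine ⟨η, hη, fun t ht => ?_⟩
  have := haft t ht
  rw [hTZ.2] at this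
  linarith

end Sys

end Pool.Agent.CGD
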