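import Mathlib
import Pool.Agent.CGD.Ret

/-!
# The intermediate value argument (helper82)
-/

noncomputable section

open Set Filter Topology Metric MeasureTheory
open scoped NNReal ContDiff

namespace Pool.Agent.CGD

variable {b ρ : ℝ → ℝ}

theorem per_pos {f : ℝ → ℝ} (hf : Continuous f) (hp : Function.Periodic f 1)
    (hpos : ∀ x, 0 < f x) : ∃ m > 0, ∀ x, m ≤ f x := by
  obtain ⟨z, hz, hmin⟩ := isCompact_Icc.exists_isMinOn (nonempty_Icc.2 (zero_le_one (α := ℝ)))
    hf.continuousOn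
  refine ⟨f z, hpos z, fun x => ?_⟩
  have e1 : f (Int.fract x) = f x := by
    have := hp.sub_int_mul_eq (x := x) ⌊x⌋
    rw [mul_one] at this
    exact this
  rw [← e1]
  exact hmin ⟨Int.fract_nonneg x, (Int.fract_lt_one x).le⟩

namespace Sys

variable (S : Sys b ρ)

theorem W_mono (hρ : ∀ x, 0 < ρ x) (p : ℝ × ℝ) : StrictMono (S.W p) := by
  refine strictMono_of_deriv_pos fun t => ?_
  rw [(S.dW p t).deriv]
  exact hρ _

theorem W_surj {m : ℝ} (hm : 0 < m) (hρ : ∀ x, m ≤ ρ x) (p : ℝ × ℝ) (k : ℝ) :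
    ∃ t, S.W p t = k := by
  have hlow : ∀ t, 0 ≤ t → m * t ≤ S.W p t := by
    intro t ht
    have hd : ∀ s, HasDerivAt (fun s => S.W p s - m * s) (ρ (S.X p s) - m * 1) s := fun s =>
      (S.dW p s).fun_sub ((hasDerivAt_id s).const_mul m)
    have hmono : Monotone (fun s => S.W p s - m * s) := by
      refine monotone_of_deriv_nonneg (fun s => (hd s).differentiableAt) fun s => ?_
      rw [(hd s).deriv]
      have := hρ (S.X p s)
      linarith
    have := hmono ht
    simp only [S.W0, mul_zero, sub_zero] at this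
    linarith
  have hup : ∀ t, t ≤ 0 → S.W p t ≤ m * t := by
    intro t ht
    have hd : ∀ s, HasDerivAt (fun s => S.W p s - m * s) (ρ (S.X p s) - m * 1) s := fun s =>
      (S.dW p s).fun_sub ((hasDerivAt_id s).const_mul m)
    have hmono : Monotone (fun s => S.W p s - m * s) := by
      refine monotone_of_deriv_nonneg (fun s => (hd s).differentiableAt) fun s => ?_
      rw [(hd s).deriv]
      have := hρ (S.X p s)
      linarith
    have := hmono ht
    simp only [S.W0, mul_zero, sub_zero] at this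
    linarith
  set r := |k| / m with hr
  have hr0 : 0 ≤ r := by positivity
  have hmr : m * r = |k| := by rw [hr]; field_simp
  have h1 : k ≤ S.W p r := by
    have := hlow r hr0
    have := le_abs_self k
    linarith
  have h2 : S.W p (-r) ≤ k := by
    have := hup (-r) (by linarith)
    have := neg_abs_le k
    linarith
  obtain ⟨t, -, ht⟩ := intermediate_value_Icc (show -r ≤ r by linarith) (S.contW p).continuousOn
    ⟨h2, h1⟩
  exact ⟨t, ht⟩

/-- Intermediate values along the curve `c W = K`. -/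
theorem clock_ivt {m : ℝ} (hm : 0 < m) (hρ : ∀ x, m ≤ ρ x) {p : ℝ → ℝ × ℝ} {c : ℝ → ℝ}
    {z₁ z₂ : ℝ} (hp : ContinuousOn p (uIcc z₁ z₂)) (hc : ContinuousOn c (uIcc z₁ z₂))
    (hcpos : ∀ z ∈ uIcc z₁ z₂, 0 < c z) {K : ℝ} {H : (ℝ × ℝ) × ℝ → ℝ} (hH : Continuous H)
    {t₁ t₂ : ℝ} (ht₁ : c z₁ * S.W (p z₁) t₁ = K) (ht₂ : c z₂ * S.W (p z₂) t₂ = K)
    (h1 : H (p z₁, t₁) ≤ 0) (h2 : 0 ≤ H (p z₂, t₂)) :
    ∃ z ∈ uIcc z₁ z₂, ∃ t, c z * S.W (p z) t = K ∧ H (p z, t) = 0 := by
  have hρ0 : ∀ x, 0 < ρ x := fun x => hm.trans_le (hρ x)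
  have hex : ∀ z, ∃ t, S.W (p z) t = K / c z := fun z => S.W_surj hm hρ (p z) _
  choose θ hθ using hex
  have hθ' : ∀ z ∈ uIcc z₁ z₂, c z * S.W (p z) (θ z) = K := by
    intro z hz
    rw [hθ]
    have := (hcpos z hz).ne'
    field_simp
  have hu : ∀ z ∈ uIcc z₁ z₂, ∀ t, c z * S.W (p z) t = K → t = θ z := by
    intro z hz t ht
    have h3 : S.W (p z) t = S.W (p z) (θ z) := by
      have h4 := hθ' z hz
      have h5 := (hcpos z hz).ne'
      exact mul_left_cancel₀ h5 (ht.trans h4.symm)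
    exact (S.W_mono hρ0 (p z)).injective h3
  have hθc : ContinuousOn θ (uIcc z₁ z₂) := by
    intro z hz
    rw [ContinuousWithinAt, Metric.tendsto_nhds]
    intro ε hε
    have hF : ∀ t, Tendsto (fun z => c z * S.W (p z) t) (𝓝[uIcc z₁ z₂] z)
        (𝓝 (c z * S.W (p z) t)) := by
      intro t
      have h4 : ContinuousWithinAt (fun z => S.W (p z) t) (uIcc z₁ z₂) z := by
        have h5 : Continuous fun q : ℝ × ℝ => S.W q t := by
          have : Continuous fun q : ℝ × ℝ => (q, t) := by fun_prop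
          exact S.cW.comp this
        exact h5.continuousAt.comp_continuousWithinAt (hp z hz)
      exact (hc z hz).mul h4
    have hlo : c z * S.W (p z) (θ z - ε) < K := by
      rw [← hθ' z hz]
      exact mul_lt_mul_of_pos_left (S.W_mono hρ0 _ (by linarith)) (hcpos z hz)
    have hhi : K < c z * S.W (p z) (θ z + ε) := by
      rw [← hθ' z hz]
      exact mul_lt_mul_of_pos_left (S.W_mono hρ0 _ (by linarith)) (hcpos z hz)
    filter_upwards [(hF (θ z - ε)).eventually_lt_const hlo,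
      (hF (θ z + ε)).eventually_const_lt hhi, self_mem_nhdsWithin] with y hy1 hy2 hy3
    have e := hθ' y hy3
    rw [← e] at hy1 hy2
    have g1 := (S.W_mono hρ0 (p y)).lt_iff_lt.1 (lt_of_mul_lt_mul_left hy1 (hcpos y hy3).le)
    have g2 := (S.W_mono hρ0 (p y)).lt_iff_lt.1 (lt_of_mul_lt_mul_left hy2 (hcpos y hy3).le)
    rw [Real.dist_eq, abs_lt]
    constructor <;> linarith
  have hG : ContinuousOn (fun z => H (p z, θ z)) (uIcc z₁ z₂) :=
    hH.comp_continuousOn (hp.prodMk hθc)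
  have e1 : t₁ = θ z₁ := hu z₁ left_mem_uIcc t₁ ht₁
  have e2 : t₂ = θ z₂ := hu z₂ right_mem_uIcc t₂ ht₂
  subst e1
  subst e2
  obtain ⟨z, hz, h0⟩ := intermediate_value_uIcc hG (show (0:ℝ) ∈ uIcc _ _ from
    mem_uIcc_of_le h1 h2)
  exact ⟨z, hz, θ z, hθ' z hz, h0⟩

end Sys

end Pool.Agent.CGD
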