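import Mathlib
import Pool.Agent.CGD.Ivt

/-!
# Oscillating motions (helper82)
-/

noncomputable section

open Set Filter Topology Metric MeasureTheory
open scoped NNReal ContDiff

namespace Pool.Agent.CGD

variable {b ρ : ℝ → ℝ}

namespace Sys

variable (S : Sys b ρ)

/-- `T` is the first return time to rest of the motion started at rest at `x`. -/
def IsRest (x T : ℝ) : Prop :=
  0 < T ∧ (∀ t ∈ Ioo 0 T, 0 < S.U (x, 0) t) ∧ S.U (x, 0) T = 0 ∧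
    ∃ η > 0, ∀ t ∈ Ioo T (T + η), S.U (x, 0) t < 0

/-- The exceptional shifts. -/
def badSet : Set ℝ :=
  {s | (∀ x, 0 < b x + s) ∧ ∃ r₁ r₂ : ℚ, (∃ x ∈ Ioo (r₁ : ℝ) r₂, Good b x) ∧
    ∃ K : ℝ, ∀ x ∈ Ioo (r₁ : ℝ) r₂, Good b x → ∀ T, S.IsRest x T →
      √(b x + s) * S.W (x, 0) T = K}

theorem W_pos (hρ : ∀ x, 0 < ρ x) {p : ℝ × ℝ} {t : ℝ} (ht : 0 < t) : 0 < S.W p t := by
  have := S.W_mono hρ p ht
  rwa [S.W0] at this

theorem pos_of_W_pos (hρ : ∀ x, 0 < ρ x) {p : ℝ × ℝ} {t : ℝ} (ht : 0 < S.W p t) : 0 < t := by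
  rw [← S.W0 p] at ht
  exact (S.W_mono hρ p).lt_iff_lt.1 ht

theorem badSet_countable (hb : ContDiff ℝ 2 b) (hbp : Function.Periodic b 1)
    (hρ : ∀ x, 0 < ρ x) : S.badSet.Countable := by
  have hsub : S.badSet ⊆ ⋃ r : ℚ × ℚ, {s | (∀ x, 0 < b x + s) ∧
      (∃ x ∈ Ioo (r.1 : ℝ) r.2, Good b x) ∧ ∃ K : ℝ, ∀ x ∈ Ioo (r.1 : ℝ) r.2, Good b x →
      ∀ T, S.IsRest x T → √(b x + s) * S.W (x, 0) T = K} := by
    rintro s ⟨h1, r₁, r₂, h2, h3⟩
    exact mem_iUnion.2 ⟨(r₁, r₂), h1, h2, h3⟩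
  refine (countable_iUnion fun r => Set.Subsingleton.countable ?_).mono hsub
  rintro s ⟨hs, ⟨x₀, hx₀, hg₀⟩, K, hK⟩ s' ⟨hs', -, K', hK'⟩
  have hdb : Differentiable ℝ b := hb.differentiable (by norm_num)
  have hd : Continuous (deriv b) := hb.continuous_deriv (by norm_num)
  obtain ⟨δ, hδ, -, hlt⟩ := mono_near (fun t => (hdb t).hasDerivAt) hd.continuousAt hg₀.1
  have hev : ∀ᶠ x in 𝓝[>] x₀, x ∈ Ioo (r.1 : ℝ) r.2 ∧ Good b x ∧ x ∈ Ioo x₀ (x₀ + δ) := by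
    have e1 : ∀ᶠ x in 𝓝 x₀, x ∈ Ioo (r.1 : ℝ) r.2 := Ioo_mem_nhds hx₀.1 hx₀.2
    have e2 : ∀ᶠ x in 𝓝 x₀, Good b x := (good_open hb hbp).mem_nhds hg₀
    have e3 : ∀ᶠ x in 𝓝[>] x₀, x ∈ Ioo x₀ (x₀ + δ) := Ioo_mem_nhdsGT (by linarith)
    filter_upwards [e1.filter_mono nhdsWithin_le_nhds, e2.filter_mono nhdsWithin_le_nhds, e3]
      with x h1 h2 h3 using ⟨h1, h2, h3⟩
  obtain ⟨x₁, hx₁, hg₁, hx₁'⟩ := hev.exists
  have hb01 := hlt x₁ hx₁'
  have hcap : ∀ x, ∃ y > x, b y ≤ b x := fun x => ⟨x + 1, by linarith, (hbp x).le⟩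
  obtain ⟨T₀, hT₀, hT₀a, hT₀b, hT₀c⟩ := S.first_return hb (hcap _) hg₀
  obtain ⟨T₁, hT₁, hT₁a, hT₁b, hT₁c⟩ := S.first_return hb (hcap _) hg₁
  have a1 := hK x₀ hx₀ hg₀ T₀ ⟨hT₀, hT₀a, hT₀b, hT₀c⟩
  have a2 := hK x₁ hx₁ hg₁ T₁ ⟨hT₁, hT₁a, hT₁b, hT₁c⟩
  have a3 := hK' x₀ hx₀ hg₀ T₀ ⟨hT₀, hT₀a, hT₀b, hT₀c⟩
  have a4 := hK' x₁ hx₁ hg₁ T₁ ⟨hT₁, hT₁a, hT₁b, hT₁c⟩
  have w0 : 0 < S.W (x₀, 0) T₀ := S.W_pos hρ hT₀
  have w1 : 0 < S.W (x₁, 0) T₁ := S.W_pos hρ hT₁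
  have e1 : (b x₀ + s) * S.W (x₀, 0) T₀ ^ 2 = (b x₁ + s) * S.W (x₁, 0) T₁ ^ 2 := by
    have h := congrArg (fun y => y ^ 2) (a1.trans a2.symm)
    simp only [mul_pow] at h
    rwa [Real.sq_sqrt (hs _).le, Real.sq_sqrt (hs _).le] at h
  have e2 : (b x₀ + s') * S.W (x₀, 0) T₀ ^ 2 = (b x₁ + s') * S.W (x₁, 0) T₁ ^ 2 := by
    have h := congrArg (fun y => y ^ 2) (a3.trans a4.symm)
    simp only [mul_pow] at h
    rwa [Real.sq_sqrt (hs' _).le, Real.sq_sqrt (hs' _).le] at h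
  set A := S.W (x₀, 0) T₀ ^ 2
  set B := S.W (x₁, 0) T₁ ^ 2
  have hA : 0 < A := by positivity
  have hB : 0 < B := by positivity
  have e3 : (A * B) * ((b x₀ - b x₁) * (s' - s)) = 0 := by
    have : (b x₀ + s) * A * ((b x₁ + s') * B) = (b x₁ + s) * B * ((b x₀ + s') * A) := by
      rw [e1, e2]
    linear_combination this
  have e4 : (b x₀ - b x₁) * (s' - s) = 0 := by
    rcases mul_eq_zero.1 e3 with h | h
    · exact absurd h (mul_pos hA hB).ne'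
    · exact h
  rcases mul_eq_zero.1 e4 with h | h
  · exact absurd h (by intro h; linarith)
  · linarith

theorem Per.trans (hb : Differentiable ℝ b) {s K : ℝ} {j : ℤ} {p : ℝ × ℝ} (h : S.Per s K j p)
    (t₀ : ℝ) : S.Per s K j (S.X p t₀, S.U p t₀) := by
  obtain ⟨P, hP, h1, h2, h3, hq⟩ := h
  refine ⟨P, hP, fun t => ?_, fun t => ?_, fun t => ?_, ?_⟩
  · rw [(S.trans p t₀ _).1, (S.trans p t₀ _).1, ← h1 (t₀ + t), add_assoc]
  · rw [(S.trans p t₀ _).2, (S.trans p t₀ _).2, ← h2 (t₀ + t), add_assoc]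
  · rw [S.transW, S.transW, S.transW, ← add_assoc, h3 (t₀ + t), h3 t₀]
    ring
  · rw [S.transW, h3 t₀]
    have := S.energy hb p t₀
    have e : b (S.X p t₀) - S.U p t₀ ^ 2 + s = b p.1 - p.2 ^ 2 + s := by linarith
    simp only
    rw [e, ← hq]
    ring

/-- Between two different values of the rotation function there are closed motions. -/
theorem osc_aux (hb : ContDiff ℝ 2 b) {m : ℝ} (hm : 0 < m)
    (hρ : ∀ x, m ≤ ρ x) {s : ℝ} {L : ℝ} (hL : 0 < L) {z₁ z₂ T₁ T₂ : ℝ}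
    (hs : ∀ z ∈ uIcc z₁ z₂, 0 < b z + s)
    (h1 : S.IsRest z₁ T₁) (h2 : S.IsRest z₂ T₂)
    (hlt : √(b z₁ + s) * S.W (z₁, 0) T₁ < √(b z₂ + s) * S.W (z₂, 0) T₂) :
    ∃ z ∈ uIcc z₁ z₂, ∃ q : ℚ, S.Per s (q * L) 0 (z, 0) := by
  have hρ0 : ∀ x, 0 < ρ x := fun x => hm.trans_le (hρ x)
  obtain ⟨hT₁, h1a, h1b, η, hη, h1c⟩ := h1
  obtain ⟨hT₂, h2a, h2b, -⟩ := h2
  have hcz : ∀ z ∈ uIcc z₁ z₂, 0 < √(b z + s) := fun z hz => Real.sqrt_pos.2 (hs z hz)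
  have hc1 : 0 < √(b z₁ + s) := hcz z₁ left_mem_uIcc
  have hc2 : 0 < √(b z₂ + s) := hcz z₂ right_mem_uIcc
  have hlt2 : √(b z₁ + s) * S.W (z₁, 0) T₁ < √(b z₁ + s) * S.W (z₁, 0) (T₁ + η) :=
    mul_lt_mul_of_pos_left (S.W_mono hρ0 _ (by linarith)) hc1
  set f₁ := √(b z₁ + s) * S.W (z₁, 0) T₁ with hf₁
  have hf₁pos : 0 < f₁ := mul_pos hc1 (S.W_pos hρ0 hT₁)
  obtain ⟨q, hq1, hq2⟩ := exists_rat_btwn (show f₁ / L <
    min (√(b z₂ + s) * S.W (z₂, 0) T₂) (√(b z₁ + s) * S.W (z₁, 0) (T₁ + η)) / L from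
    div_lt_div_of_pos_right (lt_min hlt hlt2) hL)
  set K := (q : ℝ) * L with hK
  have hK1 : f₁ < K := by rwa [div_lt_iff₀ hL] at hq1
  have hK2 : K < min (√(b z₂ + s) * S.W (z₂, 0) T₂) (√(b z₁ + s) * S.W (z₁, 0) (T₁ + η)) := by
    rwa [lt_div_iff₀ hL] at hq2
  have hK2a := hK2.trans_le (min_le_left _ _)
  have hK2b := hK2.trans_le (min_le_right _ _)
  have hKpos : 0 < K := hf₁pos.trans hK1
  obtain ⟨t₁, ht₁⟩ := S.W_surj hm hρ (z₁, 0) (K / √(b z₁ + s))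
  obtain ⟨t₂, ht₂⟩ := S.W_surj hm hρ (z₂, 0) (K / √(b z₂ + s))
  have ht₁' : √(b z₁ + s) * S.W (z₁, 0) t₁ = K := by
    rw [ht₁]; have := hc1.ne'; field_simp
  have ht₂' : √(b z₂ + s) * S.W (z₂, 0) t₂ = K := by
    rw [ht₂]; have := hc2.ne'; field_simp
  have c1 : T₁ < t₁ := by
    rw [hf₁, ← ht₁'] at hK1
    exact (S.W_mono hρ0 _).lt_iff_lt.1 (lt_of_mul_lt_mul_left hK1 hc1.le)
  have c2 : t₁ < T₁ + η := by
    rw [← ht₁'] at hK2b
    exact (S.W_mono hρ0 _).lt_iff_lt.1 (lt_of_mul_lt_mul_left hK2b hc1.le)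
  have c3 : t₂ < T₂ := by
    rw [← ht₂'] at hK2a
    exact (S.W_mono hρ0 _).lt_iff_lt.1 (lt_of_mul_lt_mul_left hK2a hc2.le)
  have c4 : 0 < t₂ := by
    refine S.pos_of_W_pos hρ0 (p := (z₂, 0)) ?_
    rw [ht₂]; exact div_pos hKpos hc2
  obtain ⟨z, hz, t, hzt, hzU⟩ := S.clock_ivt hm hρ (p := fun z => (z, 0))
    (c := fun z => √(b z + s)) (z₁ := z₁) (z₂ := z₂) (by fun_prop)
    (by have := hb.continuous; fun_prop) hcz (K := K)
    (H := fun q => S.U q.1 q.2) S.cU ht₁' ht₂' (h1c t₁ ⟨c1, c2⟩).le (h2a t₂ ⟨c4, c3⟩).le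
  refine ⟨z, hz, 2 * q, ?_⟩
  simp only at hzt hzU
  have ht : 0 < t := by
    refine S.pos_of_W_pos hρ0 (p := (z, 0)) ?_
    have : 0 < √(b z + s) * S.W (z, 0) t := by rw [hzt]; exact hKpos
    exact (mul_pos_iff_of_pos_left (hcz z hz)).1 this
  obtain ⟨g1, g2, g3⟩ := S.closed_of_rest (p := (z, 0)) rfl hzU
  have g4 : S.W (z, 0) (2 * t) = 2 * S.W (z, 0) t := by
    have := g3 0
    rw [zero_add, S.W0, zero_add] at this
    exact this
  refine ⟨2 * t, by positivity, fun r => by rw [g1]; simp, g2, fun r => by rw [g3, g4], ?_⟩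
  rw [g4]
  simp only
  rw [show b z - 0 ^ 2 + s = b z + s by ring]
  push_cast
  linear_combination 2 * hzt

/-- The rotation function is not locally constant at the regular turning point `x`. -/
def NonConst (s x : ℝ) : Prop :=
  ∀ δ > 0, ∃ y, |y - x| < δ ∧ ∃ T T', S.IsRest x T ∧ S.IsRest y T' ∧
    √(b y + s) * S.W (y, 0) T' ≠ √(b x + s) * S.W (x, 0) T

/-- For a shift outside the exceptional set the rotation function is nowhere locally constant. -/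
theorem nonConst_of_not_bad (hb : ContDiff ℝ 2 b) (hbp : Function.Periodic b 1) {s : ℝ}
    (hs : ∀ x, 0 < b x + s) (hbad : s ∉ S.badSet) {x : ℝ} (hx : Good b x) : S.NonConst s x := by
  intro δ hδ
  have hcap : ∀ x, ∃ y > x, b y ≤ b x := fun x => ⟨x + 1, by linarith, (hbp x).le⟩
  obtain ⟨δ', hδ', hball⟩ := Metric.isOpen_iff.1 (good_open hb hbp) x hx
  set e := min δ δ' with he
  have he0 : 0 < e := lt_min hδ hδ'
  obtain ⟨r₁, hr₁, hr₁'⟩ := exists_rat_btwn (show x - e < x by linarith)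
  obtain ⟨r₂, hr₂, hr₂'⟩ := exists_rat_btwn (show x < x + e by linarith)
  obtain ⟨T, hT, hTa, hTb, hTc⟩ := S.first_return hb (hcap x) hx
  have hrest : S.IsRest x T := ⟨hT, hTa, hTb, hTc⟩
  have hnot : ¬ ∀ y ∈ Ioo (r₁ : ℝ) r₂, Good b y → ∀ T', S.IsRest y T' →
      √(b y + s) * S.W (y, 0) T' = √(b x + s) * S.W (x, 0) T := by
    intro h
    exact hbad ⟨hs, r₁, r₂, ⟨x, ⟨hr₁', hr₂⟩, hx⟩, _, h⟩
  push Not at hnot
  obtain ⟨y, hy, hgy, T', hT', hne⟩ := hnot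
  refine ⟨y, ?_, T, T', hrest, hT', hne⟩
  have h4 : |y - x| < e := by
    rw [abs_lt]
    constructor <;> linarith [hy.1, hy.2]
  exact h4.trans_le (min_le_left _ _)

/-- Near every regular turning point there are closed motions. -/
theorem osc (hb : ContDiff ℝ 2 b) {m : ℝ} (hm : 0 < m)
    (hρ : ∀ x, m ≤ ρ x) {s : ℝ} {L : ℝ} (hL : 0 < L) {x : ℝ} (hs : 0 < b x + s)
    (hx : S.NonConst s x) {δ : ℝ} (hδ : 0 < δ) :
    ∃ z, |z - x| < δ ∧ ∃ q : ℚ, S.Per s (q * L) 0 (z, 0) := by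
  have hcont : Continuous fun z => b z + s := by have := hb.continuous; fun_prop
  obtain ⟨δ', hδ', hball⟩ := Metric.isOpen_iff.1 (isOpen_lt continuous_const hcont) x hs
  obtain ⟨y, hy, T, T', hT, hT', hne⟩ := hx (min δ δ') (lt_min hδ hδ')
  have hnear : ∀ z ∈ uIcc x y, |z - x| < min δ δ' := by
    intro z hz
    exact (abs_sub_left_of_mem_uIcc hz).trans_lt hy
  have hpos : ∀ z ∈ uIcc x y, 0 < b z + s := fun z hz =>
    hball (by rw [mem_ball, Real.dist_eq]; exact (hnear z hz).trans_le (min_le_right _ _))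
  rcases lt_or_gt_of_ne hne with h | h
  · obtain ⟨z, hz, hc⟩ := S.osc_aux hb hm hρ hL (by rwa [uIcc_comm]) hT' hT h
    rw [uIcc_comm] at hz
    exact ⟨z, (hnear z hz).trans_le (min_le_left _ _), hc⟩
  · obtain ⟨z, hz, hc⟩ := S.osc_aux hb hm hρ hL hpos hT hT' h
    exact ⟨z, (hnear z hz).trans_le (min_le_left _ _), hc⟩

/-- Density of closed motions at a regular value, in the oscillating region. -/
theorem osc_dense (hb : ContDiff ℝ 2 b) (hbp : Function.Periodic b 1) {m : ℝ} (hm : 0 < m)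
    (hρ : ∀ x, m ≤ ρ x) {s : ℝ} {L : ℝ}
    (hL : 0 < L) {x u : ℝ} (hu : 0 < u) (hs : 0 < b x - u ^ 2 + s)
    (hnc : ∀ x₁, Good b x₁ → b x₁ = b x - u ^ 2 → x₁ < x → (∀ y, x₁ < y → y ≤ x → b x₁ < b y) →
      S.NonConst s x₁)
    (hreg : ∀ z, b z = b x - u ^ 2 → deriv b z ≠ 0)
    (hy : ∃ y, b y ≤ b x - u ^ 2) {δ : ℝ} (hδ : 0 < δ) :
    ∃ p : ℝ × ℝ, dist p (x, u) < δ ∧ ∃ q : ℚ, S.Per s (q * L) 0 p := by
  have hdb : Differentiable ℝ b := hb.differentiable (by norm_num)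
  have hd : Continuous (deriv b) := hb.continuous_deriv (by norm_num)
  have hcap : ∀ x, ∃ y > x, b y ≤ b x := fun x => ⟨x + 1, by linarith, (hbp x).le⟩
  set v := b x - u ^ 2 with hv
  have hvx : v < b x := by rw [hv]; nlinarith
  -- the last point before `x` with `b ≤ v`
  set Z : Set ℝ := {y | y ≤ x ∧ b y ≤ v} with hZ
  have hZc : IsClosed Z := (isClosed_Iic (a := x)).inter
    (isClosed_le hb.continuous continuous_const)
  have hZb : BddAbove Z := ⟨x, fun y hy => hy.1⟩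
  have hZn : Z.Nonempty := by
    obtain ⟨y, hy⟩ := hy
    set n := ⌈y - x⌉ with hn
    refine ⟨y - n, by linarith [Int.le_ceil (y - x)], ?_⟩
    have := hbp.sub_int_mul_eq (x := y) n
    rw [mul_one] at this
    rw [this]; exact hy
  set x₁ := sSup Z with hx₁
  have hx₁Z : x₁ ∈ Z := hZc.csSup_mem hZn hZb
  have hafter : ∀ y, x₁ < y → y ≤ x → v < b y := by
    intro y hy1 hy2
    by_contra h
    rw [not_lt] at h
    have := le_csSup hZb (show y ∈ Z from ⟨hy2, h⟩)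
    linarith
  have hx₁x : x₁ < x := lt_of_le_of_ne hx₁Z.1 (by
    intro h; have := hx₁Z.2; rw [h] at this; linarith)
  have hbx₁ : b x₁ = v := by
    refine le_antisymm hx₁Z.2 ?_
    have hlim : Tendsto b (𝓝[>] x₁) (𝓝 (b x₁)) :=
      hb.continuous.continuousAt.tendsto.mono_left nhdsWithin_le_nhds
    refine ge_of_tendsto hlim ?_
    have : ∀ᶠ y in 𝓝[>] x₁, y ∈ Ioo x₁ x := Ioo_mem_nhdsGT hx₁x
    filter_upwards [this] with y hy using (hafter y hy.1 hy.2.le).le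
  have hne : deriv b x₁ ≠ 0 := hreg x₁ hbx₁
  have hpos : 0 < deriv b x₁ := by
    by_contra hneg
    have hneg' : deriv b x₁ < 0 := lt_of_le_of_ne (not_lt.1 hneg) hne
    obtain ⟨δ', hδ', -, haft⟩ := mono_near (f := fun t => - b t) (f' := fun t => - deriv b t)
      (fun t => ((hdb t).hasDerivAt).neg) hd.neg.continuousAt (T := x₁) (by linarith)
    set y := min (x₁ + δ' / 2) x with hy'
    have h1 : x₁ < y := lt_min (by linarith) hx₁x
    have h2 : y < x₁ + δ' := (min_le_left _ _).trans_lt (by linarith)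
    have h3 := haft y ⟨h1, h2⟩
    have h4 := hafter y h1 (min_le_right _ _)
    rw [hbx₁] at h3
    linarith
  have hgood : Good b x₁ := ⟨hpos, fun z hz => hreg z (by rw [hz, hbx₁])⟩
  obtain ⟨T, hT, hTa, hTb, -⟩ := S.first_return hb (hcap x₁) hgood
  have hen : ∀ t, S.U (x₁, 0) t ^ 2 = b (S.X (x₁, 0) t) - v := by
    intro t
    have := S.energy hdb (x₁, 0) t
    simp only at this
    rw [← hbx₁]
    linarith
  have hmono : StrictMonoOn (S.X (x₁, 0)) (Icc 0 T) := by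
    refine strictMonoOn_of_deriv_pos (convex_Icc 0 T) (S.contX _).continuousOn fun s hs => ?_
    rw [interior_Icc] at hs
    rw [(S.dX _ s).deriv]
    exact hTa s hs
  have hXT : x₁ < S.X (x₁, 0) T := by
    have := hmono ⟨le_rfl, hT.le⟩ ⟨hT.le, le_rfl⟩ hT
    rwa [S.X0] at this
  have hXTx : x < S.X (x₁, 0) T := by
    by_contra h
    rw [not_lt] at h
    have h1 := hafter _ hXT h
    have h2 := hen T
    rw [hTb] at h2
    linarith
  obtain ⟨τ, hτ, hXτ⟩ := intermediate_value_Icc hT.le (S.contX (x₁, 0)).continuousOn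
    (show x ∈ Icc (S.X (x₁, 0) 0) (S.X (x₁, 0) T) from ⟨by rw [S.X0]; exact hx₁x.le, hXTx.le⟩)
  have hτ0 : 0 < τ := by
    rcases hτ.1.lt_or_eq with h | h
    · exact h
    · rw [← h, S.X0] at hXτ; simp only at hXτ; linarith
  have hτT : τ < T := by
    rcases hτ.2.lt_or_eq with h | h
    · exact h
    · rw [h] at hXτ; linarith
  have hUτ : S.U (x₁, 0) τ = u := by
    have h1 := hen τ
    rw [hXτ, hv] at h1
    have h2 := hTa τ ⟨hτ0, hτT⟩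
    have h3 : S.U (x₁, 0) τ ^ 2 = u ^ 2 := by linarith
    exact (pow_left_inj₀ h2.le hu.le two_ne_zero).1 h3
  -- continuity of the flow at `(x₁, 0)`, time `τ`
  have hc : Continuous fun z : ℝ => (S.X (z, 0) τ, S.U (z, 0) τ) := by
    have h1 : Continuous fun z : ℝ => (((z, 0) : ℝ × ℝ), τ) := by fun_prop
    exact (S.cX.comp h1).prodMk (S.cU.comp h1)
  have hc' := Metric.continuousAt_iff.1 (hc.continuousAt (x := x₁)) δ hδ
  obtain ⟨δ'', hδ'', hcc⟩ := hc'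
  obtain ⟨z, hz, q, hclo⟩ := S.osc hb hm hρ hL (by rw [hbx₁]; exact hs)
    (hnc x₁ hgood hbx₁ hx₁x fun y h1 h2 => by rw [hbx₁]; exact hafter y h1 h2) hδ''
  refine ⟨(S.X (z, 0) τ, S.U (z, 0) τ), ?_, q, Per.trans S hdb hclo τ⟩
  have := hcc (x := z) (by rwa [Real.dist_eq])
  rw [hXτ, hUτ] at this
  exact this

end Sys

end Pool.Agent.CGD
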