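import Mathlib
import Pool.Agent.CGD.Osc

/-!
# Rotating motions and density of closed motions (helper82)
-/

noncomputable section

open Set Filter Topology Metric MeasureTheory
open scoped NNReal ContDiff

namespace Pool.Agent.CGD

variable {b ρ : ℝ → ℝ}

namespace Sys

variable (S : Sys b ρ)

/-- In the rotating region the velocity stays positive. -/
theorem rot_pos (hb : ContDiff ℝ 2 b) {x v : ℝ} (hv : ∀ y, v < b y) (t : ℝ) :
    0 < S.U (x, √(b x - v)) t ∧
      S.U (x, √(b x - v)) t ^ 2 = b (S.X (x, √(b x - v)) t) - v := by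
  have hdb : Differentiable ℝ b := hb.differentiable (by norm_num)
  have hen : ∀ t, S.U (x, √(b x - v)) t ^ 2 = b (S.X (x, √(b x - v)) t) - v := by
    intro t
    have := S.energy hdb (x, √(b x - v)) t
    simp only at this
    rw [Real.sq_sqrt (by linarith [hv x])] at this
    linarith
  have hne : ∀ t, S.U (x, √(b x - v)) t ≠ 0 := by
    intro t h0
    have h1 := hen t
    rw [h0] at h1
    have := hv (S.X (x, √(b x - v)) t)
    linarith
  have h0 : 0 < S.U (x, √(b x - v)) 0 := by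
    rw [S.U0]
    exact Real.sqrt_pos.2 (by linarith [hv x])
  refine ⟨?_, hen t⟩
  by_contra hneg
  rw [not_lt] at hneg
  have hmem : (0:ℝ) ∈ uIcc (S.U (x, √(b x - v)) t) (S.U (x, √(b x - v)) 0) :=
    mem_uIcc_of_le hneg h0.le
  obtain ⟨t', -, ht'⟩ := intermediate_value_uIcc (S.contU (x, √(b x - v))).continuousOn hmem
  exact hne t' ht'

/-- The clock reading of one turn. -/
def turn (b ρ : ℝ → ℝ) (x v : ℝ) : ℝ := ∫ y in x..(x + 1), ρ y / √(b y - v)

theorem turn_mono (hb : Continuous b) (hρc : Continuous ρ) (hρ : ∀ x, 0 < ρ x) {x v₁ v₂ : ℝ}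
    (h12 : v₁ ≤ v₂) (hv : ∀ y, v₂ < b y) : turn b ρ x v₁ ≤ turn b ρ x v₂ := by
  have hc : ∀ v, (∀ y, v < b y) → Continuous fun y => ρ y / √(b y - v) := by
    intro v hv
    refine hρc.div (by fun_prop) fun y => (Real.sqrt_pos.2 (by linarith [hv y])).ne'
  refine intervalIntegral.integral_mono_on (by linarith)
    ((hc v₁ fun y => h12.trans_lt (hv y)).intervalIntegrable _ _)
    ((hc v₂ hv).intervalIntegrable _ _) fun y _ => ?_
  have h1 : 0 < √(b y - v₂) := Real.sqrt_pos.2 (by linarith [hv y])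
  exact div_le_div_of_nonneg_left (hρ y).le h1 (Real.sqrt_le_sqrt (by linarith))

theorem turn_pos (hb : Continuous b) (hρc : Continuous ρ) (hρ : ∀ x, 0 < ρ x) {x v : ℝ}
    (hv : ∀ y, v < b y) : 0 < turn b ρ x v := by
  have hc : Continuous fun y => ρ y / √(b y - v) :=
    hρc.div (by fun_prop) fun y => (Real.sqrt_pos.2 (by linarith [hv y])).ne'
  refine intervalIntegral.intervalIntegral_pos_of_pos (hc.intervalIntegrable _ _)
    (fun y => div_pos (hρ y) (Real.sqrt_pos.2 (by linarith [hv y]))) (by linarith)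

/-- One turn. -/
theorem exists_turn (hb : ContDiff ℝ 2 b) (hbp : Function.Periodic b 1) (hρc : Continuous ρ)
    {x v : ℝ} (hv : ∀ y, v < b y) :
    ∃ P > 0, S.X (x, √(b x - v)) P = x + 1 ∧ S.W (x, √(b x - v)) P = turn b ρ x v := by
  set p : ℝ × ℝ := (x, √(b x - v)) with hp
  obtain ⟨μ, hμ, hμb⟩ := per_pos (f := fun y => b y - v) (by have := hb.continuous; fun_prop)
    (fun y => by simp only [hbp y]) (fun y => by linarith [hv y])
  have hU : ∀ t, √μ ≤ S.U p t := by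
    intro t
    obtain ⟨h1, h2⟩ := S.rot_pos hb (x := x) hv t
    rw [← Real.sqrt_sq h1.le]
    exact Real.sqrt_le_sqrt (by rw [h2]; exact hμb _)
  have hsμ : 0 < √μ := Real.sqrt_pos.2 hμ
  have hmono : StrictMono (S.X p) := by
    refine strictMono_of_deriv_pos fun t => ?_
    rw [(S.dX p t).deriv]
    exact hsμ.trans_le (hU t)
  have hlow : ∀ t, 0 ≤ t → x + √μ * t ≤ S.X p t := by
    intro t ht
    have hd : ∀ s, HasDerivAt (fun s => S.X p s - √μ * s) (S.U p s - √μ * 1) s := fun s =>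
      (S.dX p s).fun_sub ((hasDerivAt_id s).const_mul _)
    have hm : Monotone (fun s => S.X p s - √μ * s) := by
      refine monotone_of_deriv_nonneg (fun s => (hd s).differentiableAt) fun s => ?_
      rw [(hd s).deriv]
      have := hU s
      linarith
    have := hm ht
    simp only [S.X0, mul_zero, sub_zero] at this
    simp only [hp] at this ⊢
    linarith
  have hX0 : S.X p 0 = x := S.X0 p
  have h1 : x + 1 ≤ S.X p (1 / √μ) := by
    have := hlow (1 / √μ) (by positivity)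
    rwa [mul_one_div, div_self hsμ.ne'] at this
  obtain ⟨P, hP, hXP⟩ := intermediate_value_Icc (show (0:ℝ) ≤ 1 / √μ by positivity)
    (S.contX p).continuousOn (show x + 1 ∈ Icc (S.X p 0) (S.X p (1 / √μ)) from
      ⟨by rw [hX0]; linarith, h1⟩)
  have hPpos : 0 < P := by
    rcases hP.1.lt_or_eq with h | h
    · exact h
    · rw [← h, hX0] at hXP; linarith
  refine ⟨P, hPpos, hXP, ?_⟩
  have hc : Continuous fun y => ρ y / √(b y - v) :=
    hρc.div (by have := hb.continuous; fun_prop)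
      fun y => (Real.sqrt_pos.2 (by linarith [hv y])).ne'
  have e1 : ∫ t in (0:ℝ)..P, (fun y => ρ y / √(b y - v)) (S.X p t) * S.U p t =
      ∫ y in S.X p 0..S.X p P, ρ y / √(b y - v) :=
    intervalIntegral.integral_comp_mul_deriv (fun t _ => S.dX p t) (S.contU p).continuousOn hc
  have e2 : ∀ t, (fun y => ρ y / √(b y - v)) (S.X p t) * S.U p t = ρ (S.X p t) := by
    intro t
    obtain ⟨g1, g2⟩ := S.rot_pos hb (x := x) hv t
    have g3 : √(b (S.X p t) - v) = S.U p t := by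
      rw [← g2]
      exact Real.sqrt_sq g1.le
    simp only
    rw [g3, div_mul_cancel₀]
    exact g1.ne'
  simp only [e2] at e1
  have e3 : ∫ t in (0:ℝ)..P, ρ (S.X p t) = S.W p P - S.W p 0 :=
    intervalIntegral.integral_eq_sub_of_hasDerivAt (fun t _ => S.dW p t)
      ((hρc.comp (S.contX p)).intervalIntegrable _ _)
  rw [e3, S.W0, sub_zero, hX0, hXP] at e1
  exact e1

/-- Periodic motions in the rotating region, with prescribed rotation. -/
theorem rot_key (hb : ContDiff ℝ 2 b) (hbp : Function.Periodic b 1) (hρc : Continuous ρ)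
    (hρp : Function.Periodic ρ 1) {m : ℝ} (hm : 0 < m) (hρ : ∀ x, m ≤ ρ x) {s : ℝ}
    {x u : ℝ} (hu : 0 < u) (hv : ∀ y, b x - u ^ 2 < b y)
    (hc : 0 < b x - u ^ 2 + s) {δ : ℝ} (hδ : 0 < δ) :
    ∃ f₁ f₂ : ℝ, 0 < f₁ ∧ f₁ < f₂ ∧ ∀ K ∈ Ioo f₁ f₂, ∃ p : ℝ × ℝ, dist p (x, u) < δ ∧
      S.Per s K 1 p := by
  have hρ0 : ∀ x, 0 < ρ x := fun x => hm.trans_le (hρ x)
  obtain ⟨μ, hμ, hμb⟩ := per_pos (f := fun y => b y - (b x - u ^ 2))
    (by have := hb.continuous; fun_prop)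
    (fun y => by simp only [hbp y]) (fun y => by linarith [hv y])
  set v₀ := b x - u ^ 2 with hv₀
  have hcont : ContinuousAt (fun v => ((x, √(b x - v)) : ℝ × ℝ)) v₀ := by fun_prop
  obtain ⟨δ', hδ', hball⟩ := Metric.continuousAt_iff.1 hcont δ hδ
  set e := min δ' μ / 2 with he
  have he0 : 0 < e := by positivity
  have heδ : e < δ' := by
    have : min δ' μ ≤ δ' := min_le_left _ _
    have h0 : 0 < min δ' μ := lt_min hδ' hμ
    linarith
  have heμ : e < μ := by
    have : min δ' μ ≤ μ := min_le_right _ _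
    have h0 : 0 < min δ' μ := lt_min hδ' hμ
    linarith
  set v₁ := v₀ with hv₁
  set v₂ := v₀ + e with hv₂
  have h12 : v₁ < v₂ := by linarith
  have hw : ∀ v ∈ uIcc v₁ v₂, v₁ ≤ v ∧ v ≤ v₂ := by
    intro v hv
    rwa [uIcc_of_le h12.le] at hv
  have hvb : ∀ v, v ≤ v₂ → ∀ y, v < b y := by
    intro v hv y
    have := hμb y
    linarith
  have hcc : ∀ v, v₁ ≤ v → 0 < √(v + s) := fun v hv => Real.sqrt_pos.2 (by linarith)
  have hlt : √(v₁ + s) * turn b ρ x v₁ < √(v₂ + s) * turn b ρ x v₂ := by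
    have h1 : √(v₁ + s) < √(v₂ + s) := Real.sqrt_lt_sqrt (by linarith) (by linarith)
    have h2 : turn b ρ x v₁ ≤ turn b ρ x v₂ :=
      turn_mono hb.continuous hρc hρ0 h12.le (hvb v₂ le_rfl)
    have h3 : 0 < turn b ρ x v₁ := turn_pos hb.continuous hρc hρ0 (hvb v₁ h12.le)
    exact mul_lt_mul h1 h2 h3 (Real.sqrt_nonneg _)
  refine ⟨_, _, mul_pos (hcc v₁ le_rfl) (turn_pos hb.continuous hρc hρ0 (hvb v₁ h12.le)), hlt,
    ?_⟩
  rintro K ⟨hK1, hK2⟩
  have hKpos : 0 < K :=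
    (mul_pos (hcc v₁ le_rfl) (turn_pos hb.continuous hρc hρ0 (hvb v₁ h12.le))).trans hK1
  obtain ⟨P₁, hP₁, hX₁, hW₁⟩ := S.exists_turn hb hbp hρc (x := x) (hvb v₁ h12.le)
  obtain ⟨P₂, hP₂, hX₂, hW₂⟩ := S.exists_turn hb hbp hρc (x := x) (hvb v₂ le_rfl)
  rw [← hW₁] at hK1
  rw [← hW₂] at hK2
  obtain ⟨t₁, ht₁⟩ := S.W_surj hm hρ (x, √(b x - v₁)) (K / √(v₁ + s))
  obtain ⟨t₂, ht₂⟩ := S.W_surj hm hρ (x, √(b x - v₂)) (K / √(v₂ + s))
  have hn1 := (hcc v₁ le_rfl).ne'
  have hn2 := (hcc v₂ h12.le).ne'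
  have ht₁' : √(v₁ + s) * S.W (x, √(b x - v₁)) t₁ = K := by rw [ht₁]; field_simp
  have ht₂' : √(v₂ + s) * S.W (x, √(b x - v₂)) t₂ = K := by rw [ht₂]; field_simp
  have c1 : P₁ < t₁ := by
    rw [← ht₁'] at hK1
    exact (S.W_mono hρ0 _).lt_iff_lt.1 (lt_of_mul_lt_mul_left hK1 (hcc v₁ le_rfl).le)
  have c2 : t₂ < P₂ := by
    rw [← ht₂'] at hK2
    exact (S.W_mono hρ0 _).lt_iff_lt.1 (lt_of_mul_lt_mul_left hK2 (hcc v₂ h12.le).le)
  have hXm : ∀ v, v ≤ v₂ → StrictMono (S.X (x, √(b x - v))) := by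
    intro v hv
    refine strictMono_of_deriv_pos fun t => ?_
    rw [(S.dX _ t).deriv]
    exact (S.rot_pos hb (hvb v hv) t).1
  have d1 : x + 1 - S.X (x, √(b x - v₁)) t₁ ≤ 0 := by
    have := hXm v₁ h12.le c1
    rw [hX₁] at this
    linarith
  have d2 : 0 ≤ x + 1 - S.X (x, √(b x - v₂)) t₂ := by
    have := hXm v₂ le_rfl c2
    rw [hX₂] at this
    linarith
  obtain ⟨v, hv, t, hvt, hvX⟩ := S.clock_ivt hm hρ (p := fun v => (x, √(b x - v)))
    (c := fun v => √(v + s)) (z₁ := v₁) (z₂ := v₂) (by fun_prop) (by fun_prop)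
    (fun v hv => hcc v (hw v hv).1) (K := K)
    (H := fun q => x + 1 - S.X q.1 q.2) (continuous_const.sub S.cX) ht₁' ht₂' d1 d2
  simp only at hvt hvX
  have hvle := (hw v hv).2
  have hvge := (hw v hv).1
  set p : ℝ × ℝ := (x, √(b x - v)) with hp
  have hXt : S.X p t = x + 1 := by linarith
  have hUt : S.U p t = √(b x - v) := by
    obtain ⟨g1, g2⟩ := S.rot_pos hb (x := x) (hvb v hvle) t
    rw [← Real.sqrt_sq g1.le]
    rw [show S.U (x, √(b x - v)) t ^ 2 = b x - v by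
      rw [g2, show S.X (x, √(b x - v)) t = x + 1 from hXt, hbp x]]
  have htpos : 0 < t := by
    refine S.pos_of_W_pos hρ0 (p := p) ?_
    have : 0 < √(v + s) * S.W p t := by rw [hvt]; exact hKpos
    exact (mul_pos_iff_of_pos_left (hcc v hvge)).1 this
  have hXp : ∀ r, S.X p (r + t) = S.X p r + 1 := by
    intro r
    have h1 := (S.trans p t r).1
    rw [hXt, hUt, (S.shift hbp _ _ _).1] at h1
    rw [add_comm r t]
    exact h1.symm
  have hUp : ∀ r, S.U p (r + t) = S.U p r := by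
    intro r
    have h1 := (S.trans p t r).2
    rw [hXt, hUt, (S.shift hbp _ _ _).2] at h1
    rw [add_comm r t]
    exact h1.symm
  have hWp : ∀ r, S.W p (r + t) = S.W p r + S.W p t := by
    intro r
    have h1 := S.transW p t r
    rw [hXt, hUt, S.shiftW hbp hρp] at h1
    rw [add_comm r t]
    linarith
  refine ⟨p, ?_, t, htpos, fun r => by rw [hXp]; simp, hUp, hWp, ?_⟩
  · have hdist : dist v v₀ < δ' := by
      rw [Real.dist_eq, abs_of_nonneg (by linarith)]
      linarith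
    have := hball hdist
    have e2 : √(b x - v₀) = u := by
      have e4 : b x - v₀ = u ^ 2 := by linarith
      rw [e4]
      exact Real.sqrt_sq hu.le
    rw [e2] at this
    exact this
  · have e3 : b p.1 - p.2 ^ 2 + s = v + s := by
      simp only [hp]
      rw [Real.sq_sqrt (by linarith [hvb v hvle x])]
      ring
    rw [e3, hvt]

/-- The three possibilities near the initial values `(x, u)`: oscillating motions that close up
for every length `L`, or motions rotating in the positive or in the negative direction. -/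
def Tri (s : ℝ) (q : ℝ × ℝ) (δ : ℝ) : Prop :=
  (∀ L > 0, ∃ p : ℝ × ℝ, dist p q < δ ∧ ∃ r : ℚ, S.Per s (r * L) 0 p) ∨
  ∃ j : ℤ, (j = 1 ∨ j = -1) ∧ ∃ f₁ f₂ : ℝ, 0 < f₁ ∧ f₁ < f₂ ∧ ∀ K ∈ Ioo f₁ f₂,
    ∃ p : ℝ × ℝ, dist p q < δ ∧ S.Per s K j p

theorem Tri.mono {s δ δ' : ℝ} {q q' : ℝ × ℝ} (h : S.Tri s q δ) (hd : dist q q' + δ ≤ δ') :
    S.Tri s q' δ' := by
  have key : ∀ p : ℝ × ℝ, dist p q < δ → dist p q' < δ' := fun p hp =>
    (dist_triangle p q q').trans_lt (by linarith)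
  rcases h with h | ⟨j, hj, f₁, f₂, h0, h12, h⟩
  · refine Or.inl fun L hL => ?_
    obtain ⟨p, hp, hr⟩ := h L hL
    exact ⟨p, key p hp, hr⟩
  · refine Or.inr ⟨j, hj, f₁, f₂, h0, h12, fun K hK => ?_⟩
    obtain ⟨p, hp, hr⟩ := h K hK
    exact ⟨p, key p hp, hr⟩

theorem Tri.rev {s δ x u : ℝ} (h : S.Tri s (x, u) δ) : S.Tri s (x, -u) δ := by
  have key : ∀ p : ℝ × ℝ, dist p (x, u) < δ → dist ((p.1, -p.2) : ℝ × ℝ) (x, -u) < δ := by
    intro p hp
    rw [Prod.dist_eq] at hp ⊢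
    simp only at hp ⊢
    rw [dist_neg_neg]
    exact hp
  rcases h with h | ⟨j, hj, f₁, f₂, h0, h12, h⟩
  · refine Or.inl fun L hL => ?_
    obtain ⟨p, hp, r, hr⟩ := h L hL
    refine ⟨(p.1, -p.2), key p hp, r, ?_⟩
    have := Per.rev S (x := p.1) (u := p.2) hr
    rwa [neg_zero] at this
  · refine Or.inr ⟨-j, ?_, f₁, f₂, h0, h12, fun K hK => ?_⟩
    · rcases hj with h | h
      · exact Or.inr (by rw [h])
      · exact Or.inl (by rw [h, neg_neg])
    obtain ⟨p, hp, hr⟩ := h K hK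
    exact ⟨(p.1, -p.2), key p hp, Per.rev S (x := p.1) (u := p.2) hr⟩

/-- **Closed motions near all initial values.** -/
theorem tri (hb : ContDiff ℝ 2 b) (hbp : Function.Periodic b 1) (hρc : Continuous ρ)
    (hρp : Function.Periodic ρ 1) {m : ℝ} (hm : 0 < m) (hρ : ∀ x, m ≤ ρ x) {s : ℝ}
    (hnc : ∀ x, Good b x → 0 < b x + s → S.NonConst s x) {x u : ℝ}
    (hc : 0 < b x - u ^ 2 + s) {δ : ℝ} (hδ : 0 < δ) : S.Tri s (x, u) δ := by
  -- positive velocities
  have main : ∀ u : ℝ, 0 < u → 0 < b x - u ^ 2 + s → ∀ δ > 0, S.Tri s (x, u) δ := by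
    intro u hu hc δ hδ
    by_cases hv : ∀ y, b x - u ^ 2 < b y
    · exact Or.inr ⟨1, Or.inl rfl, S.rot_key hb hbp hρc hρp hm hρ hu hv hc hδ⟩
    push Not at hv
    obtain ⟨y, hy⟩ := hv
    have hcont : ContinuousAt (fun v => √(b x - v)) (b x - u ^ 2) := by fun_prop
    have hsq : √(b x - (b x - u ^ 2)) = u := by
      rw [show b x - (b x - u ^ 2) = u ^ 2 by ring]
      exact Real.sqrt_sq hu.le
    obtain ⟨δ', hδ', hball⟩ := Metric.continuousAt_iff.1 hcont (δ / 2) (by positivity)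
    rw [hsq] at hball
    have hlt : b x - u ^ 2 < min (b x - u ^ 2 + δ') (b x) := by
      refine lt_min (by linarith) ?_
      have : 0 < u ^ 2 := by positivity
      linarith
    obtain ⟨v, hv, hreg⟩ := exists_regular hb hlt
    have hv1 : v < b x - u ^ 2 + δ' := hv.2.trans_le (min_le_left _ _)
    have hv2 : v < b x := hv.2.trans_le (min_le_right _ _)
    set w := √(b x - v) with hw
    have hw0 : 0 < w := Real.sqrt_pos.2 (by linarith)
    have hwv : b x - w ^ 2 = v := by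
      rw [hw, Real.sq_sqrt (by linarith)]; ring
    have hwu : dist w u < δ / 2 := hball (by
      rw [Real.dist_eq, abs_of_pos (by linarith [hv.1])]
      linarith)
    refine Or.inl fun L hL => ?_
    obtain ⟨p, hp, hclo⟩ := S.osc_dense hb hbp hm hρ (s := s) hL hw0
      (by rw [hwv]; linarith [hv.1])
      (fun x₁ hg hbx₁ _ _ => hnc x₁ hg (by rw [hbx₁, hwv]; linarith [hv.1]))
      (by rw [hwv]; exact hreg) ⟨y, by rw [hwv]; exact hy.trans hv.1.le⟩
      (show (0:ℝ) < δ / 2 by positivity)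
    refine ⟨p, ?_, hclo⟩
    have h1 : dist ((x, w) : ℝ × ℝ) (x, u) < δ / 2 := by
      rw [Prod.dist_eq]
      simpa using hwu
    calc dist p (x, u) ≤ dist p (x, w) + dist ((x, w) : ℝ × ℝ) (x, u) := dist_triangle _ _ _
      _ < δ / 2 + δ / 2 := add_lt_add hp h1
      _ = δ := by ring
  -- nonnegative velocities
  have main' : ∀ u : ℝ, 0 ≤ u → 0 < b x - u ^ 2 + s → ∀ δ > 0, S.Tri s (x, u) δ := by
    intro u hu hc δ hδ
    rcases hu.lt_or_eq with h | h
    · exact main u h hc δ hδ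
    subst h
    have hlim : Tendsto (fun w : ℝ => b x - w ^ 2 + s) (𝓝 0) (𝓝 (b x - 0 ^ 2 + s)) := by
      have : Continuous fun w : ℝ => b x - w ^ 2 + s := by fun_prop
      exact this.tendsto 0
    have hev := (hlim.eventually_const_lt hc).filter_mono (nhdsWithin_le_nhds (s := Ioi 0))
    have hev2 : ∀ᶠ w in 𝓝[>] (0:ℝ), w ∈ Ioo 0 (δ / 2) := Ioo_mem_nhdsGT (by positivity)
    obtain ⟨w, hw1, hw2⟩ := (hev.and hev2).exists
    refine Tri.mono S (main w hw2.1 hw1 (δ / 2) (by positivity)) ?_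
    rw [Prod.dist_eq]
    simp only [dist_self, Real.dist_eq, sub_zero]
    rw [abs_of_pos hw2.1, max_eq_right hw2.1.le]
    linarith [hw2.2]
  rcases le_total 0 u with hu | hu
  · exact main' u hu hc δ hδ
  · have h := Tri.rev S (main' (-u) (by linarith) (by rw [neg_sq]; exact hc) δ hδ)
    rwa [neg_neg] at h

end Sys

end Pool.Agent.CGD
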