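import Mathlib
import Pool.Agent.CGD.Geo
import Pool.Agent.CGD.Rot

/-!
# Warped products over the circle: closed geodesics (helper82)
-/

noncomputable section

open Set Filter Topology Metric MeasureTheory
open scoped NNReal ContDiff

namespace Pool.Agent.CGD

variable {F : Type*} [NormedAddCommGroup F] [NormedSpace ℝ F]

/-- The deck group of the product of the circle `ℝ / ℤ` with the quotient of `F` by `Γ`. -/
def prodGroup (Γ : Subgroup (Equiv.Perm F)) : Subgroup (Equiv.Perm (ℝ × F)) where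
  carrier := {σ | ∃ j : ℤ, ∃ A ∈ Γ, ∀ p, σ p = (p.1 + j, A p.2)}
  mul_mem' := by
    rintro σ τ ⟨j, A, hA, h⟩ ⟨j', A', hA', h'⟩
    refine ⟨j' + j, A * A', Γ.mul_mem hA hA', fun p => ?_⟩
    rw [Equiv.Perm.mul_apply, h', h]
    simp only [Equiv.Perm.mul_apply, Prod.mk.injEq, and_true]
    push_cast
    ring
  one_mem' := ⟨0, 1, Γ.one_mem, fun p => by simp⟩
  inv_mem' := by
    rintro σ ⟨j, A, hA, h⟩
    refine ⟨-j, A⁻¹, Γ.inv_mem hA, fun p => ?_⟩
    rw [Equiv.Perm.inv_def, Equiv.symm_apply_eq, h]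
    simp

/-- The warped product metric `a(x) dx² + b(x) h`. -/
def warp (a b : ℝ → ℝ) (h : F → F →L[ℝ] F →L[ℝ] ℝ) (p : ℝ × F) :
    (ℝ × F) →L[ℝ] (ℝ × F) →L[ℝ] ℝ :=
  a p.1 • (ContinuousLinearMap.mul ℝ ℝ).bilinearComp (ContinuousLinearMap.fst ℝ ℝ F)
    (ContinuousLinearMap.fst ℝ ℝ F) +
  b p.1 • (h p.2).bilinearComp (ContinuousLinearMap.snd ℝ ℝ F) (ContinuousLinearMap.snd ℝ ℝ F)

@[simp] theorem warp_apply (a b : ℝ → ℝ) (h : F → F →L[ℝ] F →L[ℝ] ℝ) (p v w : ℝ × F) :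
    warp a b h p v w = a p.1 * (v.1 * w.1) + b p.1 * h p.2 v.2 w.2 := by
  simp [warp]

theorem form_hasFDerivAt {h : F → F →L[ℝ] F →L[ℝ] ℝ} {y : F} (hh : DifferentiableAt ℝ h y)
    (v w : F) : DifferentiableAt ℝ (fun q => h q v w) y :=
  (hh.clm_apply (differentiableAt_const v)).clm_apply (differentiableAt_const w)

theorem warp_fderiv {α β : ℝ → ℝ} {h : F → F →L[ℝ] F →L[ℝ] ℝ} {x : ℝ} {y : F}
    (hα : DifferentiableAt ℝ α x) (hβ : DifferentiableAt ℝ β x) (hh : DifferentiableAt ℝ h y)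
    (z e : ℝ × F) :
    fderiv ℝ (fun p => warp α β h p z z) (x, y) e =
      deriv α x * e.1 * (z.1 * z.1) + (deriv β x * e.1 * h y z.2 z.2 +
        β x * fderiv ℝ (fun q => h q z.2 z.2) y e.2) := by
  simp only [warp_apply]
  have h1 : HasFDerivAt (fun p : ℝ × F => p.1) (ContinuousLinearMap.fst ℝ ℝ F) (x, y) :=
    hasFDerivAt_fst
  have h2 : HasFDerivAt (fun p : ℝ × F => p.2) (ContinuousLinearMap.snd ℝ ℝ F) (x, y) :=
    hasFDerivAt_snd
  have hα' : HasFDerivAt (fun p : ℝ × F => α p.1) _ (x, y) :=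
    (hα.hasFDerivAt (x := ((x, y) : ℝ × F).1)).comp (x, y) h1
  have hβ' : HasFDerivAt (fun p : ℝ × F => β p.1) _ (x, y) :=
    (hβ.hasFDerivAt (x := ((x, y) : ℝ × F).1)).comp (x, y) h1
  have hh' : HasFDerivAt (fun p : ℝ × F => h p.2 z.2 z.2) _ (x, y) :=
    ((form_hasFDerivAt hh z.2 z.2).hasFDerivAt (x := ((x, y) : ℝ × F).2)).comp (x, y) h2
  have hsum := (hα'.mul_const (z.1 * z.1)).fun_add (hβ'.fun_mul hh')
  rw [hsum.fderiv]
  simp [smul_eq_mul]
  ring

/-- Iterates of a period. -/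
theorem iter_period {G : Type*} [AddGroup G] {f : ℝ → G} {P : ℝ} {c : G}
    (hf : ∀ t, f (t + P) = f t + c) (n : ℕ) (t : ℝ) : f (t + n * P) = f t + n • c := by
  induction n with
  | zero => simp
  | succ n ih =>
    rw [show t + ((n + 1 : ℕ) : ℝ) * P = (t + n * P) + P by push_cast; ring, hf, ih, add_assoc,
      succ_nsmul]

omit [NormedAddCommGroup F] [NormedSpace ℝ F] in
/-- Iterates of a deck transformation. -/
theorem iter_deck {σ : ℝ → F} {L : ℝ} {A : Equiv.Perm F} (hσ : ∀ t, σ (t + L) = A (σ t)) (n : ℕ)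
    (t : ℝ) : σ (t + n * L) = (A ^ n) (σ t) := by
  induction n with
  | zero => simp
  | succ n ih =>
    rw [show t + ((n + 1 : ℕ) : ℝ) * L = (t + n * L) + L by push_cast; ring, hσ, ih, pow_succ',
      Equiv.Perm.mul_apply]

/-- A periodic curve `(X, σ(s₀ + c W))` gives a closed geodesic of the warped product. -/
theorem warp_core {b ρ : ℝ → ℝ} (S : Sys b ρ) (hb : Differentiable ℝ b)
    (hρ : Differentiable ℝ ρ) (hρ0 : ∀ x, 0 < ρ x) {s : ℝ} (hs : ∀ x, 0 < b x + s) {N : Set F}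
    {h : F → F →L[ℝ] F →L[ℝ] ℝ} (hh : Differentiable ℝ h) {Γ : Subgroup (Equiv.Perm (ℝ × F))}
    {σ : ℝ → F} (hσ : IsGeodesic N h σ) (hσ1 : ∀ t, h (σ t) (deriv σ t) (deriv σ t) = 1)
    {p : ℝ × ℝ} (hc : 0 < b p.1 - p.2 ^ 2 + s) (s₀ : ℝ) {P : ℝ} (hP : 0 < P)
    {G : Equiv.Perm (ℝ × F)} (hG : G ∈ Γ)
    (hYG : ∀ t, ((S.X p (t + P), σ (s₀ + √(b p.1 - p.2 ^ 2 + s) * S.W p (t + P))) : ℝ × F) =
      G (S.X p t, σ (s₀ + √(b p.1 - p.2 ^ 2 + s) * S.W p t)))
    (hbP : ∀ t, b (S.X p (t + P)) = b (S.X p t)) (hρP : ∀ t, ρ (S.X p (t + P)) = ρ (S.X p t)) :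
    (((p.1, σ s₀), (p.2 / (ρ p.1 * (b p.1 + s)),
      (√(b p.1 - p.2 ^ 2 + s) / (b p.1 + s)) • deriv σ s₀)) : (ℝ × F) × (ℝ × F)) ∈
      closedVectors (univ ×ˢ N) (warp (fun x => ρ x ^ 2 * (b x + s)) (fun x => b x + s) h) Γ := by
  set c := √(b p.1 - p.2 ^ 2 + s) with hcdef
  have hc0 : 0 < c := Real.sqrt_pos.2 hc
  have hc2 : c ^ 2 = b p.1 - p.2 ^ 2 + s := Real.sq_sqrt hc.le
  have hen : ∀ t, S.U p t ^ 2 + c ^ 2 = b (S.X p t) + s := by
    intro t
    have := S.energy hb p t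
    linarith
  set η : ℝ → ℝ := fun t => s₀ + c * S.W p t with hη
  have hηd : ∀ t, HasDerivAt η (c * ρ (S.X p t)) t := fun t =>
    ((S.dW p t).const_mul c).const_add s₀
  set Y : ℝ → ℝ × F := fun t => (S.X p t, σ (η t)) with hY
  set Z : ℝ → ℝ × F := fun t => (S.U p t / (ρ (S.X p t) * (b (S.X p t) + s)),
    (c / (b (S.X p t) + s)) • deriv σ (η t)) with hZ
  set μ : ℝ → ℝ := fun t => ρ (S.X p t) * (b (S.X p t) + s) with hμ
  have hμpos : ∀ t, 0 < μ t := fun t => mul_pos (hρ0 _) (hs _)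
  have hμc : Continuous μ :=
    (hρ.continuous.comp (S.contX p)).mul ((hb.continuous.comp (S.contX p)).add continuous_const)
  have hYd : ∀ t, HasDerivAt Y (μ t • Z t) t := by
    intro t
    have h1 := S.dX p t
    have h2 := ((hσ.1 (η t)).hasDerivAt).scomp t (hηd t)
    have h3 := h1.prodMk h2
    refine h3.congr_deriv ?_
    have e1 := (hρ0 (S.X p t)).ne'
    have e2 := (hs (S.X p t)).ne'
    simp only [hZ, hμ, Prod.smul_mk, smul_eq_mul, smul_smul]
    rw [Prod.mk.injEq]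
    constructor
    · field_simp
    · congr 1
      field_simp
  have hunit : ∀ t, warp (fun x => ρ x ^ 2 * (b x + s)) (fun x => b x + s) h (Y t) (Z t) (Z t) =
      1 := by
    intro t
    have e1 := (hρ0 (S.X p t)).ne'
    have e2 := (hs (S.X p t)).ne'
    have e3 := hen t
    rw [warp_apply]
    simp only [hY, hZ, map_smul, smul_apply, smul_eq_mul, hσ1]
    rw [show ρ (S.X p t) ^ 2 * (b (S.X p t) + s) *
      (S.U p t / (ρ (S.X p t) * (b (S.X p t) + s)) *
        (S.U p t / (ρ (S.X p t) * (b (S.X p t) + s)))) +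
      (b (S.X p t) + s) * (c / (b (S.X p t) + s) * (c / (b (S.X p t) + s) * 1)) =
      (S.U p t ^ 2 + c ^ 2) / (b (S.X p t) + s) by field_simp, e3, div_self e2]
  set ϖ : ℝ → F →L[ℝ] ℝ := fun r => h (σ r) (deriv σ r) with hϖ
  set D : ℝ → (ℝ × F) →L[ℝ] ℝ := fun t =>
    (deriv ρ (S.X p t) * S.U p t * S.U p t + ρ (S.X p t) * (deriv b (S.X p t) / 2)) •
      ContinuousLinearMap.fst ℝ ℝ F +
    (c * (c * ρ (S.X p t))) • (deriv ϖ (η t)).comp (ContinuousLinearMap.snd ℝ ℝ F) with hD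
  have hmom : ∀ t, HasDerivAt
      (fun r => warp (fun x => ρ x ^ 2 * (b x + s)) (fun x => b x + s) h (Y r) (Z r))
      (μ t • ((μ t)⁻¹ • D t)) t := by
    intro t
    have hfun : (fun r => warp (fun x => ρ x ^ 2 * (b x + s)) (fun x => b x + s) h (Y r) (Z r)) =
        fun r => (ρ (S.X p r) * S.U p r) • ContinuousLinearMap.fst ℝ ℝ F +
          c • (ϖ (η r)).comp (ContinuousLinearMap.snd ℝ ℝ F) := by
      funext r
      refine ContinuousLinearMap.ext fun e => ?_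
      have e1 := (hρ0 (S.X p r)).ne'
      have e2 := (hs (S.X p r)).ne'
      rw [warp_apply]
      simp only [hY, hZ, hϖ, map_smul, smul_apply, smul_eq_mul, add_apply,
        ContinuousLinearMap.comp_apply, ContinuousLinearMap.coe_fst', ContinuousLinearMap.coe_snd']
      field_simp
    rw [hfun]
    have d1 : HasDerivAt (fun r => ρ (S.X p r)) (deriv ρ (S.X p t) * S.U p t) t :=
      (hρ _).hasDerivAt.comp t (S.dX p t)
    have d2 := (d1.fun_mul (S.dU p t)).smul_const (ContinuousLinearMap.fst ℝ ℝ F)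
    have d3 : HasDerivAt (fun r => ϖ (η r)) ((c * ρ (S.X p t)) • deriv ϖ (η t)) t :=
      ((hσ.2.2.1 (η t)).hasDerivAt).scomp t (hηd t)
    have d4 := ((((ContinuousLinearMap.compL ℝ (ℝ × F) F ℝ).flip
      (ContinuousLinearMap.snd ℝ ℝ F)).hasFDerivAt).comp_hasDerivAt t d3).const_smul c
    have d5 := d2.fun_add d4
    refine d5.congr_deriv ?_
    rw [smul_smul, mul_inv_cancel₀ (hμpos t).ne', one_smul]
    simp only [hD]
    congr 1
    refine ContinuousLinearMap.ext fun e => ?_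
    simp
    ring
  have hζ : ∀ t, ∀ e ∈ tangentConeAt ℝ (univ ×ˢ N) (Y t), ((μ t)⁻¹ • D t) e =
      (1 / 2) * fderiv ℝ (fun q => warp (fun x => ρ x ^ 2 * (b x + s))
        (fun x => b x + s) h q (Z t) (Z t)) (Y t) e := by
    intro t e he
    have he2 : e.2 ∈ tangentConeAt ℝ N (σ (η t)) := tan_snd he
    have hel := hσ.2.2.2 (η t) e.2 he2
    have e1 := (hρ0 (S.X p t)).ne'
    have e2 := (hs (S.X p t)).ne'
    have e3 := hen t
    have hα : HasDerivAt (fun x => ρ x ^ 2 * (b x + s))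
        (2 * ρ (S.X p t) * deriv ρ (S.X p t) * (b (S.X p t) + s) +
          ρ (S.X p t) ^ 2 * deriv b (S.X p t)) (S.X p t) := by
      have h1 := ((hρ (S.X p t)).hasDerivAt.fun_pow 2).fun_mul
        ((hb (S.X p t)).hasDerivAt.add_const s)
      refine h1.congr_deriv ?_
      simp
    have hβ : HasDerivAt (fun x => b x + s) (deriv b (S.X p t)) (S.X p t) :=
      (hb (S.X p t)).hasDerivAt.add_const s
    have hfd := warp_fderiv (F := F) (α := fun x => ρ x ^ 2 * (b x + s)) (β := fun x => b x + s)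
      (h := h) (x := S.X p t) (y := σ (η t)) hα.differentiableAt hβ.differentiableAt
      (hh _) (Z t) e
    rw [show Y t = (S.X p t, σ (η t)) from rfl, hfd, hα.deriv, hβ.deriv]
    have hsc : (fun q => h q (Z t).2 (Z t).2) = fun q =>
        (c / (b (S.X p t) + s)) ^ 2 * h q (deriv σ (η t)) (deriv σ (η t)) := by
      funext q
      simp only [hZ, map_smul, smul_apply, smul_eq_mul]
      ring
    have hfs : fderiv ℝ (fun q => h q (Z t).2 (Z t).2) (σ (η t)) e.2 =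
        (c / (b (S.X p t) + s)) ^ 2 *
          fderiv ℝ (fun q => h q (deriv σ (η t)) (deriv σ (η t))) (σ (η t)) e.2 := by
      rw [hsc, fderiv_const_mul (form_hasFDerivAt (hh _) _ _)]
      simp
    have hz2 : h (σ (η t)) (Z t).2 (Z t).2 = (c / (b (S.X p t) + s)) ^ 2 := by
      have := congrFun hsc (σ (η t))
      rw [this, hσ1, mul_one]
    rw [hfs, hz2]
    simp only [hD, smul_apply, add_apply, ContinuousLinearMap.comp_apply,
      ContinuousLinearMap.coe_fst', ContinuousLinearMap.coe_snd', smul_eq_mul]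
    rw [hel]
    set DD := fderiv ℝ (fun q => h q (deriv σ (η t)) (deriv σ (η t))) (σ (η t)) e.2 with hDD
    simp only [hZ, hμ]
    set B := b (S.X p t) + s with hB
    set R := ρ (S.X p t) with hR
    set u := S.U p t with hu
    set R' := deriv ρ (S.X p t)
    set b' := deriv b (S.X p t)
    have e4 : c ^ 2 = B - u ^ 2 := by linarith
    field_simp
    rw [e4]
    ring
  have hres := reparam (N := univ ×ˢ N) (Γ := Γ) hμc hμpos
    (fun t => ⟨trivial, hσ.2.1 _⟩) hYd hmom hζ hunit hP hG hYG (fun t => by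
      show ρ (S.X p (t + P)) * (b (S.X p (t + P)) + s) = _
      rw [hbP, hρP]) 0
  have hY0 : Y 0 = (p.1, σ s₀) := by
    show (S.X p 0, σ (s₀ + c * S.W p 0)) = _
    rw [S.X0, S.W0, mul_zero, add_zero]
  have hZ0 : Z 0 = (p.2 / (ρ p.1 * (b p.1 + s)), (c / (b p.1 + s)) • deriv σ s₀) := by
    show (S.U p 0 / (ρ (S.X p 0) * (b (S.X p 0) + s)),
      (c / (b (S.X p 0) + s)) • deriv σ (s₀ + c * S.W p 0)) = _
    rw [S.X0, S.U0, S.W0, mul_zero, add_zero]
  rw [hY0, hZ0] at hres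
  exact hres

/-- The map `(x, y) ↦ (x + j, A y)`. -/
def shiftPerm (j : ℤ) (A : Equiv.Perm F) : Equiv.Perm (ℝ × F) where
  toFun y := (y.1 + j, A y.2)
  invFun y := (y.1 - j, A.symm y.2)
  left_inv y := by simp
  right_inv y := by simp

/-- A motion with period, over a geodesic with period, gives a closed geodesic: the period of the
motion is used `n` times. -/
theorem warp_closed {b ρ : ℝ → ℝ} (S : Sys b ρ) (hb : Differentiable ℝ b)
    (hρ : Differentiable ℝ ρ) (hρ0 : ∀ x, 0 < ρ x) {s : ℝ} (hs : ∀ x, 0 < b x + s)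
    (hbp : Function.Periodic b 1) (hρp : Function.Periodic ρ 1) {N : Set F}
    {h : F → F →L[ℝ] F →L[ℝ] ℝ} (hh : Differentiable ℝ h) {Γ : Subgroup (Equiv.Perm (ℝ × F))}
    {σ : ℝ → F} (hσ : IsGeodesic N h σ) (hσ1 : ∀ t, h (σ t) (deriv σ t) (deriv σ t) = 1)
    {p : ℝ × ℝ} {K : ℝ} {j : ℤ} (hper : S.Per s K j p) (hc : 0 < b p.1 - p.2 ^ 2 + s)
    (s₀ : ℝ) {n : ℕ} (hn : 0 < n) {B : Equiv.Perm F} (hσB : ∀ t, σ (t + n * K) = B (σ t))
    (hΓ : shiftPerm (n * j) B ∈ Γ) :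
    (((p.1, σ s₀), (p.2 / (ρ p.1 * (b p.1 + s)),
      (√(b p.1 - p.2 ^ 2 + s) / (b p.1 + s)) • deriv σ s₀)) : (ℝ × F) × (ℝ × F)) ∈
      closedVectors (univ ×ˢ N) (warp (fun x => ρ x ^ 2 * (b x + s)) (fun x => b x + s) h) Γ := by
  obtain ⟨P, hP, hX, hU, hW, hq⟩ := hper
  set c := √(b p.1 - p.2 ^ 2 + s) with hcdef
  have hdX := iter_period (f := S.X p) (c := (j : ℝ)) hX n
  have hdW := iter_period (f := S.W p) (c := S.W p P) hW n
  have hnpos : (0 : ℝ) < n := by exact_mod_cast hn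
  refine warp_core S hb hρ hρ0 hs hh hσ hσ1 hc s₀ (P := n * P) (by positivity) hΓ
    (fun t => ?_) (fun t => ?_) (fun t => ?_)
  · show (S.X p (t + n * P), σ (s₀ + c * S.W p (t + n * P))) =
        (S.X p t + ((n * j : ℤ) : ℝ), B (σ (s₀ + c * S.W p t)))
    rw [hdX t, hdW t]
    have h1 : s₀ + c * (S.W p t + n • S.W p P) = (s₀ + c * S.W p t) + n * K := by
      rw [nsmul_eq_mul]
      linear_combination (n : ℝ) * hq
    rw [h1, hσB]
    push_cast
    simp
  · rw [hdX t, nsmul_eq_mul]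
    have := hbp.int_mul (n * j) (S.X p t)
    push_cast at this
    simpa using this
  · rw [hdX t, nsmul_eq_mul]
    have := hρp.int_mul (n * j) (S.X p t)
    push_cast at this
    simpa using this

end Pool.Agent.CGD
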