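import Mathlib
import Pool.Agent.CGD.Warp

/-!
# Warped products over the circle: density (helper82)
-/

noncomputable section

open Set Filter Topology Metric MeasureTheory
open scoped NNReal ContDiff

namespace Pool.Agent.CGD

variable {F : Type*} [NormedAddCommGroup F] [NormedSpace ℝ F]

/-- Density of the fibre geodesics that can be used over motions rotating `j` times. -/
def RotDense (N : Set F) (h : F → F →L[ℝ] F →L[ℝ] ℝ) (Γ : Subgroup (Equiv.Perm (ℝ × F)))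
    (j : ℤ) : Prop :=
  ∀ f₁ f₂ : ℝ, 0 < f₁ → f₁ < f₂ → unitBundle N h ⊆ closure {z | ∃ (σ : ℝ → F) (s₀ : ℝ),
    IsGeodesic N h σ ∧ (∀ t, h (σ t) (deriv σ t) (deriv σ t) = 1) ∧ z = (σ s₀, deriv σ s₀) ∧
    ∃ K ∈ Ioo f₁ f₂, ∃ n : ℕ, 0 < n ∧ ∃ B : Equiv.Perm F, (∀ t, σ (t + n * K) = B (σ t)) ∧
      shiftPerm (n * j) B ∈ Γ}

/-- Density for the perturbed metrics, in terms of `ρ`. -/
theorem warp_dense_aux {b ρ : ℝ → ℝ} (S : Sys b ρ) (hb : ContDiff ℝ 2 b)
    (hbp : Function.Periodic b 1) (hρ : ContDiff ℝ 1 ρ) (hρp : Function.Periodic ρ 1)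
    (hρ0 : ∀ x, 0 < ρ x) {s : ℝ} (hs : ∀ x, 0 < b x + s)
    (hnc : ∀ x, Good b x → 0 < b x + s → S.NonConst s x) {N : Set F}
    {h : F → F →L[ℝ] F →L[ℝ] ℝ} (hh : ContDiff ℝ 1 h)
    (hpos : ∀ y ∈ N, ∀ v ∈ tangentConeAt ℝ N y, v ≠ 0 → 0 < h y v v)
    (hne : ∀ y ∈ N, ∃ v ∈ tangentConeAt ℝ N y, v ≠ 0)
    {Γ : Subgroup (Equiv.Perm F)} (hD : DenseClosed N h Γ) {Γ' : Subgroup (Equiv.Perm (ℝ × F))}
    (hΓ : ∀ A ∈ Γ, shiftPerm 0 A ∈ Γ') (hR1 : RotDense N h Γ' 1) (hR2 : RotDense N h Γ' (-1)) :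
    DenseClosed (univ ×ˢ N) (warp (fun x => ρ x ^ 2 * (b x + s)) (fun x => b x + s) h) Γ' := by
  obtain ⟨m, hm, hρm⟩ := per_pos hρ.continuous hρp hρ0
  have hbc := hb.continuous
  have hρc := hρ.continuous
  have hdb : Differentiable ℝ b := hb.differentiable (by norm_num)
  have hdρ : Differentiable ℝ ρ := hρ.differentiable (by norm_num)
  have hdh : Differentiable ℝ h := hh.differentiable (by norm_num)
  -- the parametrisation
  set Ψ : (ℝ × ℝ) × (F × F) → (ℝ × F) × (ℝ × F) := fun q =>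
    ((q.1.1, q.2.1), (q.1.2 / (ρ q.1.1 * (b q.1.1 + s)),
      (√(b q.1.1 - q.1.2 ^ 2 + s) / (b q.1.1 + s)) • q.2.2)) with hΨ
  have hΨc : Continuous Ψ := by
    have h1 : ∀ q : (ℝ × ℝ) × (F × F), ρ q.1.1 * (b q.1.1 + s) ≠ 0 := fun q =>
      (mul_pos (hρ0 _) (hs _)).ne'
    have h2 : ∀ q : (ℝ × ℝ) × (F × F), b q.1.1 + s ≠ 0 := fun q => (hs _).ne'
    simp only [hΨ]
    fun_prop (disch := assumption)
  set G : Set ((ℝ × ℝ) × (F × F)) := {q | Ψ q ∈ closedVectors (univ ×ˢ N)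
    (warp (fun x => ρ x ^ 2 * (b x + s)) (fun x => b x + s) h) Γ'}
    with hG
  -- key density
  have key : ∀ x u : ℝ, ∀ y w : F, 0 < b x - u ^ 2 + s → (y, w) ∈ unitBundle N h →
      ((x, u), (y, w)) ∈ closure G := by
    intro x u y w hc hyw
    rw [Metric.mem_closure_iff]
    intro ε hε
    have hcont : Continuous fun p : ℝ × ℝ => b p.1 - p.2 ^ 2 + s := by fun_prop
    obtain ⟨δ, hδ, hball⟩ := Metric.isOpen_iff.1 (isOpen_lt continuous_const hcont) (x, u) hc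
    have hfin : ∀ (σ : ℝ → F) (s₀ : ℝ), IsGeodesic N h σ →
        (∀ t, h (σ t) (deriv σ t) (deriv σ t) = 1) → dist (y, w) (σ s₀, deriv σ s₀) < ε →
        ∀ (K : ℝ) (j : ℤ) (p : ℝ × ℝ), dist p (x, u) < min ε δ → S.Per s K j p →
        ∀ (n : ℕ), 0 < n → ∀ B : Equiv.Perm F, (∀ t, σ (t + n * K) = B (σ t)) →
        shiftPerm (n * j) B ∈ Γ' → ∃ b ∈ G, dist ((x, u), y, w) b < ε := by
      intro σ s₀ hσ hσ1 hz K j p hp hper n hn B hB hBΓ
      have hpc : 0 < b p.1 - p.2 ^ 2 + s := hball (hp.trans_le (min_le_right _ _))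
      refine ⟨(p, (σ s₀, deriv σ s₀)), ?_, ?_⟩
      · exact warp_closed S hdb hdρ hρ0 hs hbp hρp hdh hσ hσ1 hper hpc s₀ hn hB hBΓ
      · rw [Prod.dist_eq]
        refine max_lt ?_ hz
        rw [dist_comm]
        exact hp.trans_le (min_le_left _ _)
    rcases S.tri hb hbp hρc hρp hm hρm hnc hc (lt_min hε hδ) with ht | ⟨j, hj, f₁, f₂, h0, h12, ht⟩
    · have hcl := hD hyw
      rw [Metric.mem_closure_iff] at hcl
      obtain ⟨z, ⟨σ, ⟨hσ, hσ1, L, hL, A, hA, hσL⟩, s₀, rfl⟩, hz⟩ := hcl ε hε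
      obtain ⟨p, hp, q, hper⟩ := ht L hL
      have hpc : 0 < b p.1 - p.2 ^ 2 + s := hball (hp.trans_le (min_le_right _ _))
      -- the rational number is positive
      have hqpos : 0 < q := by
        obtain ⟨P, hP, -, -, -, hq⟩ := hper
        have h1 : 0 < (q : ℝ) * L := by
          rw [← hq]; exact mul_pos (Real.sqrt_pos.2 hpc) (S.W_pos hρ0 hP)
        exact_mod_cast (pos_iff_pos_of_mul_pos h1).2 hL
      set M : ℕ := q.num.toNat with hM
      have hMq : (M : ℝ) = q * q.den := by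
        have h1 : (M : ℤ) = q.num := Int.toNat_of_nonneg (Rat.num_nonneg.2 hqpos.le)
        have h2 : ((M : ℤ) : ℝ) = q.num := by rw [h1]
        have h3 : (q : ℝ) * q.den = q.num := by exact_mod_cast Rat.mul_den_eq_num q
        rw [h3, ← h2]
        push_cast
        rfl
      refine hfin σ s₀ hσ hσ1 hz _ 0 p hp hper q.den q.den_pos (A ^ M) (fun t => ?_) ?_
      · rw [show t + (q.den : ℝ) * (q * L) = t + M * L by rw [hMq]; ring]
        exact iter_deck hσL M t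
      · rw [mul_zero]
        exact hΓ _ (Γ.pow_mem hA M)
    · have hR : RotDense N h Γ' j := by
        rcases hj with h | h
        · rw [h]; exact hR1
        · rw [h]; exact hR2
      have hcl := hR f₁ f₂ h0 h12 hyw
      rw [Metric.mem_closure_iff] at hcl
      obtain ⟨z, ⟨σ, s₀, hσ, hσ1, rfl, K, hK, n, hn, B, hB, hBΓ⟩, hz⟩ := hcl ε hε
      obtain ⟨p, hp, hper⟩ := ht K hK
      exact hfin σ s₀ hσ hσ1 hz K j p hp hper n hn B hB hBΓ
  -- the boundary case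
  have key' : ∀ x u : ℝ, ∀ y w : F, 0 ≤ b x - u ^ 2 + s → (y, w) ∈ unitBundle N h →
      ((x, u), (y, w)) ∈ closure G := by
    intro x u y w hc hyw
    rcases hc.lt_or_eq with h1 | h1
    · exact key x u y w h1 hyw
    have hlim : Tendsto (fun r : ℝ => (((x, u * (1 - r)), (y, w)) : (ℝ × ℝ) × (F × F)))
        (𝓝[>] 0) (𝓝 ((x, u), (y, w))) := by
      have hcont : Continuous fun r : ℝ => (((x, u * (1 - r)), (y, w)) : (ℝ × ℝ) × (F × F)) := by
        fun_prop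
      have := (hcont.tendsto 0).mono_left (nhdsWithin_le_nhds (s := Ioi 0))
      simpa using this
    rw [← closure_closure]
    refine mem_closure_of_tendsto hlim ?_
    have hev : ∀ᶠ r in 𝓝[>] (0:ℝ), r ∈ Ioo (0:ℝ) 1 := Ioo_mem_nhdsGT one_pos
    filter_upwards [hev] with r hr
    refine key x _ y w ?_ hyw
    have hu2 : 0 < u ^ 2 := by
      have := hs x
      linarith
    have h2 : (u * (1 - r)) ^ 2 < u ^ 2 := by
      rw [mul_pow]
      have h3 : (1 - r) ^ 2 < 1 := by nlinarith [hr.1, hr.2]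
      nlinarith
    linarith
  rintro ⟨⟨x, y⟩, ⟨α, w⟩⟩ ⟨hxy, htan, hz⟩
  have hyN : y ∈ N := hxy.2
  have hwT : w ∈ tangentConeAt ℝ N y := tan_snd htan
  replace hz : ρ x ^ 2 * (b x + s) * (α * α) + (b x + s) * h y w w = 1 := by
    simpa using hz
  have hB := hs x
  have hR := hρ0 x
  -- choose the data
  have hex : ∃ u : ℝ, ∃ w' : F, 0 ≤ b x - u ^ 2 + s ∧ (y, w') ∈ unitBundle N h ∧
      Ψ ((x, u), (y, w')) = ((x, y), (α, w)) := by
    set u := α * (ρ x * (b x + s)) with hu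
    have hαu : u / (ρ x * (b x + s)) = α := by rw [hu]; field_simp
    have hen : b x - u ^ 2 + s = (b x + s) ^ 2 * h y w w := by
      rw [hu]
      linear_combination (-(b x + s)) * hz
    by_cases hw : w = 0
    · obtain ⟨v, hvT, hv⟩ := hne y hyN
      have hvv := hpos y hyN v hvT hv
      refine ⟨u, (1 / √(h y v v)) • v, ?_, ⟨hyN, tan_smul hvT _, ?_⟩, ?_⟩
      · rw [hen, hw]; simp
      · simp only [map_smul, smul_apply, smul_eq_mul]
        have := Real.sq_sqrt hvv.le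
        have h3 : √(h y v v) ≠ 0 := (Real.sqrt_pos.2 hvv).ne'
        field_simp
        linarith
      · simp only [hΨ, hαu, hen, hw]
        simp
    · have hww := hpos y hyN w hwT hw
      have h3 : 0 < √(h y w w) := Real.sqrt_pos.2 hww
      refine ⟨u, (1 / √(h y w w)) • w, ?_, ⟨hyN, tan_smul hwT _, ?_⟩, ?_⟩
      · rw [hen]; positivity
      · simp only [map_smul, smul_apply, smul_eq_mul]
        have := Real.sq_sqrt hww.le
        field_simp
        linarith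
      · simp only [hΨ, hαu, hen]
        rw [Real.sqrt_mul (by positivity), Real.sqrt_sq hB.le, smul_smul]
        congr 2
        have h4 : (b x + s) * √(h y w w) / (b x + s) * (1 / √(h y w w)) = 1 := by
          field_simp
        rw [h4, one_smul]
  obtain ⟨u, w', h1, h2, h3⟩ := hex
  rw [← h3]
  exact map_mem_closure hΨc (key' x u y w' h1 h2) fun q hq => hq

/-- For the product, density over rotating motions follows from the density in the fibre. -/
theorem rotDense_prod {N : Set F} {h : F → F →L[ℝ] F →L[ℝ] ℝ} {Γ : Subgroup (Equiv.Perm F)}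
    (hD : DenseClosed N h Γ) (j : ℤ) : RotDense N h (prodGroup Γ) j := by
  intro f₁ f₂ h0 h12 z hz
  refine closure_mono ?_ (hD hz)
  rintro _ ⟨σ, ⟨hσ, hσ1, L, hL, A, hA, hσL⟩, s₀, rfl⟩
  obtain ⟨q, hq1, hq2⟩ := exists_rat_btwn (div_lt_div_of_pos_right h12 hL)
  rw [div_lt_iff₀ hL] at hq1
  rw [lt_div_iff₀ hL] at hq2
  have hqpos : 0 < q := by
    have : 0 < (q : ℝ) * L := h0.trans hq1
    exact_mod_cast (pos_iff_pos_of_mul_pos this).2 hL
  set M : ℕ := q.num.toNat with hM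
  have hMq : (M : ℝ) = q * q.den := by
    have h1 : (M : ℤ) = q.num := Int.toNat_of_nonneg (Rat.num_nonneg.2 hqpos.le)
    have h2 : ((M : ℤ) : ℝ) = q.num := by rw [h1]
    have h3 : (q : ℝ) * q.den = q.num := by exact_mod_cast Rat.mul_den_eq_num q
    rw [h3, ← h2]
    push_cast
    rfl
  refine ⟨σ, s₀, hσ, hσ1, rfl, q * L, ⟨hq1, hq2⟩, q.den, q.den_pos, A ^ M, fun t => ?_, ?_⟩
  · rw [show t + (q.den : ℝ) * (q * L) = t + M * L by rw [hMq]; ring]
    exact iter_deck hσL M t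
  · exact ⟨q.den * j, A ^ M, Γ.pow_mem hA M, fun p => rfl⟩

/-- **Warped products over the circle.** For all positive `1`-periodic `a`, `b` there is a
countable set `B` such that for every shift `s` outside `B` and every fibre `(N, h)` with dense
closed geodesic directions, `(a (b + s) / b) dx² + (b + s) h` has dense closed geodesic
directions (more generally for other deck groups). -/
theorem warp_dense' {a b : ℝ → ℝ} (ha : ContDiff ℝ 2 a) (hb : ContDiff ℝ 2 b)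
    (hap : Function.Periodic a 1) (hbp : Function.Periodic b 1) (ha0 : ∀ x, 0 < a x)
    (hb0 : ∀ x, 0 < b x) :
    ∃ B : Set ℝ, B.Countable ∧ ∀ s ∉ B, (∀ x, 0 < b x + s) →
      ∀ (F : Type*) [NormedAddCommGroup F] [NormedSpace ℝ F] (N : Set F)
      (h : F → F →L[ℝ] F →L[ℝ] ℝ) (Γ : Subgroup (Equiv.Perm F))
      (Γ' : Subgroup (Equiv.Perm (ℝ × F))), ContDiff ℝ 1 h →
      (∀ y ∈ N, ∀ v ∈ tangentConeAt ℝ N y, v ≠ 0 → 0 < h y v v) →
      (∀ y ∈ N, ∃ v ∈ tangentConeAt ℝ N y, v ≠ 0) → DenseClosed N h Γ →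
      (∀ A ∈ Γ, shiftPerm 0 A ∈ Γ') → RotDense N h Γ' 1 → RotDense N h Γ' (-1) →
      DenseClosed (univ ×ˢ N) (warp (fun x => a x * (b x + s) / b x) (fun x => b x + s) h)
        Γ' := by
  set ρ : ℝ → ℝ := fun x => √(a x / b x) with hρdef
  have hρ0 : ∀ x, 0 < ρ x := fun x => Real.sqrt_pos.2 (div_pos (ha0 x) (hb0 x))
  have hρ2 : ∀ x, ρ x ^ 2 = a x / b x := fun x => Real.sq_sqrt (div_pos (ha0 x) (hb0 x)).le
  have hρ : ContDiff ℝ 1 ρ := by
    have h1 : ContDiff ℝ 2 fun x => a x / b x := ha.div hb fun x => (hb0 x).ne'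
    exact (h1.sqrt fun x => (div_pos (ha0 x) (hb0 x)).ne').of_le (by norm_num)
  have hρp : Function.Periodic ρ 1 := by
    intro x
    simp only [hρdef]
    rw [hap x, hbp x]
  obtain ⟨S⟩ := exists_sys hb hbp hρ hρp
  refine ⟨S.badSet, S.badSet_countable hb hbp hρ0,
    fun s hbad hs F _ _ N h Γ Γ' hh hpos hne hD hΓ hR1 hR2 => ?_⟩
  have := warp_dense_aux S hb hbp hρ hρp hρ0 hs
    (fun x hx _ => S.nonConst_of_not_bad hb hbp hs hbad hx) hh hpos hne hD hΓ hR1 hR2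
  have he : (fun x => a x * (b x + s) / b x) = fun x => ρ x ^ 2 * (b x + s) := by
    funext x
    rw [hρ2]
    ring
  rw [he]
  exact this

/-- The product case. -/
theorem warp_dense {a b : ℝ → ℝ} (ha : ContDiff ℝ 2 a) (hb : ContDiff ℝ 2 b)
    (hap : Function.Periodic a 1) (hbp : Function.Periodic b 1) (ha0 : ∀ x, 0 < a x)
    (hb0 : ∀ x, 0 < b x) :
    ∃ B : Set ℝ, B.Countable ∧ ∀ s ∉ B, (∀ x, 0 < b x + s) →
      ∀ (F : Type*) [NormedAddCommGroup F] [NormedSpace ℝ F] (N : Set F)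
      (h : F → F →L[ℝ] F →L[ℝ] ℝ) (Γ : Subgroup (Equiv.Perm F)), ContDiff ℝ 1 h →
      (∀ y ∈ N, ∀ v ∈ tangentConeAt ℝ N y, v ≠ 0 → 0 < h y v v) →
      (∀ y ∈ N, ∃ v ∈ tangentConeAt ℝ N y, v ≠ 0) → DenseClosed N h Γ →
      DenseClosed (univ ×ˢ N) (warp (fun x => a x * (b x + s) / b x) (fun x => b x + s) h)
        (prodGroup Γ) := by
  obtain ⟨B, hB, h⟩ := warp_dense' ha hb hap hbp ha0 hb0
  exact ⟨B, hB, fun s hs1 hs2 F _ _ N h' Γ h1 h2 h3 h4 => h s hs1 hs2 F N h' Γ (prodGroup Γ)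
    h1 h2 h3 h4 (fun A hA => ⟨0, A, hA, fun p => rfl⟩) (rotDense_prod h4 1)
    (rotDense_prod h4 (-1))⟩

end Pool.Agent.CGD
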