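import Mathlib
import Pool.Agent.CGD.Warp

/-!
# Smoothness of the metrics (helper82)
-/

noncomputable section

open Set Filter Topology
open scoped ContDiff

namespace Pool.Agent.CGD

variable {F : Type*} [NormedAddCommGroup F] [NormedSpace ℝ F] {E : Type*} [NormedAddCommGroup E]
  [NormedSpace ℝ E] {G : Type*} [NormedAddCommGroup G] [NormedSpace ℝ G]

/-- Precomposition of a smooth family of forms with smooth families of linear maps. -/
theorem contDiff_bilinearComp {k : WithTop ℕ∞} {h : E → F →L[ℝ] F →L[ℝ] ℝ}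
    {L M : E → G →L[ℝ] F} (hh : ContDiff ℝ k h) (hL : ContDiff ℝ k L) (hM : ContDiff ℝ k M) :
    ContDiff ℝ k (fun p => (h p).bilinearComp (L p) (M p)) := by
  have h1 : ContDiff ℝ k fun p => (h p).comp (L p) := hh.clm_comp hL
  have hb : IsBoundedLinearMap ℝ
      (fun M : G →L[ℝ] F => (ContinuousLinearMap.compL ℝ G F ℝ).flip M) :=
    ⟨⟨fun _ _ => map_add _ _ _, fun _ _ => map_smul _ _ _⟩,
      ⟨‖(ContinuousLinearMap.compL ℝ G F ℝ).flip‖ + 1, by positivity,
        fun x => (ContinuousLinearMap.le_opNorm _ _).trans (by gcongr; linarith)⟩⟩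
  have h2 : ContDiff ℝ k fun p => (ContinuousLinearMap.compL ℝ G F ℝ).flip (M p) :=
    hb.contDiff.comp hM
  have h3 := h2.clm_comp h1
  have h4 : (fun p => (h p).bilinearComp (L p) (M p)) = fun p =>
      ((ContinuousLinearMap.compL ℝ G F ℝ).flip (M p)).comp ((h p).comp (L p)) := by
    funext p
    rfl
  rw [h4]
  exact h3

theorem warp_eq (a b : ℝ → ℝ) (h : F → F →L[ℝ] F →L[ℝ] ℝ) : warp a b h = fun p =>
    (ContinuousLinearMap.mul ℝ ℝ).bilinearComp (a p.1 • ContinuousLinearMap.fst ℝ ℝ F)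
      (ContinuousLinearMap.fst ℝ ℝ F) +
    (h p.2).bilinearComp (b p.1 • ContinuousLinearMap.snd ℝ ℝ F)
      (ContinuousLinearMap.snd ℝ ℝ F) := by
  funext p
  refine ContinuousLinearMap.ext fun v => ContinuousLinearMap.ext fun w => ?_
  simp
  ring

/-- Smooth families of warped products. -/
theorem warp_family {P : Type*} [NormedAddCommGroup P] [NormedSpace ℝ P] {k : WithTop ℕ∞}
    {a b : P → ℝ → ℝ} {h : P → F → F →L[ℝ] F →L[ℝ] ℝ}
    (ha : ContDiff ℝ k fun z : P × ℝ => a z.1 z.2) (hb : ContDiff ℝ k fun z : P × ℝ => b z.1 z.2)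
    (hh : ContDiff ℝ k fun z : P × F => h z.1 z.2) :
    ContDiff ℝ k fun z : P × (ℝ × F) => warp (a z.1) (b z.1) (h z.1) z.2 := by
  have p1 : ContDiff ℝ k fun z : P × (ℝ × F) => (z.1, z.2.1) :=
    contDiff_fst.prodMk (contDiff_fst.comp contDiff_snd)
  have p2 : ContDiff ℝ k fun z : P × (ℝ × F) => (z.1, z.2.2) :=
    contDiff_fst.prodMk (contDiff_snd.comp contDiff_snd)
  have h1 : ContDiff ℝ k fun z : P × (ℝ × F) => a z.1 z.2.1 • ContinuousLinearMap.fst ℝ ℝ F :=
    (ha.comp p1).smul contDiff_const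
  have h2 : ContDiff ℝ k fun z : P × (ℝ × F) => b z.1 z.2.1 • ContinuousLinearMap.snd ℝ ℝ F :=
    (hb.comp p1).smul contDiff_const
  have h3 : ContDiff ℝ k fun z : P × (ℝ × F) => h z.1 z.2.2 := hh.comp p2
  have he : (fun z : P × (ℝ × F) => warp (a z.1) (b z.1) (h z.1) z.2) = fun z =>
      (ContinuousLinearMap.mul ℝ ℝ).bilinearComp (a z.1 z.2.1 • ContinuousLinearMap.fst ℝ ℝ F)
        (ContinuousLinearMap.fst ℝ ℝ F) +
      (h z.1 z.2.2).bilinearComp (b z.1 z.2.1 • ContinuousLinearMap.snd ℝ ℝ F)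
        (ContinuousLinearMap.snd ℝ ℝ F) := by
    funext z
    rw [warp_eq]
  rw [he]
  exact (contDiff_bilinearComp contDiff_const h1 contDiff_const).add
    (contDiff_bilinearComp h3 h2 contDiff_const)

theorem warp_contDiff {k : WithTop ℕ∞} {a b : ℝ → ℝ} {h : F → F →L[ℝ] F →L[ℝ] ℝ}
    (ha : ContDiff ℝ k a) (hb : ContDiff ℝ k b) (hh : ContDiff ℝ k h) :
    ContDiff ℝ k (warp a b h) := by
  have h1 : ContDiff ℝ k fun p : ℝ × F => a p.1 • ContinuousLinearMap.fst ℝ ℝ F :=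
    (ha.comp contDiff_fst).smul contDiff_const
  have h2 : ContDiff ℝ k fun p : ℝ × F => b p.1 • ContinuousLinearMap.snd ℝ ℝ F :=
    (hb.comp contDiff_fst).smul contDiff_const
  rw [warp_eq]
  exact (contDiff_bilinearComp contDiff_const h1 contDiff_const).add
    (contDiff_bilinearComp (hh.comp contDiff_snd) h2 contDiff_const)

end Pool.Agent.CGD
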