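import Mathlib
import Pool.Agent.CGD.Dens
import Pool.Agent.CGD.Close
import Pool.Agent.CGD.Smooth

/-!
# Limits of metrics with dense closed geodesic directions (helper82)
-/

set_option maxSynthPendingDepth 3

noncomputable section

open Set Filter Topology Metric MeasureTheory
open scoped NNReal ContDiff

namespace Pool.Agent.CGD

theorem two_le_coe {k : ℕ∞} (hk : 2 ≤ k) : (2 : WithTop ℕ∞) ≤ ((k : ℕ∞) : WithTop ℕ∞) :=
  show ((2 : ℕ∞) : WithTop ℕ∞) ≤ ((k : ℕ∞) : WithTop ℕ∞) from WithTop.coe_le_coe.2 hk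

section defs

variable {F : Type*} [NormedAddCommGroup F] [NormedSpace ℝ F]

/-- `g` is a Riemannian metric of class `C^k` on the quotient of `N` by `Γ`: a `C^k` field of
symmetric bilinear forms on `F`, positive definite on the vectors tangent to `N`, such that the
elements of `Γ` map `N` to itself and preserve `g` on tangent vectors. -/
structure IsMetric (k : ℕ∞) (N : Set F) (Γ : Subgroup (Equiv.Perm F))
    (g : F → F →L[ℝ] F →L[ℝ] ℝ) : Prop where
  smooth : ContDiff ℝ k g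
  symm : ∀ p v w, g p v w = g p w v
  pos : ∀ p ∈ N, ∀ v ∈ tangentConeAt ℝ N p, v ≠ 0 → 0 < g p v v
  inv : ∀ A ∈ Γ, ∀ p ∈ N, A p ∈ N ∧ DifferentiableAt ℝ A p ∧ ∀ v ∈ tangentConeAt ℝ N p,
    ∀ w ∈ tangentConeAt ℝ N p, g (A p) (fderiv ℝ A p v) (fderiv ℝ A p w) = g p v w

/-- All derivatives up to order `n` of `g'` and `g` differ by less than `ε` on `K`. -/
def CloseOn (n : ℕ) (K : Set F) (ε : ℝ) (g' g : F → F →L[ℝ] F →L[ℝ] ℝ) : Prop :=
  ∀ j ≤ n, ∀ p ∈ K, ‖iteratedFDeriv ℝ j (fun q => g' q - g q) p‖ < ε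

/-- `g` is a limit, in the `C^k` topology on compact sets, of `C^k` metrics whose closed geodesic
directions are dense. -/
def IsLimit (k : ℕ∞) (N : Set F) (Γ : Subgroup (Equiv.Perm F))
    (g : F → F →L[ℝ] F →L[ℝ] ℝ) : Prop :=
  ∀ K : Set F, IsCompact K → ∀ n : ℕ, (n : ℕ∞) ≤ k → ∀ ε > 0,
    ∃ g' : F → F →L[ℝ] F →L[ℝ] ℝ, IsMetric k N Γ g' ∧ DenseClosed N g' Γ ∧ CloseOn n K ε g' g

end defs

/-- From a one parameter family. -/
theorem close_of_family {F : Type} [NormedAddCommGroup F] [NormedSpace ℝ F] {k : ℕ∞}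
    {G : ℝ → F → F →L[ℝ] F →L[ℝ] ℝ} (hG : ContDiff ℝ k fun z : ℝ × F => G z.1 z.2) {K : Set F}
    (hK : IsCompact K) {n : ℕ} (hn : (n : ℕ∞) ≤ k) {ε : ℝ} (hε : 0 < ε) :
    ∀ᶠ s in 𝓝 (0 : ℝ), CloseOn n K ε (G s) (G 0) := by
  have hG0 : ContDiff ℝ k fun z : ℝ × F => G 0 z.2 := by
    have h1 : ContDiff ℝ k fun z : ℝ × F => ((0 : ℝ), z.2) := contDiff_const.prodMk contDiff_snd
    exact ContDiff.comp (g := fun z : ℝ × F => G z.1 z.2) hG h1
  have hH : ContDiff ℝ k fun z : ℝ × F => G z.1 z.2 - G 0 z.2 := hG.sub hG0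
  exact close_family_le hK hH (fun p => sub_self (G 0 p)) (by exact_mod_cast hn) hε

theorem exists_not_mem_countable {B : Set ℝ} (hB : B.Countable) {P : ℝ → Prop}
    (hP : ∀ᶠ s in 𝓝 (0 : ℝ), P s) : ∃ s ∉ B, P s := by
  obtain ⟨δ, hδ, hball⟩ := Metric.eventually_nhds_iff_ball.1 hP
  have hd : Dense Bᶜ := hB.dense_compl ℝ
  obtain ⟨s, hs1, hs2⟩ := hd.exists_mem_open isOpen_ball ⟨0, mem_ball_self hδ⟩
  exact ⟨s, hs1, hball s hs2⟩

section warp

variable {F : Type} [NormedAddCommGroup F] [NormedSpace ℝ F]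

theorem warp_isMetric {k : ℕ∞} {a b : ℝ → ℝ} (ha : ContDiff ℝ k a) (hb : ContDiff ℝ k b)
    (hap : Function.Periodic a 1) (hbp : Function.Periodic b 1) (ha0 : ∀ x, 0 < a x)
    (hb0 : ∀ x, 0 < b x) {N : Set F} {Γ : Subgroup (Equiv.Perm F)}
    {h : F → F →L[ℝ] F →L[ℝ] ℝ} (hh : IsMetric k N Γ h) :
    IsMetric k (univ ×ˢ N) (prodGroup Γ) (warp a b h) where
  smooth := warp_contDiff ha hb hh.smooth
  symm := by
    intro p v w
    rw [warp_apply, warp_apply, hh.symm, mul_comm v.1]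
  pos := by
    rintro ⟨x, y⟩ ⟨-, hy⟩ v hv hv0
    have h2 := tan_snd hv
    rw [warp_apply]
    by_cases h : v.2 = 0
    · have h1 : v.1 ≠ 0 := fun h1 => hv0 (Prod.ext h1 h)
      rw [h]
      have := ha0 x
      have h3 := mul_self_pos.2 h1
      simp only [map_zero, mul_zero, add_zero]
      positivity
    · have h3 := hh.pos y hy v.2 h2 h
      have h4 := mul_self_nonneg v.1
      have := ha0 x
      have := hb0 x
      positivity
  inv := by
    rintro G ⟨j, A, hA, hG⟩ ⟨x, y⟩ ⟨-, hy⟩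
    obtain ⟨h1, h2, h3⟩ := hh.inv A hA y hy
    have hGf : (G : ℝ × F → ℝ × F) = fun p : ℝ × F => (p.1 + (j : ℝ), A p.2) := funext hG
    have hd : HasFDerivAt G ((ContinuousLinearMap.fst ℝ ℝ F).prod
        ((fderiv ℝ A y).comp (ContinuousLinearMap.snd ℝ ℝ F))) (x, y) := by
      rw [hGf]
      refine HasFDerivAt.prodMk ?_ ?_
      · exact (hasFDerivAt_fst (𝕜 := ℝ) (E := ℝ) (F := F) (p := (x, y))).add_const _
      · have h4 : HasFDerivAt A (fderiv ℝ A ((x, y) : ℝ × F).2) ((x, y) : ℝ × F).2 :=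
          h2.hasFDerivAt
        exact h4.comp (x, y) hasFDerivAt_snd
    refine ⟨by rw [hG]; exact ⟨trivial, h1⟩, hd.differentiableAt, fun v hv w hw => ?_⟩
    rw [hd.fderiv, hG, warp_apply, warp_apply]
    simp only [ContinuousLinearMap.prod_apply, ContinuousLinearMap.coe_fst',
      ContinuousLinearMap.comp_apply, ContinuousLinearMap.coe_snd']
    rw [h3 v.2 (tan_snd hv) w.2 (tan_snd hw)]
    have e1 : a (x + j) = a x := by
      have := hap.int_mul j x
      rwa [mul_one] at this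
    have e2 : b (x + j) = b x := by
      have := hbp.int_mul j x
      rwa [mul_one] at this
    rw [e1, e2]

/-- The bilinear map `(t, B) ↦ t B(v₂, w₂)`. -/
def liftB (F : Type) [NormedAddCommGroup F] [NormedSpace ℝ F] :
    ℝ →L[ℝ] (F →L[ℝ] F →L[ℝ] ℝ) →L[ℝ] ((ℝ × F) →L[ℝ] (ℝ × F) →L[ℝ] ℝ) :=
  LinearMap.mkContinuous₂
    (LinearMap.mk₂ ℝ (fun (t : ℝ) (B : F →L[ℝ] F →L[ℝ] ℝ) =>
      B.bilinearComp (t • ContinuousLinearMap.snd ℝ ℝ F) (ContinuousLinearMap.snd ℝ ℝ F))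
      (fun t t' B => by
        refine ContinuousLinearMap.ext fun v => ContinuousLinearMap.ext fun w => ?_
        simp [add_mul])
      (fun c t B => by
        refine ContinuousLinearMap.ext fun v => ContinuousLinearMap.ext fun w => ?_
        simp [mul_assoc])
      (fun t B B' => by
        refine ContinuousLinearMap.ext fun v => ContinuousLinearMap.ext fun w => ?_
        simp)
      (fun c t B => by
        refine ContinuousLinearMap.ext fun v => ContinuousLinearMap.ext fun w => ?_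
        simp
        ring)) 1 (fun t B => by
      refine ContinuousLinearMap.opNorm_le_bound _ (by positivity) fun v => ?_
      refine ContinuousLinearMap.opNorm_le_bound _ (by positivity) fun w => ?_
      have h1 : ‖B v.2 w.2‖ ≤ ‖B‖ * ‖v.2‖ * ‖w.2‖ := B.le_opNorm₂ _ _
      have h2 : ‖v.2‖ ≤ ‖v‖ := norm_snd_le v
      have h3 : ‖w.2‖ ≤ ‖w‖ := norm_snd_le w
      simp only [LinearMap.mk₂_apply, ContinuousLinearMap.bilinearComp_apply, smul_apply,
        ContinuousLinearMap.coe_snd', map_smul, norm_smul, one_mul]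
      calc ‖t‖ * ‖B v.2 w.2‖ ≤ ‖t‖ * (‖B‖ * ‖v.2‖ * ‖w.2‖) := by gcongr
        _ ≤ ‖t‖ * (‖B‖ * ‖v‖ * ‖w‖) := by gcongr
        _ = ‖t‖ * ‖B‖ * ‖v‖ * ‖w‖ := by ring)

theorem liftB_apply (t : ℝ) (B : F →L[ℝ] F →L[ℝ] ℝ) (v w : ℝ × F) :
    liftB F t B v w = t * B v.2 w.2 := by
  simp [liftB]

/-- Closeness of the fibre metrics gives closeness of the warped products. -/
theorem warp_close {k : ℕ∞} {a b : ℝ → ℝ} (hb : ContDiff ℝ k b) {K : Set (ℝ × F)}
    (hK : IsCompact K) {n : ℕ} (hn : (n : ℕ∞) ≤ k) {ε : ℝ} (hε : 0 < ε) :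
    ∃ δ > 0, ∀ h h' : F → F →L[ℝ] F →L[ℝ] ℝ, ContDiff ℝ k h → ContDiff ℝ k h' →
      CloseOn n (Prod.snd '' K) δ h' h → CloseOn n K ε (warp a b h') (warp a b h) := by
  have hb' : ContDiff ℝ k fun p : ℝ × F => b p.1 := hb.comp contDiff_fst
  have hbd : ∀ i ∈ Finset.range (n + 1), ∃ M, ∀ p ∈ K,
      ‖iteratedFDeriv ℝ i (fun p : ℝ × F => b p.1) p‖ ≤ M := by
    intro i hi
    have hin : i ≤ n := Nat.lt_succ_iff.1 (Finset.mem_range.1 hi)
    have hc : Continuous (iteratedFDeriv ℝ i fun p : ℝ × F => b p.1) :=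
      hb'.continuous_iteratedFDeriv (by
        have : (i : ℕ∞) ≤ k := le_trans (by exact_mod_cast hin) hn
        exact_mod_cast this)
    obtain ⟨M, hM⟩ := (hK.image hc).isBounded.exists_norm_le
    exact ⟨M, fun p hp => hM _ (mem_image_of_mem _ hp)⟩
  choose! M hM using hbd
  set C : ℝ := 1 + ∑ j ∈ Finset.range (n + 1), ‖liftB F‖ *
    ∑ i ∈ Finset.range (j + 1), (j.choose i : ℝ) * |M i| with hC
  have hC0 : 0 < C := by
    rw [hC]
    positivity
  refine ⟨ε / C, by positivity, fun h h' hh hh' hcl j hj p hp => ?_⟩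
  set D : F → F →L[ℝ] F →L[ℝ] ℝ := fun q => h' q - h q with hD
  have hDC : ContDiff ℝ k D := hh'.sub hh
  have hfun : (fun q => warp a b h' q - warp a b h q) = fun q : ℝ × F =>
      liftB F (b q.1) (D q.2) := by
    funext q
    refine ContinuousLinearMap.ext fun v => ContinuousLinearMap.ext fun w => ?_
    rw [liftB_apply]
    simp only [sub_apply, warp_apply, hD]
    ring
  have hjk : (j : ℕ∞) ≤ k := le_trans (by exact_mod_cast hj) hn
  have hjk' : (j : WithTop ℕ∞) ≤ ((k : ℕ∞) : WithTop ℕ∞) := by exact_mod_cast hjk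
  have hD2 : ContDiff ℝ k fun q : ℝ × F => D q.2 := hDC.comp contDiff_snd
  rw [hfun]
  have hbound := (liftB F).norm_iteratedFDeriv_le_of_bilinear hb' hD2 p hjk'
  have hDj : ∀ i ≤ n, ‖iteratedFDeriv ℝ i (fun q : ℝ × F => D q.2) p‖ ≤ ε / C := by
    intro i hi
    have hik : (i : WithTop ℕ∞) ≤ ((k : ℕ∞) : WithTop ℕ∞) := by
      have : (i : ℕ∞) ≤ k := le_trans (by exact_mod_cast hi) hn
      exact_mod_cast this
    have h1 := (ContinuousLinearMap.snd ℝ ℝ F).iteratedFDeriv_comp_right (f := D) hDC p hik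
    have h2 : (D ∘ (ContinuousLinearMap.snd ℝ ℝ F) : ℝ × F → _) = fun q : ℝ × F => D q.2 := rfl
    rw [h2] at h1
    rw [h1]
    refine (ContinuousMultilinearMap.norm_compContinuousLinearMap_le _ _).trans ?_
    have h3 : ∏ _i : Fin i, ‖ContinuousLinearMap.snd ℝ ℝ F‖ ≤ 1 := by
      refine Finset.prod_le_one (fun _ _ => norm_nonneg _) fun _ _ =>
        ContinuousLinearMap.norm_snd_le ℝ ℝ F
    have h4 := (hcl i hi p.2 (mem_image_of_mem _ hp)).le
    calc _ ≤ ‖iteratedFDeriv ℝ i D p.2‖ * 1 := by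
          exact mul_le_mul_of_nonneg_left h3 (norm_nonneg _)
      _ ≤ ε / C := by rw [mul_one]; exact h4
  have hsum : ‖liftB F‖ * ∑ i ∈ Finset.range (j + 1), (j.choose i : ℝ) *
      ‖iteratedFDeriv ℝ i (fun q : ℝ × F => b q.1) p‖ *
      ‖iteratedFDeriv ℝ (j - i) (fun q : ℝ × F => D q.2) p‖ ≤
      (‖liftB F‖ * ∑ i ∈ Finset.range (j + 1), (j.choose i : ℝ) * |M i|) * (ε / C) := by
    rw [mul_assoc, Finset.sum_mul]
    refine mul_le_mul_of_nonneg_left (Finset.sum_le_sum fun i hi => ?_)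
      (ContinuousLinearMap.opNorm_nonneg (liftB F))
    have hij : i ≤ j := Nat.lt_succ_iff.1 (Finset.mem_range.1 hi)
    have h1 := (hM i (Finset.mem_range.2 (by omega)) p hp).trans (le_abs_self _)
    have h2 := hDj (j - i) (by omega)
    gcongr
  have hlt : (‖liftB F‖ * ∑ i ∈ Finset.range (j + 1), (j.choose i : ℝ) * |M i|) < C := by
    have h1 : (‖liftB F‖ * ∑ i ∈ Finset.range (j + 1), (j.choose i : ℝ) * |M i|) ≤
        ∑ j ∈ Finset.range (n + 1), ‖liftB F‖ *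
          ∑ i ∈ Finset.range (j + 1), (j.choose i : ℝ) * |M i| :=
      Finset.single_le_sum (f := fun j => ‖liftB F‖ *
        ∑ i ∈ Finset.range (j + 1), (j.choose i : ℝ) * |M i|)
        (fun j _ => by positivity) (Finset.mem_range.2 (by omega))
    rw [hC]
    linarith
  calc _ ≤ _ := hbound
    _ ≤ _ := hsum
    _ < C * (ε / C) := mul_lt_mul_of_pos_right hlt (by positivity)
    _ = ε := by field_simp

/-- **Limits are preserved by warping over the circle.** -/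
theorem warp_limit {k : ℕ∞} (hk : 2 ≤ k) {a b : ℝ → ℝ} (ha : ContDiff ℝ k a)
    (hb : ContDiff ℝ k b) (hap : Function.Periodic a 1) (hbp : Function.Periodic b 1)
    (ha0 : ∀ x, 0 < a x) (hb0 : ∀ x, 0 < b x) {N : Set F} {Γ : Subgroup (Equiv.Perm F)}
    {h : F → F →L[ℝ] F →L[ℝ] ℝ} (hh : ContDiff ℝ k h)
    (hN : ∀ y ∈ N, ∃ v ∈ tangentConeAt ℝ N y, v ≠ 0) (hlim : IsLimit k N Γ h) :
    IsLimit k (univ ×ˢ N) (prodGroup Γ) (warp a b h) := by
  intro K hK n hn ε hε
  obtain ⟨δ, hδ, hcl⟩ := warp_close (a := a) hb hK hn (half_pos hε)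
  obtain ⟨h', hh', hD, hc'⟩ := hlim (Prod.snd '' K) (hK.image continuous_snd) n hn δ hδ
  have hc1 := hcl h h' hh hh'.smooth hc'
  have hk2 : (2 : WithTop ℕ∞) ≤ ((k : ℕ∞) : WithTop ℕ∞) := two_le_coe hk
  obtain ⟨B, hB, hdense⟩ := warp_dense (ha.of_le hk2) (hb.of_le hk2) hap hbp ha0 hb0
  set G : ℝ → (ℝ × F) → (ℝ × F) →L[ℝ] (ℝ × F) →L[ℝ] ℝ := fun s =>
    warp (fun x => a x * (b x + s) / b x) (fun x => b x + s) h' with hG
  have hb2 : ContDiff ℝ k fun z : ℝ × ℝ => b z.2 := hb.comp contDiff_snd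
  have ha2 : ContDiff ℝ k fun z : ℝ × ℝ => a z.2 := ha.comp contDiff_snd
  have hfam : ContDiff ℝ k fun z : ℝ × (ℝ × F) => G z.1 z.2 :=
    warp_family (P := ℝ) (a := fun s x => a x * (b x + s) / b x) (b := fun s x => b x + s)
      (h := fun _ => h') ((ha2.mul (hb2.add contDiff_fst)).div hb2 fun z => (hb0 z.2).ne')
      (hb2.add contDiff_fst) (hh'.smooth.comp contDiff_snd)
  have hG0 : G 0 = warp a b h' := by
    simp only [hG, add_zero]
    congr 1
    funext x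
    have := (hb0 x).ne'
    field_simp
  have hev := close_of_family hfam hK hn (half_pos hε)
  rw [hG0] at hev
  obtain ⟨m, hm, hbm⟩ := per_pos hb.continuous hbp hb0
  have hev2 : ∀ᶠ s in 𝓝 (0 : ℝ), -m < s := lt_mem_nhds (by linarith)
  obtain ⟨s, hsB, hs1, hs2⟩ := exists_not_mem_countable hB (hev.and hev2)
  have hbs : ∀ x, 0 < b x + s := fun x => by linarith [hbm x]
  have hasC : ContDiff ℝ k fun x => a x * (b x + s) / b x :=
    (ha.mul (hb.add contDiff_const)).div hb fun x => (hb0 x).ne'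
  have hbsC : ContDiff ℝ k fun x => b x + s := hb.add contDiff_const
  have hmet : IsMetric k (univ ×ˢ N) (prodGroup Γ) (G s) := by
    refine warp_isMetric hasC hbsC (fun x => ?_) (fun x => ?_) (fun x => ?_) hbs hh'
    · simp only
      rw [hap x, hbp x]
    · simp only
      rw [hbp x]
    · exact div_pos (mul_pos (ha0 x) (hbs x)) (hb0 x)
  refine ⟨G s, hmet, hdense s hsB hbs F N h' Γ (hh'.smooth.of_le ((by norm_num : (1 : WithTop ℕ∞)
    ≤ 2).trans hk2)) hh'.pos hN hD, fun j hj p hp => ?_⟩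
  have hjk : (j : WithTop ℕ∞) ≤ ((k : ℕ∞) : WithTop ℕ∞) := by
    have : (j : ℕ∞) ≤ k := le_trans (by exact_mod_cast hj) hn
    exact_mod_cast this
  have e1 := hs1 j hj p hp
  have e2 := hc1 j hj p hp
  have c1 : ContDiff ℝ k fun q => G s q - warp a b h' q :=
    hmet.smooth.sub (warp_contDiff ha hb hh'.smooth)
  have c2 : ContDiff ℝ k fun q => warp a b h' q - warp a b h q :=
    (warp_contDiff ha hb hh'.smooth).sub (warp_contDiff ha hb hh)
  have hsum : (fun q => G s q - warp a b h q) = (fun q => G s q - warp a b h' q) +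
      fun q => warp a b h' q - warp a b h q := by
    funext q
    simp
  rw [hsum, iteratedFDeriv_add_apply (c1.contDiffAt.of_le hjk) (c2.contDiffAt.of_le hjk)]
  calc _ ≤ _ + _ := norm_add_le _ _
    _ < ε / 2 + ε / 2 := add_lt_add e1 e2
    _ = ε := by ring

end warp

end Pool.Agent.CGD
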