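import Mathlib
import Pool.Agent.CGD.Geo

/-!
# Pull back of metrics (helper82)
-/

noncomputable section

open Set Filter Topology Metric MeasureTheory
open scoped NNReal ContDiff

namespace Pool.Agent.CGD

variable {F₁ F₂ : Type*} [NormedAddCommGroup F₁] [NormedSpace ℝ F₁] [NormedAddCommGroup F₂]
  [NormedSpace ℝ F₂]

/-- The pull back of the metric `g` under `Φ`. -/
def pull (Φ : F₁ → F₂) (g : F₂ → F₂ →L[ℝ] F₂ →L[ℝ] ℝ) (q : F₁) : F₁ →L[ℝ] F₁ →L[ℝ] ℝ :=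
  (g (Φ q)).bilinearComp (fderiv ℝ Φ q) (fderiv ℝ Φ q)

@[simp] theorem pull_apply (Φ : F₁ → F₂) (g : F₂ → F₂ →L[ℝ] F₂ →L[ℝ] ℝ) (q v w : F₁) :
    pull Φ g q v w = g (Φ q) (fderiv ℝ Φ q v) (fderiv ℝ Φ q w) := rfl

/-- A curve whose image is a geodesic is a geodesic of the pulled back metric. -/
theorem pull_geodesic {Φ : F₁ → F₂} (hΦ : ContDiff ℝ 2 Φ) {g : F₂ → F₂ →L[ℝ] F₂ →L[ℝ] ℝ}
    (hg : Differentiable ℝ g) (hsymm : ∀ p v w, g p v w = g p w v) {γ : ℝ → F₁}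
    (hγ : Differentiable ℝ γ) (hgeo : IsGeodesic univ g (Φ ∘ γ)) :
    IsGeodesic univ (pull Φ g) γ := by
  have hdΦ : Differentiable ℝ Φ := hΦ.differentiable (by norm_num)
  have hdΦ' : Differentiable ℝ (fderiv ℝ Φ) :=
    (hΦ.fderiv_right (m := 1) (by norm_num)).differentiable (by norm_num)
  obtain ⟨h1, -, h2, h3⟩ := hgeo
  have hd : ∀ t, deriv (Φ ∘ γ) t = fderiv ℝ Φ (γ t) (deriv γ t) := fun t =>
    ((hdΦ (γ t)).hasFDerivAt.comp_hasDerivAt t (hγ t).hasDerivAt).deriv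
  set ϖ : ℝ → F₂ →L[ℝ] ℝ := fun r => g ((Φ ∘ γ) r) (deriv (Φ ∘ γ) r) with hϖ
  have hfun : (fun r => pull Φ g (γ r) (deriv γ r)) = fun r =>
      (ϖ r).comp (fderiv ℝ Φ (γ r)) := by
    funext r
    refine ContinuousLinearMap.ext fun e => ?_
    simp only [pull_apply, hϖ, hd, ContinuousLinearMap.comp_apply, Function.comp_apply]
  have hmom : ∀ t, HasDerivAt (fun r => pull Φ g (γ r) (deriv γ r))
      ((deriv ϖ t).comp (fderiv ℝ Φ (γ t)) +
        (ϖ t).comp (fderiv ℝ (fderiv ℝ Φ) (γ t) (deriv γ t))) t := by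
    intro t
    rw [hfun]
    have e1 : HasDerivAt (fun r => fderiv ℝ Φ (γ r)) (fderiv ℝ (fderiv ℝ Φ) (γ t) (deriv γ t)) t :=
      (hdΦ' (γ t)).hasFDerivAt.comp_hasDerivAt t (hγ t).hasDerivAt
    exact (h2 t).hasDerivAt.clm_comp e1
  refine ⟨hγ, fun t => trivial, fun t => (hmom t).differentiableAt, fun t e _ => ?_⟩
  rw [(hmom t).deriv]
  have hel := h3 t (fderiv ℝ Φ (γ t) e) (by rw [tangentConeAt_univ]; trivial)
  have hs2 : ∀ v w, fderiv ℝ (fderiv ℝ Φ) (γ t) v w = fderiv ℝ (fderiv ℝ Φ) (γ t) w v := by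
    intro v w
    exact (hΦ.contDiffAt.isSymmSndFDerivAt (by simp)) v w
  simp only [add_apply, ContinuousLinearMap.comp_apply]
  rw [hel]
  -- the derivative of the pulled back form
  set v := deriv γ t with hv
  set q := γ t with hq
  have hA : HasFDerivAt (fun p => fderiv ℝ Φ p v) ((fderiv ℝ (fderiv ℝ Φ) q).flip v) q := by
    have := (hdΦ' q).hasFDerivAt.clm_apply (hasFDerivAt_const v q)
    simpa using this
  have hgΦ : HasFDerivAt (fun p => g (Φ p)) ((fderiv ℝ g (Φ q)).comp (fderiv ℝ Φ q)) q := by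
    have h0 := HasFDerivAt.comp (g := g) q (hg (Φ q)).hasFDerivAt (hdΦ q).hasFDerivAt
    exact h0
  have h5 := (hgΦ.clm_apply hA).clm_apply hA
  have h6 : (fun p => pull Φ g p v v) = fun p => g (Φ p) (fderiv ℝ Φ p v) (fderiv ℝ Φ p v) := rfl
  rw [h6, h5.fderiv]
  have h7 : fderiv ℝ (fun p => g p (deriv (Φ ∘ γ) t) (deriv (Φ ∘ γ) t)) ((Φ ∘ γ) t)
      (fderiv ℝ Φ q e) = fderiv ℝ g (Φ q) (fderiv ℝ Φ q e) (fderiv ℝ Φ q v) (fderiv ℝ Φ q v) := by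
    have h8 := ((hg (Φ q)).hasFDerivAt.clm_apply
      (hasFDerivAt_const (fderiv ℝ Φ q v) (Φ q))).clm_apply
      (hasFDerivAt_const (fderiv ℝ Φ q v) (Φ q))
    rw [hd t]
    show fderiv ℝ (fun p => g p (fderiv ℝ Φ q v) (fderiv ℝ Φ q v)) (Φ q) (fderiv ℝ Φ q e) = _
    rw [h8.fderiv]
    simp
  rw [h7]
  have h9 : ϖ t = g (Φ q) (fderiv ℝ Φ q v) := by
    simp only [hϖ, hd t]
    rfl
  rw [h9]
  simp only [add_apply, ContinuousLinearMap.comp_apply, ContinuousLinearMap.flip_apply]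
  rw [hs2 v e, hsymm (Φ q) (fderiv ℝ (fderiv ℝ Φ) q e v) (fderiv ℝ Φ q v)]
  ring

/-- Transport of the density of closed geodesic directions under a diffeomorphism. -/
theorem dense_pull (Φ : F₁ ≃ F₂) (hΦ : ContDiff ℝ 2 Φ) (hΦ' : ContDiff ℝ 2 Φ.symm)
    {g : F₂ → F₂ →L[ℝ] F₂ →L[ℝ] ℝ} (hg : Differentiable ℝ g)
    (hsymm : ∀ p v w, g p v w = g p w v) {Γ₁ : Subgroup (Equiv.Perm F₁)}
    {Γ₂ : Subgroup (Equiv.Perm F₂)}
    (hΓ : ∀ B ∈ Γ₂, ∃ A ∈ Γ₁, ∀ p, A (Φ.symm p) = Φ.symm (B p))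
    (hD : DenseClosed univ g Γ₂) : DenseClosed univ (pull Φ g) Γ₁ := by
  have hdΦ : Differentiable ℝ Φ := hΦ.differentiable (by norm_num)
  have hdΦ' : Differentiable ℝ Φ.symm := hΦ'.differentiable (by norm_num)
  have hinv : ∀ p v, fderiv ℝ Φ.symm (Φ p) (fderiv ℝ Φ p v) = v := by
    intro p v
    have h1 := (hdΦ' (Φ p)).hasFDerivAt.comp p (hdΦ p).hasFDerivAt
    have h2 : (Φ.symm ∘ Φ : F₁ → F₁) = id := by funext q; simp
    rw [h2] at h1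
    have := h1.unique (hasFDerivAt_id p)
    have h3 := congrArg (fun L => L v) this
    simpa using h3
  have hinv' : ∀ p v, fderiv ℝ Φ (Φ.symm p) (fderiv ℝ Φ.symm p v) = v := by
    intro p v
    have h1 := (hdΦ (Φ.symm p)).hasFDerivAt.comp p (hdΦ' p).hasFDerivAt
    have h2 : (Φ ∘ Φ.symm : F₂ → F₂) = id := by funext q; simp
    rw [h2] at h1
    have := h1.unique (hasFDerivAt_id p)
    have h3 := congrArg (fun L => L v) this
    simpa using h3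
  set Θ : F₂ × F₂ → F₁ × F₁ := fun z => (Φ.symm z.1, fderiv ℝ Φ.symm z.1 z.2) with hΘ
  have hΘc : Continuous Θ := by
    have h1 : Continuous fun z : F₂ × F₂ => fderiv ℝ Φ.symm z.1 :=
      (hΦ'.continuous_fderiv (by norm_num)).comp continuous_fst
    exact (hΦ'.continuous.comp continuous_fst).prodMk (h1.clm_apply continuous_snd)
  rintro ⟨p, v⟩ ⟨-, -, hu⟩
  have hu' : (Φ p, fderiv ℝ Φ p v) ∈ unitBundle univ g :=
    ⟨trivial, by rw [tangentConeAt_univ]; trivial, hu⟩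
  have hcl := hD hu'
  have himg : (p, v) = Θ (Φ p, fderiv ℝ Φ p v) := by
    simp only [hΘ, hinv, Equiv.symm_apply_apply]
  rw [himg]
  refine map_mem_closure hΘc hcl ?_
  rintro _ ⟨γ, ⟨hγ, hγ1, T, hT, B, hB, hγT⟩, t, rfl⟩
  have hγd : Differentiable ℝ (Φ.symm ∘ γ) := hdΦ'.comp hγ.1
  have hγd' : ∀ r, deriv (Φ.symm ∘ γ) r = fderiv ℝ Φ.symm (γ r) (deriv γ r) := fun r =>
    ((hdΦ' (γ r)).hasFDerivAt.comp_hasDerivAt r (hγ.1 r).hasDerivAt).deriv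
  have hcomp : (Φ ∘ (Φ.symm ∘ γ) : ℝ → F₂) = γ := by funext r; simp
  obtain ⟨A, hA, hAB⟩ := hΓ B hB
  refine ⟨Φ.symm ∘ γ, ⟨pull_geodesic hΦ hg hsymm hγd (by rw [hcomp]; exact hγ), fun r => ?_,
    T, hT, A, hA, fun r => ?_⟩, t, ?_⟩
  · rw [pull_apply, hγd']
    simp only [Function.comp_apply, Equiv.apply_symm_apply, hinv']
    exact hγ1 r
  · simp only [Function.comp_apply]
    rw [hγT, hAB]
  · simp only [hΘ, hγd', Function.comp_apply]

end Pool.Agent.CGD
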