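import Mathlib
import Pool.Agent.CGD.Dens
import Pool.Agent.CGD.Pull
import Pool.Agent.CGD.Smooth

/-!
# Flat fibres, and metrics with mixed terms (helper82)
-/

noncomputable section

open Set Filter Topology Metric MeasureTheory
open scoped NNReal ContDiff

namespace Pool.Agent.CGD

variable {V : Type*} [NormedAddCommGroup V] [NormedSpace ℝ V]

/-- The group of translations by the elements of `Λ`. -/
def lattGroup (Λ : AddSubgroup V) : Subgroup (Equiv.Perm V) where
  carrier := {σ | ∃ v ∈ Λ, ∀ x, σ x = x + v}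
  mul_mem' := by
    rintro σ τ ⟨v, hv, h⟩ ⟨w, hw, h'⟩
    exact ⟨w + v, Λ.add_mem hw hv, fun x => by rw [Equiv.Perm.mul_apply, h', h, add_assoc]⟩
  one_mem' := ⟨0, Λ.zero_mem, fun x => by simp⟩
  inv_mem' := by
    rintro σ ⟨v, hv, h⟩
    refine ⟨-v, Λ.neg_mem hv, fun x => ?_⟩
    rw [Equiv.Perm.inv_def, Equiv.symm_apply_eq, h]
    simp

/-- The deck group with twist `α`. -/
def twistGroup (Λ : AddSubgroup V) (α : V) : Subgroup (Equiv.Perm (ℝ × V)) where
  carrier := {σ | ∃ j : ℤ, ∃ v ∈ Λ, ∀ p, σ p = (p.1 + j, p.2 + v + j • α)}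
  mul_mem' := by
    rintro σ τ ⟨j, v, hv, h⟩ ⟨j', w, hw, h'⟩
    refine ⟨j' + j, w + v, Λ.add_mem hw hv, fun p => ?_⟩
    rw [Equiv.Perm.mul_apply, h', h, Prod.mk.injEq]
    constructor
    · push_cast; ring
    · simp only [add_smul]
      abel
  one_mem' := ⟨0, 0, Λ.zero_mem, fun p => by simp⟩
  inv_mem' := by
    rintro σ ⟨j, v, hv, h⟩
    refine ⟨-j, -v, Λ.neg_mem hv, fun p => ?_⟩
    rw [Equiv.Perm.inv_def, Equiv.symm_apply_eq, h]
    ext
    · simp
    · simp only [neg_smul]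
      abel

/-- Straight lines are geodesics of a constant metric. -/
theorem line_geodesic (h₀ : V →L[ℝ] V →L[ℝ] ℝ) (y w : V) :
    IsGeodesic univ (fun _ => h₀) (fun t : ℝ => y + t • w) ∧
      ∀ t, deriv (fun t : ℝ => y + t • w) t = w := by
  have hd : ∀ t : ℝ, HasDerivAt (fun t : ℝ => y + t • w) w t := by
    intro t
    have := ((hasDerivAt_id t).smul_const w).const_add y
    simpa using this
  have hd' : ∀ t : ℝ, deriv (fun t : ℝ => y + t • w) t = w := fun t => (hd t).deriv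
  refine ⟨⟨fun t => (hd t).differentiableAt, fun t => trivial, ?_, ?_⟩, hd'⟩
  · simp only [hd']
    exact differentiable_const _
  · intro t e _
    simp only [hd']
    simp

/-- Geodesics of the flat torus, of rational direction, are dense. -/
theorem flat_dense {Λ : AddSubgroup V} (hΛ : Dense {v : V | ∃ n : ℕ, 0 < n ∧ n • v ∈ Λ})
    {h₀ : V →L[ℝ] V →L[ℝ] ℝ} :
    DenseClosed univ (fun _ => h₀) (lattGroup Λ) := by
  rintro ⟨y, w⟩ ⟨-, -, hw⟩
  rw [Metric.mem_closure_iff]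
  intro ε hε
  have hw0 : 0 < h₀ w w := by
    have : h₀ w w = 1 := hw
    rw [this]; exact one_pos
  have hc : ContinuousAt (fun r : V => (1 / √(h₀ r r)) • r) w := by
    have h1 : Continuous fun r : V => h₀ r r := by fun_prop
    have h2 : √(h₀ w w) ≠ 0 := (Real.sqrt_pos.2 hw0).ne'
    have h3 : ContinuousAt (fun r : V => √(h₀ r r)) w := (h1.sqrt).continuousAt
    exact (continuousAt_const.div h3 h2).smul continuousAt_id
  have hval : (1 / √(h₀ w w)) • w = w := by
    have : h₀ w w = 1 := hw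
    rw [this]; simp
  have hev1 : ∀ᶠ r in 𝓝 w, dist ((1 / √(h₀ r r)) • r) w < ε := by
    have := Metric.tendsto_nhds.1 hc ε hε
    simp only [hval] at this
    exact this
  have hev2 : ∀ᶠ r in 𝓝 w, 0 < h₀ r r := by
    have h1 : Continuous fun r : V => h₀ r r := by fun_prop
    exact h1.continuousAt.eventually_const_lt hw0
  obtain ⟨U, hU, hUo, hwU⟩ := _root_.eventually_nhds_iff.1 (hev1.and hev2)
  obtain ⟨r, ⟨n, hn, hnr⟩, hr⟩ := hΛ.exists_mem_open hUo ⟨w, hwU⟩
  obtain ⟨h1, h2⟩ := hU r hr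
  set K := √(h₀ r r) with hK
  have hK0 : 0 < K := Real.sqrt_pos.2 h2
  obtain ⟨hgeo, hder⟩ := line_geodesic h₀ y ((1 / K) • r)
  refine ⟨(y, (1 / K) • r), ⟨fun t => y + t • ((1 / K) • r), ⟨hgeo, fun t => ?_, n * K,
    by positivity, Equiv.addRight (n • r), ⟨n • r, hnr, fun x => rfl⟩, fun t => ?_⟩, 0, ?_⟩, ?_⟩
  · rw [hder]
    simp only [map_smul, smul_apply, smul_eq_mul]
    have := Real.sq_sqrt h2.le
    rw [← hK] at this
    field_simp
    linarith
  · simp only [Equiv.coe_addRight]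
    rw [smul_smul, smul_smul, ← Nat.cast_smul_eq_nsmul ℝ n r, add_assoc, ← add_smul]
    congr 2
    field_simp
  · rw [hder]; simp
  · rw [Prod.dist_eq]
    simp only [dist_self]
    refine max_lt hε ?_
    rw [dist_comm]
    exact h1

/-- Rotating motions over a flat fibre, with twist. -/
theorem flat_rotDense {Λ : AddSubgroup V} (hΛ : Dense {v : V | ∃ n : ℕ, 0 < n ∧ n • v ∈ Λ})
    {h₀ : V →L[ℝ] V →L[ℝ] ℝ} (α : V) (j : ℤ) :
    RotDense univ (fun _ => h₀) (twistGroup Λ α) j := by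
  rintro f₁ f₂ h0 h12 ⟨y, w⟩ ⟨-, -, hw⟩
  rw [Metric.mem_closure_iff]
  intro ε hε
  have hw1 : h₀ w w = 1 := hw
  set K₀ := (f₁ + f₂) / 2 with hK₀
  have hK₀0 : 0 < K₀ := by rw [hK₀]; linarith
  set z₀ : V := K₀ • w with hz₀
  have hz₀0 : h₀ z₀ z₀ = K₀ ^ 2 := by
    rw [hz₀]
    simp only [map_smul, smul_apply, smul_eq_mul, hw1]
    ring
  have hsq : √(h₀ z₀ z₀) = K₀ := by rw [hz₀0]; exact Real.sqrt_sq hK₀0.le
  have hcs : Continuous fun z : V => √(h₀ z z) := by fun_prop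
  have hc : ContinuousAt (fun z : V => (1 / √(h₀ z z)) • z) z₀ :=
    (continuousAt_const.div hcs.continuousAt (by rw [hsq]; exact hK₀0.ne')).smul continuousAt_id
  have hval : (1 / √(h₀ z₀ z₀)) • z₀ = w := by
    rw [hsq, hz₀, smul_smul, one_div, inv_mul_cancel₀ hK₀0.ne', one_smul]
  have hev1 : ∀ᶠ z in 𝓝 z₀, dist ((1 / √(h₀ z z)) • z) w < ε := by
    have := Metric.tendsto_nhds.1 hc ε hε
    simp only [hval] at this
    exact this
  have hev2 : ∀ᶠ z in 𝓝 z₀, √(h₀ z z) ∈ Ioo f₁ f₂ := by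
    have h1 : Tendsto (fun z : V => √(h₀ z z)) (𝓝 z₀) (𝓝 K₀) := by
      have := hcs.tendsto z₀
      rwa [hsq] at this
    exact h1.eventually (Ioo_mem_nhds (by linarith) (by linarith))
  have htr : Tendsto (fun r : V => r + j • α) (𝓝 (z₀ - j • α)) (𝓝 z₀) := by
    have : Continuous fun r : V => r + j • α := by fun_prop
    have h1 := this.tendsto (z₀ - j • α)
    simpa using h1
  obtain ⟨U, hU, hUo, hwU⟩ := _root_.eventually_nhds_iff.1 (htr.eventually (hev1.and hev2))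
  obtain ⟨r, ⟨n, hn, hnr⟩, hr⟩ := hΛ.exists_mem_open hUo ⟨_, hwU⟩
  obtain ⟨h1, h2⟩ := hU r hr
  set z : V := r + j • α with hz
  set K := √(h₀ z z) with hK
  have hK0 : 0 < K := h0.trans h2.1
  have hzz : 0 < h₀ z z := Real.sqrt_pos.1 hK0
  obtain ⟨hgeo, hder⟩ := line_geodesic h₀ y ((1 / K) • z)
  refine ⟨(y, (1 / K) • z), ⟨fun t => y + t • ((1 / K) • z), 0, hgeo, fun t => ?_, ?_, K, h2,
    n, hn, Equiv.addRight (n • z), fun t => ?_, n * j, n • r, hnr, fun p => ?_⟩, ?_⟩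
  · rw [hder]
    simp only [map_smul, smul_apply, smul_eq_mul]
    have := Real.sq_sqrt hzz.le
    rw [← hK] at this
    field_simp
    linarith
  · rw [hder]; simp
  · simp only [Equiv.coe_addRight]
    rw [smul_smul, smul_smul, ← Nat.cast_smul_eq_nsmul ℝ n z, add_assoc, ← add_smul]
    congr 2
    field_simp
  · simp only [shiftPerm, Equiv.coe_fn_mk, Equiv.coe_addRight, hz, smul_add, Prod.mk.injEq]
    refine ⟨trivial, ?_⟩
    rw [← add_assoc, mul_smul, natCast_zsmul]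
  · rw [Prod.dist_eq]
    simp only [dist_self]
    refine max_lt hε ?_
    rw [dist_comm]
    exact h1

/-- The metric `a(x) dx² + b(x) h₀(dy + β(x) dx)`. -/
def shearForm (a b : ℝ → ℝ) (β : ℝ → V) (h₀ : V →L[ℝ] V →L[ℝ] ℝ) (p : ℝ × V) :
    (ℝ × V) →L[ℝ] (ℝ × V) →L[ℝ] ℝ :=
  a p.1 • (ContinuousLinearMap.mul ℝ ℝ).bilinearComp (ContinuousLinearMap.fst ℝ ℝ V)
    (ContinuousLinearMap.fst ℝ ℝ V) +
  b p.1 • h₀.bilinearComp
    (ContinuousLinearMap.snd ℝ ℝ V + (ContinuousLinearMap.fst ℝ ℝ V).smulRight (β p.1))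
    (ContinuousLinearMap.snd ℝ ℝ V + (ContinuousLinearMap.fst ℝ ℝ V).smulRight (β p.1))

@[simp] theorem shearForm_apply (a b : ℝ → ℝ) (β : ℝ → V) (h₀ : V →L[ℝ] V →L[ℝ] ℝ)
    (p v w : ℝ × V) :
    shearForm a b β h₀ p v w = a p.1 * (v.1 * w.1) +
      b p.1 * h₀ (v.2 + v.1 • β p.1) (w.2 + w.1 • β p.1) := by
  simp [shearForm]

/-- **Metrics with mixed terms.** -/
theorem shear_dense {a b : ℝ → ℝ} (ha : ContDiff ℝ 2 a) (hb : ContDiff ℝ 2 b)
    (hap : Function.Periodic a 1) (hbp : Function.Periodic b 1) (ha0 : ∀ x, 0 < a x)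
    (hb0 : ∀ x, 0 < b x) :
    ∃ B : Set ℝ, B.Countable ∧ ∀ s ∉ B, (∀ x, 0 < b x + s) →
      ∀ (V : Type*) [NormedAddCommGroup V] [NormedSpace ℝ V] [CompleteSpace V] [Nontrivial V]
      (β : ℝ → V) (h₀ : V →L[ℝ] V →L[ℝ] ℝ) (Λ : AddSubgroup V),
      ContDiff ℝ 1 β → Function.Periodic β 1 → (∀ v w, h₀ v w = h₀ w v) →
      (∀ v, v ≠ 0 → 0 < h₀ v v) → Dense {v : V | ∃ n : ℕ, 0 < n ∧ n • v ∈ Λ} →
      DenseClosed univ (shearForm (fun x => a x * (b x + s) / b x) (fun x => b x + s) β h₀)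
        (prodGroup (lattGroup Λ)) := by
  obtain ⟨B, hB, h⟩ := warp_dense' ha hb hap hbp ha0 hb0
  refine ⟨B, hB, fun s hs1 hs2 V _ _ _ _ β h₀ Λ hβ hβp hsymm hpos hΛ => ?_⟩
  -- the shear
  set Sh : ℝ → V := fun x => ∫ t in (0:ℝ)..x, β t with hSh
  have hβc := hβ.continuous
  have hShd : ∀ x, HasDerivAt Sh (β x) x := fun x =>
    intervalIntegral.integral_hasDerivAt_right (hβc.intervalIntegrable _ _)
      (hβc.stronglyMeasurableAtFilter _ _) hβc.continuousAt
  have hShC : ContDiff ℝ 2 Sh := by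
    rw [show (2 : WithTop ℕ∞) = 1 + 1 by norm_num, contDiff_succ_iff_deriv]
    refine ⟨fun x => (hShd x).differentiableAt, by simp, ?_⟩
    have : deriv Sh = β := funext fun x => (hShd x).deriv
    rw [this]; exact hβ
  have hShp : ∀ (j : ℤ) (x : ℝ), Sh (x + j) = Sh x + j • Sh 1 := by
    have h1 : ∀ x, Sh (x + 1) = Sh x + Sh 1 := by
      intro x
      have hd : ∀ x, HasDerivAt (fun x => Sh (x + 1) - Sh x) 0 x := by
        intro x
        have h1 := ((hShd (x + 1)).comp_add_const x 1).fun_sub (hShd x)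
        rw [hβp, sub_self] at h1
        exact h1
      have := is_const_of_deriv_eq_zero (fun t => (hd t).differentiableAt)
        (fun t => (hd t).deriv) x 0
      have h0 : Sh 0 = 0 := by simp [hSh]
      simp only [zero_add, h0, sub_zero] at this
      rw [← this]
      abel
    intro j x
    induction j using Int.induction_on with
    | zero => simp
    | succ i ih =>
      have h2 := h1 (x + i)
      push_cast at ih ⊢
      rw [← add_assoc, h2, ih, add_smul, one_smul, add_assoc]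
    | pred i ih =>
      have h2 := h1 (x + (-(i:ℝ) - 1))
      rw [show x + (-(i:ℝ) - 1) + 1 = x + -(i:ℝ) by ring] at h2
      push_cast at ih ⊢
      rw [ih] at h2
      rw [sub_smul, one_smul]
      have h3 : Sh (x + (-(i:ℝ) - 1)) = Sh x + (-(i:ℤ)) • Sh 1 - Sh 1 := by
        rw [h2]; abel
      rw [h3]
      abel
  set Φ : (ℝ × V) ≃ (ℝ × V) :=
    { toFun := fun p => (p.1, p.2 + Sh p.1)
      invFun := fun p => (p.1, p.2 - Sh p.1)
      left_inv := fun p => by simp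
      right_inv := fun p => by simp } with hΦ
  have hΦC : ContDiff ℝ 2 Φ :=
    contDiff_fst.prodMk (contDiff_snd.add (hShC.comp contDiff_fst))
  have hΦC' : ContDiff ℝ 2 Φ.symm :=
    contDiff_fst.prodMk (contDiff_snd.sub (hShC.comp contDiff_fst))
  have hΦd : ∀ p v, fderiv ℝ Φ p v = (v.1, v.2 + v.1 • β p.1) := by
    intro p v
    have h1 : HasFDerivAt (fun p : ℝ × V => Sh p.1)
        (((1 : ℝ →L[ℝ] ℝ).smulRight (β p.1)).comp (ContinuousLinearMap.fst ℝ ℝ V)) p :=
      ((hShd p.1).hasFDerivAt).comp p hasFDerivAt_fst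
    have h2 : HasFDerivAt Φ ((ContinuousLinearMap.fst ℝ ℝ V).prod
        (ContinuousLinearMap.snd ℝ ℝ V +
          ((1 : ℝ →L[ℝ] ℝ).smulRight (β p.1)).comp (ContinuousLinearMap.fst ℝ ℝ V))) p :=
      hasFDerivAt_fst.prodMk (hasFDerivAt_snd.add h1)
    rw [h2.fderiv]
    simp
  have hdense := h s hs1 hs2 V univ (fun _ => h₀) (lattGroup Λ) (twistGroup Λ (Sh 1))
    contDiff_const (fun y _ v _ hv => hpos v hv)
    (fun y _ => by
      obtain ⟨v, hv⟩ := exists_ne (0 : V)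
      exact ⟨v, by rw [tangentConeAt_univ]; trivial, hv⟩)
    (flat_dense hΛ)
    (by
      rintro A ⟨v, hv, hA⟩
      exact ⟨0, v, hv, fun p => by simp [shiftPerm, hA]⟩)
    (flat_rotDense hΛ (Sh 1) 1) (flat_rotDense hΛ (Sh 1) (-1))
  rw [univ_prod_univ] at hdense
  have hb1 : ContDiff ℝ 1 b := hb.of_le (by norm_num)
  have ha1 : ContDiff ℝ 1 a := ha.of_le (by norm_num)
  have hdiff : Differentiable ℝ (warp (F := V) (fun x => a x * (b x + s) / b x)
      (fun x => b x + s) fun _ => h₀) := by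
    have e1 : ContDiff ℝ 1 fun x => a x * (b x + s) / b x :=
      (ha1.mul (hb1.add contDiff_const)).div hb1 fun x => (hb0 x).ne'
    exact (warp_contDiff e1 (hb1.add contDiff_const) contDiff_const).differentiable (by simp)
  have hws : ∀ p v w, warp (F := V) (fun x => a x * (b x + s) / b x)
      (fun x => b x + s) (fun _ => h₀) p v w = warp (F := V) (fun x => a x * (b x + s) / b x)
      (fun x => b x + s) (fun _ => h₀) p w v := by
    intro p v w
    simp only [warp_apply]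
    rw [hsymm v.2 w.2, mul_comm v.1 w.1]
  have hres := dense_pull Φ hΦC hΦC' hdiff hws (Γ₁ := prodGroup (lattGroup Λ))
    (Γ₂ := twistGroup Λ (Sh 1)) (by
      rintro G ⟨j, v, hv, hG⟩
      refine ⟨shiftPerm j (Equiv.addRight v), ⟨j, Equiv.addRight v, ⟨v, hv, fun x => rfl⟩,
        fun p => rfl⟩, fun p => ?_⟩
      rw [hG]
      show (p.1 + (j : ℝ), p.2 - Sh p.1 + v) =
        (p.1 + (j : ℝ), p.2 + v + j • Sh 1 - Sh (p.1 + j))
      rw [hShp]
      congr 1
      abel) hdense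
  have hform : pull Φ (warp (F := V) (fun x => a x * (b x + s) / b x)
      (fun x => b x + s) fun _ => h₀) =
      shearForm (fun x => a x * (b x + s) / b x) (fun x => b x + s) β h₀ := by
    funext p
    refine ContinuousLinearMap.ext fun v => ContinuousLinearMap.ext fun w => ?_
    rw [pull_apply, warp_apply, shearForm_apply, hΦd, hΦd]
    rfl
  rw [hform] at hres
  exact hres

end Pool.Agent.CGD
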