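import Mathlib
import Pool.Agent.CGD.Flat

/-!
# Iterated warped products on the torus `ℝⁿ / ℤⁿ` (helper82)
-/

noncomputable section

open Set Filter Topology Metric MeasureTheory
open scoped NNReal ContDiff

namespace Pool.Agent.CGD

theorem DenseClosed.mono {F : Type*} [NormedAddCommGroup F] [NormedSpace ℝ F] {N : Set F}
    {g : F → F →L[ℝ] F →L[ℝ] ℝ} {Γ Γ' : Subgroup (Equiv.Perm F)} (hΓ : Γ ≤ Γ')
    (h : DenseClosed N g Γ) : DenseClosed N g Γ' := by
  refine h.trans (closure_mono ?_)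
  rintro _ ⟨γ, ⟨h1, h2, T, hT, A, hA, h3⟩, t, rfl⟩
  exact ⟨γ, ⟨h1, h2, T, hT, A, hΓ hA, h3⟩, t, rfl⟩

/-- The metric `a(x) dx²` on the line. -/
def lineForm (a : ℝ → ℝ) (x : ℝ) : ℝ →L[ℝ] ℝ →L[ℝ] ℝ := a x • ContinuousLinearMap.mul ℝ ℝ

@[simp] theorem lineForm_apply (a : ℝ → ℝ) (x v w : ℝ) : lineForm a x v w = a x * (v * w) := by
  simp [lineForm]

theorem lineForm_contDiff {k : WithTop ℕ∞} {a : ℝ → ℝ} (ha : ContDiff ℝ k a) :
    ContDiff ℝ k (lineForm a) := by
  have he : lineForm a = fun x => (ContinuousLinearMap.mul ℝ ℝ).bilinearComp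
      (a x • ContinuousLinearMap.id ℝ ℝ) (ContinuousLinearMap.id ℝ ℝ) := by
    funext x
    refine ContinuousLinearMap.ext fun v => ContinuousLinearMap.ext fun w => ?_
    simp
    ring
  rw [he]
  exact contDiff_bilinearComp contDiff_const (ha.smul contDiff_const) contDiff_const

/-- The integer translations of the line. -/
def lineGroup : Subgroup (Equiv.Perm ℝ) := lattGroup (AddSubgroup.zmultiples (1 : ℝ))

/-- All geodesics of a metric on the circle are closed. -/
theorem line_dense {a : ℝ → ℝ} (ha : ContDiff ℝ 1 a) (hap : Function.Periodic a 1)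
    (ha0 : ∀ x, 0 < a x) : DenseClosed univ (lineForm a) lineGroup := by
  have hda : Differentiable ℝ a := ha.differentiable (by norm_num)
  have hsq : ∀ x, √(a x) ≠ 0 := fun x => (Real.sqrt_pos.2 (ha0 x)).ne'
  have key : ∀ (κ : ℝ), κ ^ 2 = 1 → ∀ x : ℝ, (x, κ / √(a x)) ∈
      closedVectors univ (lineForm a) lineGroup := by
    intro κ hκ x
    have hκ0 : κ ≠ 0 := by
      rintro rfl
      norm_num at hκ
    have hκ1 : κ = 1 ∨ κ = -1 := mul_self_eq_one_iff.1 (by rw [← sq]; exact hκ)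
    set Y : ℝ → ℝ := fun t => κ * t with hY
    set Z : ℝ → ℝ := fun t => κ / √(a (Y t)) with hZ
    set μ : ℝ → ℝ := fun t => √(a (Y t)) with hμ
    have hYd : ∀ t, HasDerivAt Y κ t := fun t => by
      simpa using (hasDerivAt_id t).const_mul κ
    have hYc : Continuous Y := by fun_prop
    have hμc : Continuous μ := (hda.continuous.comp hYc).sqrt
    have hμ0 : ∀ t, 0 < μ t := fun t => Real.sqrt_pos.2 (ha0 _)
    have hμ2 : ∀ t, μ t ^ 2 = a (Y t) := fun t => Real.sq_sqrt (ha0 _).le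
    have hμd : ∀ t, HasDerivAt μ (deriv a (Y t) * κ / (2 * μ t)) t := by
      intro t
      have h1 : HasDerivAt (fun t => a (Y t)) (deriv a (Y t) * κ) t :=
        (hda (Y t)).hasDerivAt.comp t (hYd t)
      exact h1.sqrt (ha0 _).ne'
    set ζ : ℝ → ℝ →L[ℝ] ℝ := fun t => (deriv a (Y t) / (2 * a (Y t))) •
      ContinuousLinearMap.id ℝ ℝ with hζ
    have h1 : ∀ t, HasDerivAt (fun r => lineForm a (Y r) (Z r)) (μ t • ζ t) t := by
      intro t
      have hfun : (fun r => lineForm a (Y r) (Z r)) =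
          fun r => (κ * μ r) • ContinuousLinearMap.id ℝ ℝ := by
        funext r
        refine ContinuousLinearMap.ext fun e => ?_
        have e1 := (hμ0 r).ne'
        simp only [lineForm_apply, hZ, smul_apply, ContinuousLinearMap.id_apply, smul_eq_mul,
          ← hμ2]
        have e2 : √(μ r ^ 2) = μ r := Real.sqrt_sq (hμ0 r).le
        rw [e2]
        field_simp
      rw [hfun]
      have h2 := ((hμd t).const_mul κ).smul_const (ContinuousLinearMap.id ℝ ℝ)
      refine h2.congr_deriv ?_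
      refine ContinuousLinearMap.ext fun e => ?_
      have e1 := (hμ0 t).ne'
      simp only [hζ, smul_apply, ContinuousLinearMap.id_apply, smul_eq_mul, ← hμ2]
      field_simp
      linear_combination (deriv a (Y t) * e) * hκ
    have hres := reparam (N := univ) (g := lineForm a) (Γ := lineGroup) (Y := Y) (Z := Z)
      (ζ := ζ) hμc hμ0 (fun _ => trivial) (fun t => by
        have := hYd t
        refine this.congr_deriv ?_
        have e1 := (hμ0 t).ne'
        show κ = μ t * (κ / μ t)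
        field_simp) h1 (fun t e _ => by
        have hfd : fderiv ℝ (fun p => lineForm a p (Z t) (Z t)) (Y t) e =
            deriv a (Y t) * e * (Z t * Z t) := by
          simp only [lineForm_apply]
          have h3 : HasFDerivAt a _ (Y t) := (hda (Y t)).hasDerivAt.hasFDerivAt
          rw [(h3.mul_const (Z t * Z t)).fderiv]
          simp
          ring
        rw [hfd]
        have e1 := (hμ0 t).ne'
        have e2 : √(μ t ^ 2) = μ t := Real.sqrt_sq (hμ0 t).le
        simp only [hζ, hZ, smul_apply, ContinuousLinearMap.id_apply, smul_eq_mul, ← hμ2, e2]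
        field_simp
        linear_combination (-deriv a (Y t) * e) * hκ) (fun t => by
        have e1 := (hμ0 t).ne'
        have e2 : √(μ t ^ 2) = μ t := Real.sqrt_sq (hμ0 t).le
        simp only [lineForm_apply, hZ, ← hμ2, e2]
        field_simp
        exact hκ) (P := 1) one_pos (A := Equiv.addRight κ) (by
        refine ⟨κ, ?_, fun x => rfl⟩
        rcases hκ1 with h | h
        · exact AddSubgroup.mem_zmultiples_iff.2 ⟨1, by rw [h]; simp⟩
        · exact AddSubgroup.mem_zmultiples_iff.2 ⟨-1, by rw [h]; simp⟩) (fun t => by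
        simp only [hY, Equiv.coe_addRight]
        ring) (fun t => by
        show √(a (κ * (t + 1))) = √(a (κ * t))
        rcases hκ1 with h | h
        · rw [h, show (1 : ℝ) * (t + 1) = 1 * t + 1 by ring, hap]
        · rw [h, show (-1 : ℝ) * (t + 1) = -1 * t - 1 by ring, hap.sub_eq]) (x / κ)
    have hYx : Y (x / κ) = x := by
      simp only [hY]
      field_simp
    have hZx : Z (x / κ) = κ / √(a x) := by
      simp only [hZ, hYx]
    rw [hYx, hZx] at hres
    exact hres
  rintro ⟨x, v⟩ ⟨-, -, hu⟩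
  simp only [lineForm_apply] at hu
  have h2 : (v * √(a x)) ^ 2 = 1 := by
    rw [mul_pow, Real.sq_sqrt (ha0 x).le]
    linarith
  have h3 := key (v * √(a x)) h2 x
  rw [mul_div_assoc, div_self (hsq x), mul_one] at h3
  exact subset_closure h3

/-- The lattice `ℤⁿ`. -/
def zLatt (n : ℕ) : AddSubgroup (Fin n → ℝ) where
  carrier := {v | ∀ i, ∃ m : ℤ, v i = m}
  add_mem' := by
    intro v w hv hw i
    obtain ⟨m, hm⟩ := hv i
    obtain ⟨k, hk⟩ := hw i
    exact ⟨m + k, by rw [Pi.add_apply, hm, hk]; push_cast; ring⟩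
  zero_mem' := fun i => ⟨0, by simp⟩
  neg_mem' := by
    intro v hv i
    obtain ⟨m, hm⟩ := hv i
    exact ⟨-m, by rw [Pi.neg_apply, hm]; push_cast; ring⟩

/-- The form `dxᵢ²` on `ℝⁿ`. -/
def coordForm {n : ℕ} (i : Fin n) : (Fin n → ℝ) →L[ℝ] (Fin n → ℝ) →L[ℝ] ℝ :=
  (ContinuousLinearMap.mul ℝ ℝ).bilinearComp (ContinuousLinearMap.proj i)
    (ContinuousLinearMap.proj i)

/-- The coefficient `b₀(x₀) ... b_{i-1}(x_{i-1}) aᵢ(xᵢ)`. -/
def nestCoef {n : ℕ} (a b : Fin n → ℝ → ℝ) (p : Fin n → ℝ) (i : Fin n) : ℝ :=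
  (∏ j ∈ Finset.Iio i, b j (p j)) * a i (p i)

/-- The iterated warped product
`a₀(x₀) dx₀² + b₀(x₀) (a₁(x₁) dx₁² + b₁(x₁) (a₂(x₂) dx₂² + ...))` on `ℝⁿ`. -/
def nested {n : ℕ} (a b : Fin n → ℝ → ℝ) (p : Fin n → ℝ) :
    (Fin n → ℝ) →L[ℝ] (Fin n → ℝ) →L[ℝ] ℝ :=
  ∑ i, nestCoef a b p i • coordForm i

@[simp] theorem nested_apply {n : ℕ} (a b : Fin n → ℝ → ℝ) (p v w : Fin n → ℝ) :
    nested a b p v w = ∑ i, ((∏ j ∈ Finset.Iio i, b j (p j)) * a i (p i)) * (v i * w i) := by
  simp [nested, nestCoef, coordForm]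

/-- Splitting off the first coordinate. -/
def splitEquiv (n : ℕ) : (Fin (n + 1) → ℝ) ≃ ℝ × (Fin n → ℝ) where
  toFun p := (p 0, fun i => p i.succ)
  invFun q := Fin.cons q.1 q.2
  left_inv p := by
    funext i
    refine Fin.cases ?_ (fun j => ?_) i
    · simp
    · simp
  right_inv q := by simp

theorem prod_Iio_succ {n : ℕ} (f : Fin (n + 1) → ℝ) (i : Fin n) :
    ∏ j ∈ Finset.Iio i.succ, f j = f 0 * ∏ j ∈ Finset.Iio i, f j.succ := by
  have h : ∀ {m : ℕ} (g : Fin m → ℝ) (k : Fin m), ∏ j ∈ Finset.Iio k, g j =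
      ∏ j, if j < k then g j else 1 := by
    intro m g k
    rw [← Finset.prod_filter]
    congr 1
    ext j
    simp
  rw [h, h, Fin.prod_univ_succ]
  simp

theorem nested_pos {n : ℕ} {a b : Fin n → ℝ → ℝ} (ha0 : ∀ i x, 0 < a i x)
    (hb0 : ∀ i x, 0 < b i x) (p v : Fin n → ℝ) (hv : v ≠ 0) : 0 < nested a b p v v := by
  rw [nested_apply]
  obtain ⟨i, hi⟩ := Function.ne_iff.1 hv
  have hc : ∀ i, 0 < (∏ j ∈ Finset.Iio i, b j (p j)) * a i (p i) := fun i =>
    mul_pos (Finset.prod_pos fun j _ => hb0 j _) (ha0 i _)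
  refine Finset.sum_pos' (fun j _ => mul_nonneg (hc j).le (mul_self_nonneg _))
    ⟨i, Finset.mem_univ i, mul_pos (hc i) (mul_self_pos.2 hi)⟩

theorem nested_symm {n : ℕ} (a b : Fin n → ℝ → ℝ) (p v w : Fin n → ℝ) :
    nested a b p v w = nested a b p w v := by
  simp only [nested_apply]
  exact Finset.sum_congr rfl fun i _ => by rw [mul_comm (v i)]

theorem nested_family {P : Type*} [NormedAddCommGroup P] [NormedSpace ℝ P] {k : WithTop ℕ∞}
    {n : ℕ} {a b : P → Fin n → ℝ → ℝ}
    (ha : ∀ i, ContDiff ℝ k fun z : P × ℝ => a z.1 i z.2)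
    (hb : ∀ i, ContDiff ℝ k fun z : P × ℝ => b z.1 i z.2) :
    ContDiff ℝ k fun z : P × (Fin n → ℝ) => nested (a z.1) (b z.1) z.2 := by
  have pr : ∀ i : Fin n, ContDiff ℝ k fun z : P × (Fin n → ℝ) => (z.1, z.2 i) := fun i =>
    contDiff_fst.prodMk ((contDiff_apply ℝ ℝ i).comp contDiff_snd)
  have ha' : ∀ i, ContDiff ℝ k fun z : P × (Fin n → ℝ) => a z.1 i (z.2 i) := fun i =>
    (ha i).comp (pr i)
  have hb' : ∀ i, ContDiff ℝ k fun z : P × (Fin n → ℝ) => b z.1 i (z.2 i) := fun i =>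
    (hb i).comp (pr i)
  have h1 : ∀ i, ContDiff ℝ k fun z : P × (Fin n → ℝ) =>
      (∏ j ∈ Finset.Iio i, b z.1 j (z.2 j)) * a z.1 i (z.2 i) := fun i =>
    (contDiff_prod fun j _ => hb' j).mul (ha' i)
  have he : (fun z : P × (Fin n → ℝ) => nested (a z.1) (b z.1) z.2) = fun z =>
      ∑ i, (ContinuousLinearMap.mul ℝ ℝ).bilinearComp
        (((∏ j ∈ Finset.Iio i, b z.1 j (z.2 j)) * a z.1 i (z.2 i)) •
          (ContinuousLinearMap.proj i : (Fin n → ℝ) →L[ℝ] ℝ)) (ContinuousLinearMap.proj i) := by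
    funext z
    refine ContinuousLinearMap.ext fun v => ContinuousLinearMap.ext fun w => ?_
    simp only [nested_apply, sum_apply, ContinuousLinearMap.bilinearComp_apply,
      smul_apply, ContinuousLinearMap.proj_apply, smul_eq_mul, ContinuousLinearMap.mul_apply']
    exact Finset.sum_congr rfl fun i _ => by ring
  rw [he]
  exact ContDiff.sum fun i _ => contDiff_bilinearComp contDiff_const
    ((h1 i).smul contDiff_const) contDiff_const

theorem nested_contDiff {k : WithTop ℕ∞} {n : ℕ} {a b : Fin n → ℝ → ℝ}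
    (ha : ∀ i, ContDiff ℝ k (a i)) (hb : ∀ i, ContDiff ℝ k (b i)) :
    ContDiff ℝ k (nested a b) := by
  have ha' : ∀ i, ContDiff ℝ k fun z : ℝ × ℝ => a i z.2 := fun i => (ha i).comp contDiff_snd
  have hb' : ∀ i, ContDiff ℝ k fun z : ℝ × ℝ => b i z.2 := fun i => (hb i).comp contDiff_snd
  have h : ContDiff ℝ k fun z : ℝ × (Fin n → ℝ) => nested a b z.2 :=
    nested_family (P := ℝ) (k := k) (a := fun _ => a) (b := fun _ => b) ha' hb'
  have h2 : ContDiff ℝ k fun p : Fin n → ℝ => ((0 : ℝ), p) := contDiff_const.prodMk contDiff_id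
  have h3 : nested a b = (fun z : ℝ × (Fin n → ℝ) => nested a b z.2) ∘ fun p => ((0 : ℝ), p) := by
    funext p
    rfl
  rw [h3]
  exact ContDiff.comp h h2

/-- The shifted coefficients. -/
def shA {n : ℕ} (a b : Fin n → ℝ → ℝ) (s : Fin n → ℝ) (i : Fin n) (x : ℝ) : ℝ :=
  a i x * (b i x + s i) / b i x

/-- The shifted coefficients. -/
def shB {n : ℕ} (b : Fin n → ℝ → ℝ) (s : Fin n → ℝ) (i : Fin n) (x : ℝ) : ℝ := b i x + s i

/-- **Iterated warped products on tori.** -/
theorem nested_dense (n : ℕ) : ∀ {a b : Fin (n + 1) → ℝ → ℝ}, (∀ i, ContDiff ℝ 2 (a i)) →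
    (∀ i, ContDiff ℝ 2 (b i)) → (∀ i, Function.Periodic (a i) 1) →
    (∀ i, Function.Periodic (b i) 1) → (∀ i x, 0 < a i x) → (∀ i x, 0 < b i x) →
    ∃ B : Fin (n + 1) → Set ℝ, (∀ i, (B i).Countable) ∧ ∀ s : Fin (n + 1) → ℝ,
      (∀ i, s i ∉ B i) → (∀ i x, 0 < b i x + s i) →
      DenseClosed univ (nested (shA a b s) (shB b s)) (lattGroup (zLatt (n + 1))) := by
  induction n with
  | zero =>
    intro a b ha hb hap hbp ha0 hb0
    refine ⟨fun _ => ∅, fun _ => countable_empty, fun s _ hs => ?_⟩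
    set A := shA a b s 0 with hA
    have hAC : ContDiff ℝ 1 A :=
      (((ha 0).mul ((hb 0).add contDiff_const)).div (hb 0) fun x => (hb0 0 x).ne').of_le
        (by norm_num)
    have hAp : Function.Periodic A 1 := by
      intro x
      simp only [hA, shA]
      rw [hap 0 x, hbp 0 x]
    have hA0 : ∀ x, 0 < A x := fun x => div_pos (mul_pos (ha0 0 x) (hs 0 x)) (hb0 0 x)
    have hline := line_dense hAC hAp hA0
    set Φ : (Fin 1 → ℝ) ≃ ℝ := Equiv.funUnique (Fin 1) ℝ with hΦ
    have hL : ∀ p, Φ p = ContinuousLinearMap.proj (R := ℝ) (φ := fun _ : Fin 1 => ℝ) 0 p :=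
      fun p => rfl
    have hΦC : ContDiff ℝ 2 Φ := contDiff_apply ℝ ℝ (0 : Fin 1)
    have hΦC' : ContDiff ℝ 2 Φ.symm := by
      rw [contDiff_pi]
      intro i
      exact contDiff_id
    have hd : Differentiable ℝ (lineForm A) := by
      have h1 : ContDiff ℝ 1 (lineForm A) := by
        have h2 := lineForm_contDiff hAC
        exact h2
      exact h1.differentiable (by norm_num)
    have hfd : ∀ p v, fderiv ℝ Φ p v = v 0 := by
      intro p v
      have h1 : HasFDerivAt Φ (ContinuousLinearMap.proj (R := ℝ) (φ := fun _ : Fin 1 => ℝ) 0) p :=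
        (ContinuousLinearMap.proj (R := ℝ) (φ := fun _ : Fin 1 => ℝ) 0).hasFDerivAt
      rw [h1.fderiv]
      rfl
    have hres := dense_pull Φ hΦC hΦC' hd (fun p v w => by
      simp only [lineForm_apply]; rw [mul_comm v]) (Γ₁ := lattGroup (zLatt 1))
      (Γ₂ := lineGroup) (by
        rintro B ⟨v, hv, hB⟩
        obtain ⟨m, hm⟩ := AddSubgroup.mem_zmultiples_iff.1 hv
        refine ⟨Equiv.addRight (fun _ => v), ⟨fun _ => v, fun i => ⟨m, by rw [← hm]; simp⟩,
          fun x => rfl⟩, fun p => ?_⟩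
        rw [hB]
        rfl) hline
    have hform : pull Φ (lineForm A) = nested (shA a b s) (shB b s) := by
      funext p
      refine ContinuousLinearMap.ext fun v => ContinuousLinearMap.ext fun w => ?_
      rw [pull_apply, lineForm_apply, nested_apply, hfd, hfd, Fin.sum_univ_succ,
        Fin.sum_univ_zero, add_zero]
      rw [show Finset.Iio (0 : Fin 1) = ∅ by rfl, Finset.prod_empty, one_mul]
      rfl
    rw [← hform]
    exact hres
  | succ n ih =>
    intro a b ha hb hap hbp ha0 hb0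
    obtain ⟨B₀, hB₀, hw⟩ := warp_dense (ha 0) (hb 0) (hap 0) (hbp 0) (ha0 0) (hb0 0)
    obtain ⟨B₁, hB₁, hn⟩ := ih (a := fun i => a i.succ) (b := fun i => b i.succ)
      (fun i => ha _) (fun i => hb _) (fun i => hap _) (fun i => hbp _) (fun i => ha0 _)
      (fun i => hb0 _)
    refine ⟨Fin.cons B₀ B₁, ?_, fun s hs1 hs2 => ?_⟩
    · intro i
      refine Fin.cases ?_ (fun j => ?_) i
      · simpa using hB₀
      · simpa using hB₁ j
    set a' : Fin (n + 1) → ℝ → ℝ := fun i => a i.succ with ha'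
    set b' : Fin (n + 1) → ℝ → ℝ := fun i => b i.succ with hb'
    set s' : Fin (n + 1) → ℝ := fun i => s i.succ with hs'
    have hfib := hn s' (fun i => by have := hs1 i.succ; simpa using this) fun i x => hs2 _ x
    set h := nested (shA a' b' s') (shB b' s') with hh
    have hAC : ∀ i, ContDiff ℝ 2 (shA a b s i) := fun i =>
      ((ha i).mul ((hb i).add contDiff_const)).div (hb i) fun x => (hb0 i x).ne'
    have hBC : ∀ i, ContDiff ℝ 2 (shB b s i) := fun i => (hb i).add contDiff_const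
    have hA0 : ∀ i x, 0 < shA a b s i x := fun i x =>
      div_pos (mul_pos (ha0 i x) (hs2 i x)) (hb0 i x)
    have hhC : ContDiff ℝ 2 h := nested_contDiff (fun i => hAC i.succ) fun i => hBC i.succ
    have hhpos : ∀ y v, v ≠ 0 → 0 < h y v v := fun y v hv =>
      nested_pos (fun i x => hA0 i.succ x) (fun i x => hs2 i.succ x) y v hv
    have hwd := hw (s 0) (by have := hs1 0; simpa using this) (hs2 0) (Fin (n + 1) → ℝ) univ h
      (lattGroup (zLatt (n + 1))) (hhC.of_le (by norm_num)) (fun y _ v _ hv => hhpos y v hv)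
      (fun y _ => ⟨fun _ => 1, by rw [tangentConeAt_univ]; trivial, fun h0 => by
        have := congrFun h0 0
        simp at this⟩) hfib
    rw [univ_prod_univ] at hwd
    set Φ : (Fin (n + 2) → ℝ) ≃ ℝ × (Fin (n + 1) → ℝ) := splitEquiv (n + 1) with hΦ
    set L : (Fin (n + 2) → ℝ) →L[ℝ] ℝ × (Fin (n + 1) → ℝ) :=
      (ContinuousLinearMap.proj (R := ℝ) (φ := fun _ : Fin (n + 2) => ℝ) 0).prod
        (ContinuousLinearMap.pi fun i : Fin (n + 1) => ContinuousLinearMap.proj (R := ℝ)
          (φ := fun _ : Fin (n + 2) => ℝ) i.succ) with hL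
    have hΦL : ∀ p, Φ p = L p := fun p => rfl
    have hΦC : ContDiff ℝ 2 Φ := L.contDiff
    have hΦC' : ContDiff ℝ 2 Φ.symm := by
      rw [contDiff_pi]
      intro i
      refine Fin.cases ?_ (fun j => ?_) i
      · exact contDiff_fst
      · exact (contDiff_apply ℝ ℝ j).comp contDiff_snd
    have hfd : ∀ p v, fderiv ℝ Φ p v = (v 0, fun i => v i.succ) := by
      intro p v
      have h1 : HasFDerivAt Φ L p := L.hasFDerivAt
      rw [h1.fderiv]
      rfl
    have hdw : Differentiable ℝ (warp (F := Fin (n + 1) → ℝ)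
        (fun x => a 0 x * (b 0 x + s 0) / b 0 x) (fun x => b 0 x + s 0) h) :=
      (warp_contDiff (hAC 0) (hBC 0) hhC).differentiable (by norm_num)
    have hres := dense_pull Φ hΦC hΦC' hdw (fun p v w => by
      simp only [warp_apply]
      rw [mul_comm v.1, hh, nested_symm]) (Γ₁ := lattGroup (zLatt (n + 2)))
      (Γ₂ := prodGroup (lattGroup (zLatt (n + 1)))) (by
        rintro G ⟨j, A, ⟨v, hv, hA⟩, hG⟩
        refine ⟨Equiv.addRight (Fin.cons (j : ℝ) v), ⟨Fin.cons (j : ℝ) v, fun i => ?_,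
          fun x => rfl⟩, fun p => ?_⟩
        · refine Fin.cases ?_ (fun k => ?_) i
          · exact ⟨j, by simp⟩
          · simpa using hv k
        · rw [hG, hA]
          funext i
          refine Fin.cases ?_ (fun k => ?_) i
          · rfl
          · rfl) hwd
    have hform : pull Φ (warp (F := Fin (n + 1) → ℝ)
        (fun x => a 0 x * (b 0 x + s 0) / b 0 x) (fun x => b 0 x + s 0) h) =
        nested (shA a b s) (shB b s) := by
      funext p
      refine ContinuousLinearMap.ext fun v => ContinuousLinearMap.ext fun w => ?_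
      have e2 : h (Φ p).2 (fun i => v i.succ) (fun i => w i.succ) = _ := nested_apply _ _ _ _ _
      rw [pull_apply, warp_apply, hfd, hfd, nested_apply (shA a b s), Fin.sum_univ_succ]
      simp only
      rw [e2, Finset.mul_sum]
      congr 1
      · rw [show Finset.Iio (0 : Fin (n + 2)) = ∅ by rfl, Finset.prod_empty, one_mul]
        rfl
      · refine Finset.sum_congr rfl fun i _ => ?_
        rw [prod_Iio_succ]
        simp only [shA, shB, ha', hb', hs', hΦ, splitEquiv, Equiv.coe_fn_mk]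
        ring
    rw [← hform]
    exact hres

end Pool.Agent.CGD
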