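import Mathlib
import Pool.Agent.CGD.Lim
import Pool.Agent.CGD.Nest

/-!
# Iterated warped products on tori are limits (helper82)
-/

set_option maxSynthPendingDepth 3

noncomputable section

open Set Filter Topology Metric MeasureTheory
open scoped ContDiff

namespace Pool.Agent.CGD

theorem coef_int {f : ℝ → ℝ} (hf : Function.Periodic f 1) (x : ℝ) (m : ℤ) : f (x + m) = f x := by
  have := hf.int_mul m x
  rwa [mul_one] at this

theorem translation_fderiv {F : Type*} [NormedAddCommGroup F] [NormedSpace ℝ F]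
    {A : Equiv.Perm F} {v : F} (hA : ∀ x, A x = x + v) (p : F) :
    HasFDerivAt A (ContinuousLinearMap.id ℝ F) p := by
  have hf : (A : F → F) = fun x => x + v := funext hA
  rw [hf]
  exact (hasFDerivAt_id p).add_const v

theorem nested_isMetric {k : ℕ∞} {n : ℕ} {a b : Fin n → ℝ → ℝ} (ha : ∀ i, ContDiff ℝ k (a i))
    (hb : ∀ i, ContDiff ℝ k (b i)) (hap : ∀ i, Function.Periodic (a i) 1)
    (hbp : ∀ i, Function.Periodic (b i) 1) (ha0 : ∀ i x, 0 < a i x) (hb0 : ∀ i x, 0 < b i x) :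
    IsMetric k univ (lattGroup (zLatt n)) (nested a b) where
  smooth := nested_contDiff ha hb
  symm := nested_symm a b
  pos := fun p _ v _ hv => nested_pos ha0 hb0 p v hv
  inv := by
    rintro A ⟨v, hv, hA⟩ p -
    have hd := translation_fderiv hA p
    refine ⟨trivial, hd.differentiableAt, fun u _ w _ => ?_⟩
    rw [hd.fderiv, hA, nested_apply, nested_apply]
    refine Finset.sum_congr rfl fun i _ => ?_
    have e1 : ∀ i, a i ((p + v) i) = a i (p i) := by
      intro i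
      obtain ⟨m, hm⟩ := hv i
      rw [Pi.add_apply, hm, coef_int (hap i)]
    have e2 : ∀ i, b i ((p + v) i) = b i (p i) := by
      intro i
      obtain ⟨m, hm⟩ := hv i
      rw [Pi.add_apply, hm, coef_int (hbp i)]
    simp only [e1, e2]
    rfl

/-- **Every iterated warped product on the torus is a limit.** -/
theorem nested_limit {k : ℕ∞} (hk : 2 ≤ k) (n : ℕ) {a b : Fin (n + 1) → ℝ → ℝ}
    (ha : ∀ i, ContDiff ℝ k (a i)) (hb : ∀ i, ContDiff ℝ k (b i))
    (hap : ∀ i, Function.Periodic (a i) 1) (hbp : ∀ i, Function.Periodic (b i) 1)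
    (ha0 : ∀ i x, 0 < a i x) (hb0 : ∀ i x, 0 < b i x) :
    IsLimit k univ (lattGroup (zLatt (n + 1))) (nested a b) := by
  intro K hK N hN ε hε
  have hk2 : (2 : WithTop ℕ∞) ≤ ((k : ℕ∞) : WithTop ℕ∞) := two_le_coe hk
  obtain ⟨B, hB, hdense⟩ := nested_dense n (fun i => (ha i).of_le hk2) (fun i => (hb i).of_le hk2)
    hap hbp ha0 hb0
  have hpr : ∀ i, ContDiff ℝ k fun z : (Fin (n + 1) → ℝ) × ℝ => z.1 i := fun i =>
    (contDiff_apply ℝ ℝ i).comp contDiff_fst
  have hb2 : ∀ i, ContDiff ℝ k fun z : (Fin (n + 1) → ℝ) × ℝ => b i z.2 := fun i =>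
    (hb i).comp contDiff_snd
  have ha2 : ∀ i, ContDiff ℝ k fun z : (Fin (n + 1) → ℝ) × ℝ => a i z.2 := fun i =>
    (ha i).comp contDiff_snd
  have hA : ∀ i, ContDiff ℝ k fun z : (Fin (n + 1) → ℝ) × ℝ => shA a b z.1 i z.2 := fun i =>
    ((ha2 i).mul ((hb2 i).add (hpr i))).div (hb2 i) fun z => (hb0 i z.2).ne'
  have hB' : ∀ i, ContDiff ℝ k fun z : (Fin (n + 1) → ℝ) × ℝ => shB b z.1 i z.2 := fun i =>
    (hb2 i).add (hpr i)
  have hfam : ContDiff ℝ k fun z : (Fin (n + 1) → ℝ) × (Fin (n + 1) → ℝ) =>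
      nested (shA a b z.1) (shB b z.1) z.2 :=
    nested_family (P := Fin (n + 1) → ℝ) (a := fun s => shA a b s) (b := fun s => shB b s) hA hB'
  have h0A : shA a b 0 = a := by
    funext i x
    have := (hb0 i x).ne'
    simp only [shA, Pi.zero_apply, add_zero]
    field_simp
  have h0B : shB b 0 = b := by
    funext i x
    simp only [shB, Pi.zero_apply, add_zero]
  have hfam0 : ContDiff ℝ k fun z : (Fin (n + 1) → ℝ) × (Fin (n + 1) → ℝ) => nested a b z.2 :=
    ContDiff.comp (g := nested a b) (nested_contDiff ha hb) contDiff_snd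
  have hev := close_family_le hK (hfam.sub hfam0) (fun p => by
    simp only [h0A, h0B, sub_self]) (n := N) (by exact_mod_cast hN) hε
  have hm : ∀ i, ∃ m > 0, ∀ x, m ≤ b i x := fun i => per_pos (hb i).continuous (hbp i) (hb0 i)
  choose m hm0 hmb using hm
  have hev2 : ∀ᶠ s in 𝓝 (0 : Fin (n + 1) → ℝ), ∀ i, -m i < s i := by
    rw [eventually_all]
    intro i
    have h1 : Tendsto (fun s : Fin (n + 1) → ℝ => s i) (𝓝 0) (𝓝 0) :=
      (continuous_apply i).tendsto 0
    exact h1.eventually (lt_mem_nhds (by linarith [hm0 i]))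
  obtain ⟨δ, hδ, hball⟩ := Metric.eventually_nhds_iff_ball.1 (hev.and hev2)
  have hex : ∀ i, ∃ s : ℝ, s ∉ B i ∧ |s| < δ / 2 := by
    intro i
    obtain ⟨s, h1, h2⟩ := ((hB i).dense_compl ℝ).exists_mem_open
      (isOpen_ball (x := (0 : ℝ)) (ε := δ / 2)) ⟨0, mem_ball_self (by positivity)⟩
    exact ⟨s, h1, by simpa [Real.dist_eq] using h2⟩
  choose s hs1 hs2 using hex
  have hsball : s ∈ ball (0 : Fin (n + 1) → ℝ) δ := by
    rw [mem_ball_zero_iff]
    exact ((pi_norm_le_iff_of_nonneg (by positivity)).2 fun i => (hs2 i).le).trans_lt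
      (by linarith)
  obtain ⟨h1, h2⟩ := hball s hsball
  have hbs : ∀ i x, 0 < b i x + s i := fun i x => by linarith [hmb i x, h2 i]
  refine ⟨nested (shA a b s) (shB b s), nested_isMetric (fun i => ?_) (fun i => ?_) (fun i x => ?_)
    (fun i x => ?_) (fun i x => ?_) hbs, hdense s hs1 hbs, h1⟩
  · exact ((ha i).mul ((hb i).add contDiff_const)).div (hb i) fun x => (hb0 i x).ne'
  · exact (hb i).add contDiff_const
  · simp only [shA]
    rw [hap i x, hbp i x]
  · simp only [shB]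
    rw [hbp i x]
  · exact div_pos (mul_pos (ha0 i x) (hbs i x)) (hb0 i x)

/-- The deck group `ℤⁿ` of the torus. -/
def torusGroup (n : ℕ) : Subgroup (Equiv.Perm (Fin n → ℝ)) := lattGroup (zLatt n)

/-- The closed geodesic directions of the metric `g` on `ℝⁿ / ℤⁿ` are dense. -/
def TorusDense {n : ℕ} (g : (Fin n → ℝ) → (Fin n → ℝ) →L[ℝ] (Fin n → ℝ) →L[ℝ] ℝ) : Prop :=
  DenseClosed univ g (torusGroup n)

/-- `g` is a metric of class `C^k` on the torus `ℝⁿ / ℤⁿ`. -/
def TorusMetric {n : ℕ} (k : ℕ∞) (g : (Fin n → ℝ) → (Fin n → ℝ) →L[ℝ] (Fin n → ℝ) →L[ℝ] ℝ) :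
    Prop := IsMetric k univ (torusGroup n) g

/-- `g` is a limit of metrics on the torus with dense closed geodesic directions. -/
def TorusLimit {n : ℕ} (k : ℕ∞) (g : (Fin n → ℝ) → (Fin n → ℝ) →L[ℝ] (Fin n → ℝ) →L[ℝ] ℝ) :
    Prop := IsLimit k univ (torusGroup n) g

end Pool.Agent.CGD
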