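import Mathlib
import Pool.Agent.CGD.NestLim

/-!
# Metrics with mixed terms are limits (helper82)
-/

set_option maxSynthPendingDepth 3

noncomputable section

open Set Filter Topology Metric MeasureTheory
open scoped ContDiff

namespace Pool.Agent.CGD

variable {V : Type} [NormedAddCommGroup V] [NormedSpace ℝ V]

theorem shear_family {k : WithTop ℕ∞} {a b : ℝ → ℝ → ℝ} {β : ℝ → V} {h₀ : V →L[ℝ] V →L[ℝ] ℝ}
    (ha : ContDiff ℝ k fun z : ℝ × ℝ => a z.1 z.2) (hb : ContDiff ℝ k fun z : ℝ × ℝ => b z.1 z.2)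
    (hβ : ContDiff ℝ k β) :
    ContDiff ℝ k fun z : ℝ × (ℝ × V) => shearForm (a z.1) (b z.1) β h₀ z.2 := by
  have p1 : ContDiff ℝ k fun z : ℝ × (ℝ × V) => (z.1, z.2.1) :=
    contDiff_fst.prodMk (contDiff_fst.comp contDiff_snd)
  have h1 : ContDiff ℝ k fun z : ℝ × (ℝ × V) => a z.1 z.2.1 := ha.comp p1
  have h2 : ContDiff ℝ k fun z : ℝ × (ℝ × V) => b z.1 z.2.1 := hb.comp p1
  have h3 : ContDiff ℝ k fun z : ℝ × (ℝ × V) => β z.2.1 :=
    hβ.comp (contDiff_fst.comp contDiff_snd)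
  have h4 : ContDiff ℝ k fun z : ℝ × (ℝ × V) =>
      ContinuousLinearMap.snd ℝ ℝ V + (ContinuousLinearMap.fst ℝ ℝ V).smulRight (β z.2.1) :=
    contDiff_const.add (((ContinuousLinearMap.smulRightL ℝ (ℝ × V) V
      (ContinuousLinearMap.fst ℝ ℝ V)).contDiff).comp h3)
  exact (h1.smul contDiff_const).add (h2.smul (contDiff_bilinearComp contDiff_const h4 h4))

theorem shear_contDiff {k : WithTop ℕ∞} {a b : ℝ → ℝ} {β : ℝ → V} {h₀ : V →L[ℝ] V →L[ℝ] ℝ}
    (ha : ContDiff ℝ k a) (hb : ContDiff ℝ k b) (hβ : ContDiff ℝ k β) :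
    ContDiff ℝ k (shearForm a b β h₀) := by
  have h : ContDiff ℝ k fun z : ℝ × (ℝ × V) => shearForm a b β h₀ z.2 :=
    shear_family (a := fun _ => a) (b := fun _ => b) (ha.comp contDiff_snd)
      (hb.comp contDiff_snd) hβ
  have h2 : ContDiff ℝ k fun p : ℝ × V => ((0 : ℝ), p) := contDiff_const.prodMk contDiff_id
  exact ContDiff.comp (g := fun z : ℝ × (ℝ × V) => shearForm a b β h₀ z.2) h h2

theorem shear_isMetric {k : ℕ∞} {a b : ℝ → ℝ} {β : ℝ → V} {h₀ : V →L[ℝ] V →L[ℝ] ℝ}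
    (ha : ContDiff ℝ k a) (hb : ContDiff ℝ k b) (hβ : ContDiff ℝ k β)
    (hap : Function.Periodic a 1) (hbp : Function.Periodic b 1) (hβp : Function.Periodic β 1)
    (ha0 : ∀ x, 0 < a x) (hb0 : ∀ x, 0 < b x) (hsymm : ∀ v w, h₀ v w = h₀ w v)
    (hpos : ∀ v, v ≠ 0 → 0 < h₀ v v) (Λ : AddSubgroup V) :
    IsMetric k univ (prodGroup (lattGroup Λ)) (shearForm a b β h₀) where
  smooth := shear_contDiff ha hb hβ
  symm := by
    intro p v w
    rw [shearForm_apply, shearForm_apply, hsymm, mul_comm v.1]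
  pos := by
    intro p _ v _ hv
    rw [shearForm_apply]
    have h1 := ha0 p.1
    have h2 := hb0 p.1
    have h3 := mul_self_nonneg v.1
    by_cases h : v.2 + v.1 • β p.1 = 0
    · have h4 : v.1 ≠ 0 := by
        intro h4
        rw [h4, zero_smul, add_zero] at h
        exact hv (Prod.ext h4 h)
      have h5 := mul_self_pos.2 h4
      rw [h]
      simp only [map_zero, mul_zero, add_zero]
      positivity
    · have h5 := hpos _ h
      positivity
  inv := by
    rintro G ⟨j, A, ⟨w, hw, hA⟩, hG⟩ p -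
    have hG' : ∀ x, G x = x + ((j : ℝ), w) := by
      intro x
      rw [hG, hA]
      rfl
    have hd := translation_fderiv hG' p
    refine ⟨trivial, hd.differentiableAt, fun u _ v _ => ?_⟩
    rw [hd.fderiv, hG', shearForm_apply, shearForm_apply]
    have e3 : β (p.1 + j) = β p.1 := by
      have := hβp.int_mul j p.1
      rwa [mul_one] at this
    simp only [Prod.fst_add, coef_int hap, coef_int hbp, e3]
    rfl

/-- **Metrics with mixed terms over flat tori are limits.** -/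
theorem shear_limit [CompleteSpace V] [Nontrivial V] {k : ℕ∞} (hk : 2 ≤ k) {a b : ℝ → ℝ}
    {β : ℝ → V} {h₀ : V →L[ℝ] V →L[ℝ] ℝ}
    (ha : ContDiff ℝ k a) (hb : ContDiff ℝ k b) (hβ : ContDiff ℝ k β)
    (hap : Function.Periodic a 1) (hbp : Function.Periodic b 1) (hβp : Function.Periodic β 1)
    (ha0 : ∀ x, 0 < a x) (hb0 : ∀ x, 0 < b x) (hsymm : ∀ v w, h₀ v w = h₀ w v)
    (hpos : ∀ v, v ≠ 0 → 0 < h₀ v v) {Λ : AddSubgroup V}
    (hΛ : Dense {v : V | ∃ n : ℕ, 0 < n ∧ n • v ∈ Λ}) :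
    IsLimit k univ (prodGroup (lattGroup Λ)) (shearForm a b β h₀) := by
  intro K hK n hn ε hε
  have hk2 : (2 : WithTop ℕ∞) ≤ ((k : ℕ∞) : WithTop ℕ∞) := two_le_coe hk
  obtain ⟨B, hB, hdense⟩ := shear_dense (ha.of_le hk2) (hb.of_le hk2) hap hbp ha0 hb0
  have hb2 : ContDiff ℝ k fun z : ℝ × ℝ => b z.2 := hb.comp contDiff_snd
  have ha2 : ContDiff ℝ k fun z : ℝ × ℝ => a z.2 := ha.comp contDiff_snd
  have hfam : ContDiff ℝ k fun z : ℝ × (ℝ × V) =>
      shearForm (fun x => a x * (b x + z.1) / b x) (fun x => b x + z.1) β h₀ z.2 :=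
    shear_family (a := fun s x => a x * (b x + s) / b x) (b := fun s x => b x + s)
      ((ha2.mul (hb2.add contDiff_fst)).div hb2 fun z => (hb0 z.2).ne')
      (hb2.add contDiff_fst) hβ
  have hG0 : shearForm (fun x => a x * (b x + 0) / b x) (fun x => b x + 0) β h₀ =
      shearForm a b β h₀ := by
    simp only [add_zero]
    congr 1
    funext x
    have := (hb0 x).ne'
    field_simp
  have hev := close_of_family (G := fun s =>
    shearForm (fun x => a x * (b x + s) / b x) (fun x => b x + s) β h₀) hfam hK hn hε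
  simp only [hG0] at hev
  obtain ⟨m, hm, hbm⟩ := per_pos hb.continuous hbp hb0
  have hev2 : ∀ᶠ s in 𝓝 (0 : ℝ), -m < s := lt_mem_nhds (by linarith)
  obtain ⟨s, hsB, hs1, hs2⟩ := exists_not_mem_countable hB (hev.and hev2)
  have hbs : ∀ x, 0 < b x + s := fun x => by linarith [hbm x]
  have hasC : ContDiff ℝ k fun x => a x * (b x + s) / b x :=
    (ha.mul (hb.add contDiff_const)).div hb fun x => (hb0 x).ne'
  have hasp : Function.Periodic (fun x => a x * (b x + s) / b x) 1 := fun x => by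
    simp only
    rw [hap x, hbp x]
  have hbsp : Function.Periodic (fun x => b x + s) 1 := fun x => by
    simp only
    rw [hbp x]
  exact ⟨_, shear_isMetric hasC (hb.add contDiff_const) hβ hasp hbsp hβp
    (fun x => div_pos (mul_pos (ha0 x) (hbs x)) (hb0 x)) hbs hsymm hpos Λ,
    hdense s hsB hbs V β h₀ Λ (hβ.of_le ((by norm_num : (1 : WithTop ℕ∞) ≤ 2).trans hk2)) hβp
      hsymm hpos hΛ, hs1⟩

/-- The metric `E(x) dx² + 2 F(x) dx dy + G(x) dy²` on the plane. -/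
def planeForm (E F G : ℝ → ℝ) (p : ℝ × ℝ) : (ℝ × ℝ) →L[ℝ] (ℝ × ℝ) →L[ℝ] ℝ :=
  (ContinuousLinearMap.mul ℝ ℝ).bilinearComp
    (E p.1 • ContinuousLinearMap.fst ℝ ℝ ℝ + F p.1 • ContinuousLinearMap.snd ℝ ℝ ℝ)
    (ContinuousLinearMap.fst ℝ ℝ ℝ) +
  (ContinuousLinearMap.mul ℝ ℝ).bilinearComp
    (F p.1 • ContinuousLinearMap.fst ℝ ℝ ℝ + G p.1 • ContinuousLinearMap.snd ℝ ℝ ℝ)
    (ContinuousLinearMap.snd ℝ ℝ ℝ)

theorem planeForm_apply (E F G : ℝ → ℝ) (p v w : ℝ × ℝ) :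
    planeForm E F G p v w = E p.1 * (v.1 * w.1) + F p.1 * (v.2 * w.1 + v.1 * w.2) +
      G p.1 * (v.2 * w.2) := by
  simp [planeForm]
  ring

/-- The translations of the plane by `ℤ²`. -/
def planeGroup : Subgroup (Equiv.Perm (ℝ × ℝ)) where
  carrier := {A | ∃ m n : ℤ, ∀ p, A p = (p.1 + m, p.2 + n)}
  mul_mem' := by
    rintro A B ⟨m, n, hA⟩ ⟨m', n', hB⟩
    refine ⟨m' + m, n' + n, fun p => ?_⟩
    rw [Equiv.Perm.mul_apply, hB, hA]
    push_cast
    rw [add_assoc, add_assoc]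
  one_mem' := ⟨0, 0, fun p => by simp⟩
  inv_mem' := by
    rintro A ⟨m, n, hA⟩
    refine ⟨-m, -n, fun p => ?_⟩
    rw [Equiv.Perm.inv_def, Equiv.symm_apply_eq, hA]
    simp

theorem planeGroup_eq :
    planeGroup = prodGroup (lattGroup (AddSubgroup.zmultiples (1 : ℝ))) := by
  ext A
  constructor
  · rintro ⟨m, n, hA⟩
    exact ⟨m, Equiv.addRight (n : ℝ), ⟨n, AddSubgroup.mem_zmultiples_iff.2 ⟨n, by simp⟩,
      fun x => rfl⟩, hA⟩
  · rintro ⟨m, B, ⟨v, hv, hB⟩, hA⟩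
    obtain ⟨n, hn⟩ := AddSubgroup.mem_zmultiples_iff.1 hv
    refine ⟨m, n, fun p => ?_⟩
    rw [hA, hB, ← hn]
    simp

theorem int_dense : Dense {v : ℝ | ∃ n : ℕ, 0 < n ∧ n • v ∈ AddSubgroup.zmultiples (1 : ℝ)} := by
  refine (Rat.denseRange_cast (𝕜 := ℝ)).mono ?_
  rintro _ ⟨q, rfl⟩
  refine ⟨q.den, q.den_pos, AddSubgroup.mem_zmultiples_iff.2 ⟨q.num, ?_⟩⟩
  have h3 : (q.den : ℝ) * (q : ℝ) = q.num := by
    have := Rat.den_mul_eq_num q
    exact_mod_cast this
  rw [nsmul_eq_mul, h3]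
  simp

/-- **All metrics on the two dimensional torus whose coefficients depend on one variable.** -/
theorem plane_limit {k : ℕ∞} (hk : 2 ≤ k) {E F G : ℝ → ℝ}
    (hE : ContDiff ℝ k E) (hF : ContDiff ℝ k F) (hG : ContDiff ℝ k G)
    (hEp : Function.Periodic E 1) (hFp : Function.Periodic F 1) (hGp : Function.Periodic G 1)
    (hG0 : ∀ x, 0 < G x) (hdet : ∀ x, 0 < E x * G x - F x ^ 2) :
    IsLimit k univ planeGroup (planeForm E F G) := by
  have hG0' : ∀ x, G x ≠ 0 := fun x => (hG0 x).ne'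
  have h := shear_limit (V := ℝ) hk (a := fun x => (E x * G x - F x ^ 2) / G x) (b := G)
    (β := fun x => F x / G x) (h₀ := ContinuousLinearMap.mul ℝ ℝ)
    (((hE.mul hG).sub (hF.pow 2)).div hG hG0') hG (hF.div hG hG0')
    (fun x => by simp only; rw [hEp x, hFp x, hGp x]) hGp
    (fun x => by simp only; rw [hFp x, hGp x]) (fun x => div_pos (hdet x) (hG0 x)) hG0
    (fun v w => by simp [mul_comm]) (fun v hv => by simpa using mul_self_pos.2 hv) int_dense
  rw [← planeGroup_eq] at h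
  have he : planeForm E F G = shearForm (fun x => (E x * G x - F x ^ 2) / G x) G
      (fun x => F x / G x) (ContinuousLinearMap.mul ℝ ℝ) := by
    funext p
    refine ContinuousLinearMap.ext fun v => ContinuousLinearMap.ext fun w => ?_
    rw [planeForm_apply, shearForm_apply]
    have := hG0' p.1
    simp only [ContinuousLinearMap.mul_apply', smul_eq_mul]
    field_simp
    ring
  rw [he]
  exact h

end Pool.Agent.CGD
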