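import Mathlib
import Pool.Agent.CGD.ShearLim

/-!
# Conformal form of the perturbations; Klein bottles (helper82)
-/

set_option maxSynthPendingDepth 3

noncomputable section

open Set Filter Topology Metric MeasureTheory
open scoped ContDiff

namespace Pool.Agent.CGD

theorem warp_conf {F : Type*} [NormedAddCommGroup F] [NormedSpace ℝ F] {a b : ℝ → ℝ}
    (hb0 : ∀ x, 0 < b x) (s : ℝ) (h : F → F →L[ℝ] F →L[ℝ] ℝ) :
    (fun p : ℝ × F => (1 + s / b p.1) • warp a b h p) =
      warp (fun x => a x * (b x + s) / b x) (fun x => b x + s) h := by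
  funext p
  refine ContinuousLinearMap.ext fun v => ContinuousLinearMap.ext fun w => ?_
  simp only [smul_apply, smul_eq_mul, warp_apply]
  have := (hb0 p.1).ne'
  field_simp

theorem shear_conf {V : Type*} [NormedAddCommGroup V] [NormedSpace ℝ V] {a b : ℝ → ℝ}
    {β : ℝ → V} {h₀ : V →L[ℝ] V →L[ℝ] ℝ} (hb0 : ∀ x, 0 < b x) (s : ℝ) :
    (fun p : ℝ × V => (1 + s / b p.1) • shearForm a b β h₀ p) =
      shearForm (fun x => a x * (b x + s) / b x) (fun x => b x + s) β h₀ := by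
  funext p
  refine ContinuousLinearMap.ext fun v => ContinuousLinearMap.ext fun w => ?_
  simp only [smul_apply, smul_eq_mul, shearForm_apply]
  have := (hb0 p.1).ne'
  field_simp

theorem plane_shear {E F G : ℝ → ℝ} (hG0 : ∀ x, 0 < G x) :
    planeForm E F G = shearForm (fun x => (E x * G x - F x ^ 2) / G x) G
      (fun x => F x / G x) (ContinuousLinearMap.mul ℝ ℝ) := by
  funext p
  refine ContinuousLinearMap.ext fun v => ContinuousLinearMap.ext fun w => ?_
  rw [planeForm_apply, shearForm_apply]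
  have := (hG0 p.1).ne'
  simp only [ContinuousLinearMap.mul_apply', smul_eq_mul]
  field_simp
  ring

/-- The deck group of the Klein bottle, generated by `(x, y) ↦ (x + 1, y)` and
`(x, y) ↦ (-x, y + 1 / 2)`. -/
def kleinGroup : Subgroup (Equiv.Perm (ℝ × ℝ)) where
  carrier := {A | ∃ m n : ℤ, (Even n ∧ ∀ p, A p = (p.1 + m, p.2 + n / 2)) ∨
    (Odd n ∧ ∀ p, A p = (-p.1 + m, p.2 + n / 2))}
  mul_mem' := by
    rintro A B ⟨m, n, hA⟩ ⟨m', n', hB⟩
    rcases hA with ⟨hn, hA⟩ | ⟨hn, hA⟩ <;> rcases hB with ⟨hn', hB⟩ | ⟨hn', hB⟩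
    · refine ⟨m' + m, n' + n, Or.inl ⟨hn'.add hn, fun p => ?_⟩⟩
      rw [Equiv.Perm.mul_apply, hB, hA, Prod.mk.injEq]
      push_cast
      constructor <;> ring
    · refine ⟨m' + m, n' + n, Or.inr ⟨hn'.add_even hn, fun p => ?_⟩⟩
      rw [Equiv.Perm.mul_apply, hB, hA, Prod.mk.injEq]
      push_cast
      constructor <;> ring
    · refine ⟨-m' + m, n' + n, Or.inr ⟨hn'.add_odd hn, fun p => ?_⟩⟩
      rw [Equiv.Perm.mul_apply, hB, hA, Prod.mk.injEq]
      push_cast
      constructor <;> ring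
    · refine ⟨-m' + m, n' + n, Or.inl ⟨hn'.add_odd hn, fun p => ?_⟩⟩
      rw [Equiv.Perm.mul_apply, hB, hA, Prod.mk.injEq]
      push_cast
      constructor <;> ring
  one_mem' := ⟨0, 0, Or.inl ⟨by simp, fun p => by simp⟩⟩
  inv_mem' := by
    rintro A ⟨m, n, ⟨hn, hA⟩ | ⟨hn, hA⟩⟩
    · refine ⟨-m, -n, Or.inl ⟨by simpa using hn, fun p => ?_⟩⟩
      rw [Equiv.Perm.inv_def, Equiv.symm_apply_eq, hA, Prod.ext_iff]
      push_cast
      constructor
      · ring
      · ring
    · refine ⟨m, -n, Or.inr ⟨by simpa using hn, fun p => ?_⟩⟩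
      rw [Equiv.Perm.inv_def, Equiv.symm_apply_eq, hA, Prod.ext_iff]
      push_cast
      constructor
      · ring
      · ring

theorem plane_le_klein : planeGroup ≤ kleinGroup := by
  rintro A ⟨m, n, hA⟩
  refine ⟨m, 2 * n, Or.inl ⟨by simp, fun p => ?_⟩⟩
  rw [hA, Prod.mk.injEq]
  push_cast
  constructor <;> ring

theorem plane_pos {E F G : ℝ → ℝ} (hG0 : ∀ x, 0 < G x) (hdet : ∀ x, 0 < E x * G x - F x ^ 2)
    (p v : ℝ × ℝ) (hv : v ≠ 0) : 0 < planeForm E F G p v v := by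
  rw [planeForm_apply]
  have h1 := hG0 p.1
  have h2 := hdet p.1
  have h3 : G p.1 * (E p.1 * (v.1 * v.1) + F p.1 * (v.2 * v.1 + v.1 * v.2) +
      G p.1 * (v.2 * v.2)) = (E p.1 * G p.1 - F p.1 ^ 2) * v.1 ^ 2 +
      (F p.1 * v.1 + G p.1 * v.2) ^ 2 := by ring
  have h4 : 0 < (E p.1 * G p.1 - F p.1 ^ 2) * v.1 ^ 2 + (F p.1 * v.1 + G p.1 * v.2) ^ 2 := by
    by_cases h : v.1 = 0
    · have h5 : v.2 ≠ 0 := fun h5 => hv (Prod.ext h h5)
      rw [h]
      have : G p.1 * v.2 ≠ 0 := mul_ne_zero h1.ne' h5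
      have := sq_pos_of_ne_zero this
      simp only [ne_eq, OfNat.ofNat_ne_zero, not_false_eq_true, zero_pow, mul_zero, zero_add]
      exact this
    · have h5 : 0 < v.1 ^ 2 := by positivity
      have := mul_pos h2 h5
      have := sq_nonneg (F p.1 * v.1 + G p.1 * v.2)
      linarith
  rw [← h3] at h4
  exact (pos_iff_pos_of_mul_pos h4).1 h1

theorem plane_contDiff {k : WithTop ℕ∞} {E F G : ℝ → ℝ} (hE : ContDiff ℝ k E)
    (hF : ContDiff ℝ k F) (hG : ContDiff ℝ k G) : ContDiff ℝ k (planeForm E F G) := by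
  have h1 : ContDiff ℝ k fun p : ℝ × ℝ => E p.1 := hE.comp contDiff_fst
  have h2 : ContDiff ℝ k fun p : ℝ × ℝ => F p.1 := hF.comp contDiff_fst
  have h3 : ContDiff ℝ k fun p : ℝ × ℝ => G p.1 := hG.comp contDiff_fst
  exact (contDiff_bilinearComp contDiff_const
    ((h1.smul contDiff_const).add (h2.smul contDiff_const)) contDiff_const).add
    (contDiff_bilinearComp contDiff_const
      ((h2.smul contDiff_const).add (h3.smul contDiff_const)) contDiff_const)

theorem plane_isMetric {k : ℕ∞} {E F G : ℝ → ℝ} (hE : ContDiff ℝ k E)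
    (hF : ContDiff ℝ k F) (hG : ContDiff ℝ k G)
    (hEp : Function.Periodic E 1) (hFp : Function.Periodic F 1) (hGp : Function.Periodic G 1)
    (hG0 : ∀ x, 0 < G x) (hdet : ∀ x, 0 < E x * G x - F x ^ 2) :
    IsMetric k univ planeGroup (planeForm E F G) where
  smooth := plane_contDiff hE hF hG
  symm := by
    intro p v w
    rw [planeForm_apply, planeForm_apply]
    ring
  pos := fun p _ v _ hv => plane_pos hG0 hdet p v hv
  inv := by
    rintro A ⟨m, n, hA⟩ p -
    have hA' : ∀ x, A x = x + ((m : ℝ), (n : ℝ)) := fun x => hA x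
    have hd := translation_fderiv hA' p
    refine ⟨trivial, hd.differentiableAt, fun u _ v _ => ?_⟩
    rw [hd.fderiv, hA, planeForm_apply, planeForm_apply]
    simp only [coef_int hEp, coef_int hFp, coef_int hGp]
    rfl

theorem klein_isMetric {k : ℕ∞} {E F G : ℝ → ℝ} (hE : ContDiff ℝ k E)
    (hF : ContDiff ℝ k F) (hG : ContDiff ℝ k G)
    (hEp : Function.Periodic E 1) (hFp : Function.Periodic F 1) (hGp : Function.Periodic G 1)
    (hG0 : ∀ x, 0 < G x) (hdet : ∀ x, 0 < E x * G x - F x ^ 2) (hEe : ∀ x, E (-x) = E x)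
    (hFe : ∀ x, F (-x) = -F x) (hGe : ∀ x, G (-x) = G x) :
    IsMetric k univ kleinGroup (planeForm E F G) where
  smooth := plane_contDiff hE hF hG
  symm := by
    intro p v w
    rw [planeForm_apply, planeForm_apply]
    ring
  pos := fun p _ v _ hv => plane_pos hG0 hdet p v hv
  inv := by
    rintro A ⟨m, n, ⟨hn, hA⟩ | ⟨hn, hA⟩⟩ p -
    · have hA' : ∀ x, A x = x + ((m : ℝ), (n : ℝ) / 2) := fun x => hA x
      have hd := translation_fderiv hA' p
      refine ⟨trivial, hd.differentiableAt, fun u _ v _ => ?_⟩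
      rw [hd.fderiv, hA, planeForm_apply, planeForm_apply]
      simp only [coef_int hEp, coef_int hFp, coef_int hGp]
      rfl
    · have hf : (A : ℝ × ℝ → ℝ × ℝ) = fun x : ℝ × ℝ => (-x.1 + (m : ℝ), x.2 + (n : ℝ) / 2) :=
        funext hA
      have hd : HasFDerivAt A ((-ContinuousLinearMap.fst ℝ ℝ ℝ).prod
          (ContinuousLinearMap.snd ℝ ℝ ℝ)) p := by
        rw [hf]
        exact (hasFDerivAt_fst.neg.add_const _).prodMk (hasFDerivAt_snd.add_const _)
      refine ⟨trivial, hd.differentiableAt, fun u _ v _ => ?_⟩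
      rw [hd.fderiv, hA, planeForm_apply, planeForm_apply]
      simp only [coef_int hEp, coef_int hFp, coef_int hGp, hEe, hFe, hGe,
        ContinuousLinearMap.prod_apply, neg_apply, ContinuousLinearMap.coe_fst',
        ContinuousLinearMap.coe_snd']
      ring

theorem conf_isMetric {F : Type*} [NormedAddCommGroup F] [NormedSpace ℝ F] {k : ℕ∞} {N : Set F}
    {Γ : Subgroup (Equiv.Perm F)} {g : F → F →L[ℝ] F →L[ℝ] ℝ} (hg : IsMetric k N Γ g)
    {c : F → ℝ} (hc : ContDiff ℝ k c) (hc0 : ∀ p, 0 < c p)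
    (hcinv : ∀ A ∈ Γ, ∀ p ∈ N, c (A p) = c p) {s : ℝ} (hs : ∀ p, 0 < c p + s) :
    IsMetric k N Γ (fun p => (1 + s / c p) • g p) where
  smooth := by
    have h1 : ContDiff ℝ k fun p => 1 + s / c p :=
      contDiff_const.add (contDiff_const.div hc fun p => (hc0 p).ne')
    exact h1.smul hg.smooth
  symm := by
    intro p v w
    simp only [smul_apply]
    rw [hg.symm]
  pos := by
    intro p hp v hv hv0
    have h1 : 1 + s / c p = (c p + s) / c p := by
      have := (hc0 p).ne'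
      field_simp
    have h2 : 0 < 1 + s / c p := by
      rw [h1]
      exact div_pos (hs p) (hc0 p)
    simp only [smul_apply, smul_eq_mul]
    exact mul_pos h2 (hg.pos p hp v hv hv0)
  inv := by
    intro A hA p hp
    obtain ⟨h1, h2, h3⟩ := hg.inv A hA p hp
    refine ⟨h1, h2, fun v hv w hw => ?_⟩
    simp only [smul_apply, smul_eq_mul, hcinv A hA p hp]
    rw [h3 v hv w hw]

/-- Limits from conformal perturbations. -/
theorem conf_limit {F : Type} [NormedAddCommGroup F] [NormedSpace ℝ F] {k : ℕ∞} {N : Set F}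
    {Γ Γ' : Subgroup (Equiv.Perm F)} (hΓ : Γ ≤ Γ') {g : F → F →L[ℝ] F →L[ℝ] ℝ}
    (hg : IsMetric k N Γ' g) {c : F → ℝ} (hc : ContDiff ℝ k c) {m : ℝ} (hm : 0 < m)
    (hmc : ∀ p, m ≤ c p) (hcinv : ∀ A ∈ Γ', ∀ p ∈ N, c (A p) = c p) {B : Set ℝ}
    (hB : B.Countable) (hD : ∀ s ∉ B, (∀ p, 0 < c p + s) →
      DenseClosed N (fun p => (1 + s / c p) • g p) Γ) : IsLimit k N Γ' g := by
  intro K hK n hn ε hε
  have hc0 : ∀ p, 0 < c p := fun p => hm.trans_le (hmc p)
  have hfam : ContDiff ℝ k fun z : ℝ × F => (1 + z.1 / c z.2) • g z.2 := by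
    have h1 : ContDiff ℝ k fun z : ℝ × F => 1 + z.1 / c z.2 :=
      contDiff_const.add (contDiff_fst.div (hc.comp contDiff_snd) fun z => (hc0 z.2).ne')
    exact h1.smul (hg.smooth.comp contDiff_snd)
  have hev := close_of_family (G := fun s p => (1 + s / c p) • g p) hfam hK hn hε
  have h0 : (fun p => (1 + 0 / c p) • g p) = g := by
    funext p
    rw [zero_div, add_zero, one_smul]
  simp only [h0] at hev
  have hev2 : ∀ᶠ s in 𝓝 (0 : ℝ), -m < s := lt_mem_nhds (by linarith)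
  obtain ⟨s, hsB, hs1, hs2⟩ := exists_not_mem_countable hB (hev.and hev2)
  have hcs : ∀ p, 0 < c p + s := fun p => by linarith [hmc p]
  refine ⟨_, conf_isMetric hg hc hc0 hcinv hcs, ?_, hs1⟩
  refine (hD s hsB hcs).trans (closure_mono ?_)
  rintro _ ⟨γ, ⟨h1, h2, T, hT, A, hA, h3⟩, t, rfl⟩
  exact ⟨γ, ⟨h1, h2, T, hT, A, hΓ hA, h3⟩, t, rfl⟩

/-- The exceptional set for metrics on the plane with coefficients in one variable. -/
theorem plane_dense {E F G : ℝ → ℝ} (hE : ContDiff ℝ 2 E) (hF : ContDiff ℝ 2 F)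
    (hG : ContDiff ℝ 2 G)
    (hEp : Function.Periodic E 1) (hFp : Function.Periodic F 1) (hGp : Function.Periodic G 1)
    (hG0 : ∀ x, 0 < G x) (hdet : ∀ x, 0 < E x * G x - F x ^ 2) :
    ∃ B : Set ℝ, B.Countable ∧ ∀ s ∉ B, (∀ x, 0 < G x + s) →
      DenseClosed univ (fun p => (1 + s / G p.1) • planeForm E F G p) planeGroup := by
  have hG0' : ∀ x, G x ≠ 0 := fun x => (hG0 x).ne'
  obtain ⟨B, hB, h⟩ := shear_dense.{0} (((hE.mul hG).sub (hF.pow 2)).div hG hG0') hG
    (fun x => by simp only [Pi.div_apply, Pi.sub_apply, Pi.mul_apply, Pi.pow_apply]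
                 rw [hEp x, hFp x, hGp x]) hGp
    (fun x => div_pos (hdet x) (hG0 x)) hG0
  refine ⟨B, hB, fun s hs hbs => ?_⟩
  have h1 := h s hs hbs ℝ (fun x => F x / G x) (ContinuousLinearMap.mul ℝ ℝ)
    (AddSubgroup.zmultiples (1 : ℝ)) ((hF.div hG hG0').of_le (by norm_num))
    (fun x => by simp only; rw [hFp x, hGp x])
    (fun v w => by simp [mul_comm]) (fun v hv => by simpa using mul_self_pos.2 hv) int_dense
  rw [← planeGroup_eq] at h1
  rw [plane_shear hG0, shear_conf hG0]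
  exact h1

end Pool.Agent.CGD
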