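import Mathlib
import Pool.Agent.CGD.Rot

/-!
# Exponential weights: the exceptional set of the perturbation `a exp (2 s b)` (helper82)
-/

noncomputable section

open Set Filter Topology MeasureTheory ProbabilityTheory
open scoped ContDiff

namespace Pool.Agent.CGD

theorem analytic_zeros_countable {f : ℝ → ℝ} (hf : AnalyticOnNhd ℝ f univ) (hne : ∃ x, f x ≠ 0) :
    {x | f x = 0}.Countable := by
  rcases hf.eqOn_zero_or_eventually_ne_zero_of_preconnected isPreconnected_univ with h | h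
  · obtain ⟨x, hx⟩ := hne
    exact absurd (h (mem_univ x)) hx
  · have h2 : {x | f x ≠ 0} ∈ codiscrete ℝ := h
    rw [mem_codiscrete'] at h2
    obtain ⟨-, hd⟩ := h2
    have h3 : {x | f x ≠ 0}ᶜ = {x | f x = 0} := by ext x; simp
    rw [h3] at hd
    have := hd.to_subtype
    have : Countable {x | f x = 0} := countable_of_Lindelof_of_discrete
    exact this

/-- The weighted exponential integral is analytic in the exponent. -/
theorem expInt_analytic {T : ℝ} (hT : 0 ≤ T) {w g : ℝ → ℝ} (hw : Continuous w)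
    (hw0 : ∀ t, 0 ≤ w t) (hg : Continuous g) :
    AnalyticOnNhd ℝ (fun s => ∫ t in (0:ℝ)..T, w t * Real.exp (s * g t)) univ := by
  set f : ℝ → NNReal := fun t => (w t).toNNReal with hf
  have hfm : Measurable f := hw.measurable.real_toNNReal
  set μ : Measure ℝ := (volume.restrict (Ioc 0 T)).withDensity fun t => (f t : ENNReal)
    with hμ
  have hmgf : (fun s => ∫ t in (0:ℝ)..T, w t * Real.exp (s * g t)) = mgf g μ := by
    funext s
    rw [mgf, hμ, intervalIntegral.integral_of_le hT, integral_withDensity_eq_integral_smul hfm]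
    refine integral_congr_ae (Eventually.of_forall fun t => ?_)
    simp only [NNReal.smul_def, hf, Real.coe_toNNReal _ (hw0 t), smul_eq_mul]
  rw [hmgf]
  have hset : integrableExpSet g μ = univ := by
    refine eq_univ_of_forall fun s => ?_
    show Integrable (fun t => Real.exp (s * g t)) μ
    rw [hμ, integrable_withDensity_iff_integrable_smul hfm]
    have hc : Continuous fun t => w t * Real.exp (s * g t) := by fun_prop
    have : IntegrableOn (fun t => w t * Real.exp (s * g t)) (Ioc 0 T) volume :=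
      (hc.integrableOn_Icc (a := 0) (b := T)).mono_set Ioc_subset_Icc_self
    refine this.congr (Eventually.of_forall fun t => ?_)
    simp only [NNReal.smul_def, hf, Real.coe_toNNReal _ (hw0 t), smul_eq_mul]
  have := analyticOnNhd_mgf (X := g) (μ := μ)
  rw [hset, interior_univ] at this
  exact this

/-- Two weighted exponential integrals with different lowest exponents agree only on a countable
set. -/
theorem pair_countable {T₁ T₂ c₁ c₂ v₁ v₂ : ℝ} (hT₁ : 0 < T₁) (hT₂ : 0 < T₂) (hc₁ : 0 < c₁)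
    (hc₂ : 0 < c₂) (hv : v₁ < v₂) {w₁ w₂ g₁ g₂ : ℝ → ℝ} (hw₁ : Continuous w₁)
    (hw₂ : Continuous w₂) (hg₁ : Continuous g₁) (hg₂ : Continuous g₂) (hp₁ : ∀ t, 0 < w₁ t)
    (hp₂ : ∀ t, 0 < w₂ t) (h1 : g₁ 0 = v₁) (h2 : ∀ t ∈ Icc 0 T₂, v₂ ≤ g₂ t) :
    {s : ℝ | c₁ * (∫ t in (0:ℝ)..T₁, w₁ t * Real.exp (s * g₁ t)) =
      c₂ * ∫ t in (0:ℝ)..T₂, w₂ t * Real.exp (s * g₂ t)}.Countable := by
  set M₁ : ℝ → ℝ := fun s => ∫ t in (0:ℝ)..T₁, w₁ t * Real.exp (s * g₁ t) with hM₁
  set M₂ : ℝ → ℝ := fun s => ∫ t in (0:ℝ)..T₂, w₂ t * Real.exp (s * g₂ t) with hM₂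
  have hA₁ : AnalyticOnNhd ℝ M₁ univ := expInt_analytic hT₁.le hw₁ (fun t => (hp₁ t).le) hg₁
  have hA₂ : AnalyticOnNhd ℝ M₂ univ := expInt_analytic hT₂.le hw₂ (fun t => (hp₂ t).le) hg₂
  have hA : AnalyticOnNhd ℝ (fun s => c₁ * M₁ s - c₂ * M₂ s) univ :=
    (analyticOnNhd_const.mul hA₁).sub (analyticOnNhd_const.mul hA₂)
  have hset : {s : ℝ | c₁ * M₁ s = c₂ * M₂ s} = {s | c₁ * M₁ s - c₂ * M₂ s = 0} := by
    ext s
    exact sub_eq_zero.symm
  show {s : ℝ | c₁ * M₁ s = c₂ * M₂ s}.Countable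
  rw [hset]
  refine analytic_zeros_countable hA ?_
  by_contra hcon
  push Not at hcon
  -- the two bounds
  set ε := (v₂ - v₁) / 2 with hε
  have hε0 : 0 < ε := by rw [hε]; linarith
  have hev : ∀ᶠ t in 𝓝 (0:ℝ), g₁ t < v₁ + ε := by
    have := hg₁.tendsto 0
    rw [h1] at this
    exact this.eventually_lt_const (by linarith)
  obtain ⟨δ, hδ, hball⟩ := Metric.eventually_nhds_iff_ball.1 hev
  set η := min (δ / 2) T₁ with hη
  have hη0 : 0 < η := lt_min (by positivity) hT₁
  have hηT : η ≤ T₁ := min_le_right _ _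
  have hηg : ∀ t ∈ Icc 0 η, g₁ t ≤ v₁ + ε := by
    intro t ht
    refine (hball t ?_).le
    rw [mem_ball_zero_iff, Real.norm_eq_abs, abs_of_nonneg ht.1]
    have := min_le_left (δ / 2) T₁
    linarith [ht.2]
  set m₁ := ∫ t in (0:ℝ)..η, w₁ t with hm₁
  set m₂ := ∫ t in (0:ℝ)..T₂, w₂ t with hm₂
  have hm₁0 : 0 < m₁ := intervalIntegral.intervalIntegral_pos_of_pos
    (hw₁.intervalIntegrable _ _) hp₁ hη0
  have hlow : ∀ s ≤ 0, m₁ * Real.exp (s * (v₁ + ε)) ≤ M₁ s := by
    intro s hs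
    have hc : Continuous fun t => w₁ t * Real.exp (s * g₁ t) := by fun_prop
    have e1 : ∫ t in (0:ℝ)..η, w₁ t * Real.exp (s * g₁ t) ≤ M₁ s := by
      refine intervalIntegral.integral_mono_interval le_rfl hη0.le hηT ?_
        (hc.intervalIntegrable _ _)
      exact Eventually.of_forall fun t => mul_nonneg (hp₁ t).le (Real.exp_pos _).le
    refine le_trans ?_ e1
    rw [hm₁, ← intervalIntegral.integral_mul_const]
    refine intervalIntegral.integral_mono_on hη0.le
      ((hw₁.mul continuous_const).intervalIntegrable _ _) (hc.intervalIntegrable _ _)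
      fun t ht => ?_
    refine mul_le_mul_of_nonneg_left (Real.exp_le_exp.2 ?_) (hp₁ t).le
    exact mul_le_mul_of_nonpos_left (hηg t ht) hs
  have hup : ∀ s ≤ 0, M₂ s ≤ m₂ * Real.exp (s * v₂) := by
    intro s hs
    have hc : Continuous fun t => w₂ t * Real.exp (s * g₂ t) := by fun_prop
    rw [hm₂, ← intervalIntegral.integral_mul_const]
    refine intervalIntegral.integral_mono_on hT₂.le (hc.intervalIntegrable _ _)
      ((hw₂.mul continuous_const).intervalIntegrable _ _) fun t ht => ?_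
    refine mul_le_mul_of_nonneg_left (Real.exp_le_exp.2 ?_) (hp₂ t).le
    exact mul_le_mul_of_nonpos_left (h2 t ht) hs
  have hkey : ∀ s ≤ 0, c₁ * m₁ ≤ c₂ * m₂ * Real.exp (s * ε) := by
    intro s hs
    have e1 := mul_le_mul_of_nonneg_left (hlow s hs) hc₁.le
    have e2 := mul_le_mul_of_nonneg_left (hup s hs) hc₂.le
    have e3 := hcon s
    have e4 : c₁ * (m₁ * Real.exp (s * (v₁ + ε))) ≤ c₂ * (m₂ * Real.exp (s * v₂)) := by
      linarith
    have e5 : Real.exp (s * v₂) = Real.exp (s * ε) * Real.exp (s * (v₁ + ε)) := by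
      rw [← Real.exp_add]
      congr 1
      rw [hε]
      ring
    rw [e5] at e4
    have e6 := Real.exp_pos (s * (v₁ + ε))
    refine le_of_mul_le_mul_right ?_ e6
    linarith
  have hlim : Tendsto (fun s : ℝ => c₂ * m₂ * Real.exp (s * ε)) atBot (𝓝 (c₂ * m₂ * 0)) := by
    refine Tendsto.const_mul _ (Real.tendsto_exp_atBot.comp ?_)
    exact tendsto_id.atBot_mul_const hε0
  rw [mul_zero] at hlim
  have := ge_of_tendsto hlim ((eventually_le_atBot 0).mono fun s hs => hkey s hs)
  have h3 : 0 < c₁ * m₁ := mul_pos hc₁ hm₁0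
  linarith

end Pool.Agent.CGD
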