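import Mathlib
import Pool.Agent.CGD.ExpInt

/-!
# Degenerate profiles: the family `a exp (2 s b)` (helper82)
-/

noncomputable section

open Set Filter Topology MeasureTheory
open scoped ContDiff

namespace Pool.Agent.CGD

/-- A positive function which equals `t` for `t ≥ δ`. -/
def cut (δ t : ℝ) : ℝ := t + δ * (1 - Real.smoothTransition (2 * t / δ - 1))

theorem cut_eq {δ t : ℝ} (hδ : 0 < δ) (ht : δ ≤ t) : cut δ t = t := by
  have h : 1 ≤ 2 * t / δ - 1 := by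
    rw [le_sub_iff_add_le, le_div_iff₀ hδ]
    linarith
  rw [cut, Real.smoothTransition.one_of_one_le h]
  ring

theorem cut_pos {δ t : ℝ} (hδ : 0 < δ) (ht : 0 ≤ t) : 0 < cut δ t := by
  have h1 : Real.smoothTransition (2 * t / δ - 1) ≤ 1 := Real.smoothTransition.le_one _
  rcases ht.lt_or_eq with h | h
  · have : 0 ≤ δ * (1 - Real.smoothTransition (2 * t / δ - 1)) :=
      mul_nonneg hδ.le (by linarith)
    rw [cut]
    linarith
  · subst h
    have h2 : Real.smoothTransition (2 * 0 / δ - 1) = 0 :=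
      Real.smoothTransition.zero_of_nonpos (by simp)
    rw [cut, h2]
    linarith

theorem cut_contDiff {δ : ℝ} {k : WithTop ℕ∞} (hk : k ≤ ∞) : ContDiff ℝ k (cut δ) := by
  unfold cut
  have h1 : ContDiff ℝ k fun t : ℝ => 2 * t / δ - 1 := by fun_prop
  have h2 : ContDiff ℝ k fun t : ℝ => Real.smoothTransition (2 * t / δ - 1) :=
    (Real.smoothTransition.contDiff.of_le hk).comp h1
  exact contDiff_id.add (contDiff_const.mul (contDiff_const.sub h2))

/-- The regularised weight. -/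
def rcut (a b : ℝ → ℝ) (δ s x : ℝ) : ℝ := √(a x / cut δ (b x)) * Real.exp (s * b x)

section rcut

variable {a b : ℝ → ℝ} {δ : ℝ}

theorem rcut_pos (ha0 : ∀ x, 0 < a x) (hb0 : ∀ x, 0 ≤ b x) (hδ : 0 < δ) (s x : ℝ) :
    0 < rcut a b δ s x :=
  mul_pos (Real.sqrt_pos.2 (div_pos (ha0 x) (cut_pos hδ (hb0 x)))) (Real.exp_pos _)

theorem rcut_contDiff (ha : ContDiff ℝ 2 a) (hb : ContDiff ℝ 2 b) (ha0 : ∀ x, 0 < a x)
    (hb0 : ∀ x, 0 ≤ b x) (hδ : 0 < δ) (s : ℝ) : ContDiff ℝ 1 (rcut a b δ s) := by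
  have h1 : ContDiff ℝ 2 fun x => cut δ (b x) := (cut_contDiff
    (show ((2 : ℕ∞) : WithTop ℕ∞) ≤ ((⊤ : ℕ∞) : WithTop ℕ∞) from
      WithTop.coe_le_coe.2 le_top)).comp hb
  have h2 : ContDiff ℝ 2 fun x => a x / cut δ (b x) :=
    ha.div h1 fun x => (cut_pos hδ (hb0 x)).ne'
  have h3 : ContDiff ℝ 2 fun x => √(a x / cut δ (b x)) :=
    h2.sqrt fun x => (div_pos (ha0 x) (cut_pos hδ (hb0 x))).ne'
  have h4 : ContDiff ℝ 2 fun x => Real.exp (s * b x) := (contDiff_const.mul hb).exp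
  exact (h3.mul h4).of_le (by norm_num)

theorem rcut_periodic (hap : Function.Periodic a 1) (hbp : Function.Periodic b 1) (s : ℝ) :
    Function.Periodic (rcut a b δ s) 1 := by
  intro x
  simp only [rcut]
  rw [hap x, hbp x]

theorem rcut_sq (ha0 : ∀ x, 0 < a x) (hδ : 0 < δ) (s : ℝ) {x : ℝ}
    (hx : δ ≤ b x) : rcut a b δ s x ^ 2 = a x / b x * Real.exp (2 * s * b x) := by
  have hb : 0 < b x := hδ.trans_le hx
  rw [rcut, cut_eq hδ hx, mul_pow, Real.sq_sqrt (div_pos (ha0 x) hb).le, ← Real.exp_nat_mul]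
  congr 2
  push_cast
  ring

end rcut

namespace Sys

variable {b ρ ρ' : ℝ → ℝ}

theorem agree (S : Sys b ρ) (S' : Sys b ρ') (p : ℝ × ℝ) (t : ℝ) :
    S.X p t = S'.X p t ∧ S.U p t = S'.U p t := by
  have h := S'.uniq (S.X p) (S.U p) (S.dX p) (S.dU p) t
  rw [S.X0, S.U0] at h
  exact h

theorem W_integral (S : Sys b ρ) (hρ : Continuous ρ) (p : ℝ × ℝ) (T : ℝ) :
    S.W p T = ∫ t in (0:ℝ)..T, ρ (S.X p t) := by
  have := intervalIntegral.integral_eq_sub_of_hasDerivAt (a := 0) (b := T)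
    (fun t _ => S.dW p t) ((hρ.comp (S.contX p)).intervalIntegrable _ _)
  rw [this, S.W0, sub_zero]

theorem isRest_iff (S : Sys b ρ) (S' : Sys b ρ') (x T : ℝ) : S.IsRest x T ↔ S'.IsRest x T := by
  have h : S.U (x, 0) = S'.U (x, 0) := funext fun t => (S.agree S' (x, 0) t).2
  simp only [IsRest, h]

theorem isRest_unique (S : Sys b ρ) {x T T' : ℝ} (h : S.IsRest x T) (h' : S.IsRest x T') :
    T = T' := by
  rcases lt_trichotomy T T' with hlt | heq | hlt
  · have := h'.2.1 T ⟨h.1, hlt⟩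
    rw [h.2.2.1] at this
    exact absurd this (lt_irrefl _)
  · exact heq
  · have := h.2.1 T' ⟨h'.1, hlt⟩
    rw [h'.2.2.1] at this
    exact absurd this (lt_irrefl _)

end Sys

open Classical in
/-- **The exceptional set for degenerate profiles.** -/
theorem exists_exceptional {a b : ℝ → ℝ} (ha : ContDiff ℝ 2 a) (hb : ContDiff ℝ 2 b)
    (hap : Function.Periodic a 1) (hbp : Function.Periodic b 1) (ha0 : ∀ x, 0 < a x)
    (hb0 : ∀ x, 0 ≤ b x) {δ : ℝ} (hδ : 0 < δ) :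
    ∃ E : Set ℝ, E.Countable ∧ ∀ s ∉ E, ∀ S : Sys b (rcut a b δ s), ∀ x, Good b x → δ < b x →
      S.NonConst 0 x := by
  obtain ⟨S₀⟩ := exists_sys hb hbp (rcut_contDiff ha hb ha0 hb0 hδ 0)
    (rcut_periodic hap hbp 0)
  have hdb : Differentiable ℝ b := hb.differentiable (by norm_num)
  have hd : Continuous (deriv b) := hb.continuous_deriv (by norm_num)
  have hcap : ∀ x, ∃ y > x, b y ≤ b x := fun x => ⟨x + 1, by linarith, (hbp x).le⟩
  have hrest : ∀ x, Good b x → ∃ T, S₀.IsRest x T := fun x hx => S₀.first_return hb (hcap x) hx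
  -- the value of the rotation function
  set val : ℝ → ℝ → ℝ → ℝ := fun s y T => √(b y) *
    ∫ t in (0:ℝ)..T, rcut a b δ 0 (S₀.X (y, 0) t) * Real.exp (s * b (S₀.X (y, 0) t)) with hval
  set Q : ℚ × ℚ → ℝ × ℝ × ℝ × ℝ → Prop := fun r q => q.1 ∈ Ioo (r.1 : ℝ) r.2 ∧
    q.2.1 ∈ Ioo (r.1 : ℝ) r.2 ∧ 0 < b q.1 ∧ b q.1 < b q.2.1 ∧ S₀.IsRest q.1 q.2.2.1 ∧
    S₀.IsRest q.2.1 q.2.2.2 with hQ
  set E : Set ℝ := ⋃ r : ℚ × ℚ, if h : ∃ q, Q r q then
    {s | val s h.choose.1 h.choose.2.2.1 = val s h.choose.2.1 h.choose.2.2.2} else ∅ with hE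
  refine ⟨E, countable_iUnion fun r => ?_, fun s hs S x hx hδx => ?_⟩
  · split_ifs with h
    · obtain ⟨-, -, h3, h4, h5, h6⟩ := h.choose_spec
      set q := h.choose
      have hbc : Continuous b := hb.continuous
      have hw : ∀ y, Continuous fun t => rcut a b δ 0 (S₀.X (y, 0) t) := fun y =>
        (rcut_contDiff ha hb ha0 hb0 hδ 0).continuous.comp (S₀.contX _)
      refine pair_countable (v₁ := b q.1) (v₂ := b q.2.1) h5.1 h6.1 (Real.sqrt_pos.2 h3)
        (Real.sqrt_pos.2 (h3.trans h4)) h4 (hw _) (hw _) (hbc.comp (S₀.contX _))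
        (hbc.comp (S₀.contX _)) (fun t => rcut_pos ha0 hb0 hδ _ _)
        (fun t => rcut_pos ha0 hb0 hδ _ _) (by rw [S₀.X0]) fun t _ => ?_
      have := S₀.energy hdb (q.2.1, 0) t
      simp only at this
      have h7 := sq_nonneg (S₀.U (q.2.1, 0) t)
      linarith
    · exact countable_empty
  · intro δ' hδ'
    -- a rational interval around `x`
    obtain ⟨η, hη, -, hlt⟩ := mono_near (fun t => (hdb t).hasDerivAt) hd.continuousAt hx.1
    obtain ⟨r₁, hr₁, hr₁'⟩ := exists_rat_btwn (show x - δ' < x by linarith)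
    obtain ⟨r₂, hr₂, hr₂'⟩ := exists_rat_btwn (show x < x + δ' by linarith)
    have hev : ∀ᶠ y in 𝓝[>] x, y ∈ Ioo (r₁ : ℝ) r₂ ∧ Good b y ∧ y ∈ Ioo x (x + η) := by
      have e1 : ∀ᶠ y in 𝓝 x, y ∈ Ioo (r₁ : ℝ) r₂ := Ioo_mem_nhds hr₁' hr₂
      have e2 : ∀ᶠ y in 𝓝 x, Good b y := (good_open hb hbp).mem_nhds hx
      have e3 : ∀ᶠ y in 𝓝[>] x, y ∈ Ioo x (x + η) := Ioo_mem_nhdsGT (by linarith)
      filter_upwards [e1.filter_mono nhdsWithin_le_nhds, e2.filter_mono nhdsWithin_le_nhds, e3]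
        with y h1 h2 h3 using ⟨h1, h2, h3⟩
    obtain ⟨y, hy1, hy2, hy3⟩ := hev.exists
    obtain ⟨Tx, hTx⟩ := hrest x hx
    obtain ⟨Ty, hTy⟩ := hrest y hy2
    have hex : ∃ q, Q (r₁, r₂) q := ⟨(x, y, Tx, Ty), ⟨hr₁', hr₂⟩, hy1, hδ.trans hδx,
      hlt y hy3, hTx, hTy⟩
    have hnot : val s hex.choose.1 hex.choose.2.2.1 ≠ val s hex.choose.2.1 hex.choose.2.2.2 := by
      intro h
      refine hs (mem_iUnion.2 ⟨(r₁, r₂), ?_⟩)
      rw [dif_pos hex]
      exact h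
    obtain ⟨h1, h2, h3, h4, h5, h6⟩ := hex.choose_spec
    set q := hex.choose
    -- the values for the system `S`
    have hS : ∀ y T, √(b y + 0) * S.W (y, 0) T = val s y T := by
      intro y T
      rw [S.W_integral (rcut_contDiff ha hb ha0 hb0 hδ s).continuous]
      simp only [hval, add_zero]
      congr 2
      funext t
      rw [(S.agree S₀ (y, 0) t).1]
      simp only [rcut, zero_mul, Real.exp_zero, mul_one]
    have hTxS := (S.isRest_iff S₀ x Tx).2 hTx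
    by_cases hcase : val s q.1 q.2.2.1 = val s x Tx
    · refine ⟨q.2.1, ?_, Tx, q.2.2.2, hTxS, (S.isRest_iff S₀ _ _).2 h6, ?_⟩
      · rw [abs_lt]
        constructor <;> linarith [h2.1, h2.2]
      · rw [hS, hS, ← hcase]
        exact hnot.symm
    · refine ⟨q.1, ?_, Tx, q.2.2.1, hTxS, (S.isRest_iff S₀ _ _).2 h5, ?_⟩
      · rw [abs_lt]
        constructor <;> linarith [h1.1, h1.2]
      · rw [hS, hS]
        exact hcase

end Pool.Agent.CGD
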