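import Mathlib
import Pool.Agent.CGD.Sph1
import Pool.Agent.CGD.Warp

/-!
# Closed geodesics of rotationally symmetric metrics on spheres (helper82)
-/

noncomputable section

open Set Filter Topology MeasureTheory
open scoped ContDiff RealInnerProductSpace

namespace Pool.Agent.CGD

theorem smul_fst_deriv {F : Type*} [NormedAddCommGroup F] [NormedSpace ℝ F] {k : ℝ → ℝ}
    {k' t : ℝ} (h : HasDerivAt k k' t) :
    HasDerivAt (fun y => k y • ContinuousLinearMap.fst ℝ ℝ F)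
      (k' • ContinuousLinearMap.fst ℝ ℝ F) t := by
  have h2 := h.smul_const (ContinuousLinearMap.fst ℝ ℝ F)
  exact h2

variable {V : Type*} [NormedAddCommGroup V] [InnerProductSpace ℝ V]

/-- The inner product of `V` as a continuous bilinear form. -/
def innR (V : Type*) [NormedAddCommGroup V] [InnerProductSpace ℝ V] : V →L[ℝ] V →L[ℝ] ℝ :=
  innerSL ℝ

@[simp] theorem innR_apply (v w : V) : innR V v w = ⟪v, w⟫ := rfl

/-- The unit sphere of `ℝ × V` (Euclidean product). -/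
def sphereN (V : Type*) [NormedAddCommGroup V] [InnerProductSpace ℝ V] : Set (ℝ × V) :=
  {p | p.1 ^ 2 + ‖p.2‖ ^ 2 = 1}

/-- The form `φ(z) (dz² + |dy|²) + ψ(z) dz²`. -/
def sphForm (φ ψ : ℝ → ℝ) (p : ℝ × V) : (ℝ × V) →L[ℝ] (ℝ × V) →L[ℝ] ℝ :=
  φ p.1 • ((ContinuousLinearMap.mul ℝ ℝ).bilinearComp (ContinuousLinearMap.fst ℝ ℝ V)
    (ContinuousLinearMap.fst ℝ ℝ V) + (innR V).bilinearComp
      (ContinuousLinearMap.snd ℝ ℝ V) (ContinuousLinearMap.snd ℝ ℝ V)) +
  ψ p.1 • (ContinuousLinearMap.mul ℝ ℝ).bilinearComp (ContinuousLinearMap.fst ℝ ℝ V)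
    (ContinuousLinearMap.fst ℝ ℝ V)

@[simp] theorem sphForm_apply (φ ψ : ℝ → ℝ) (p v w : ℝ × V) :
    sphForm φ ψ p v w = φ p.1 * (v.1 * w.1 + ⟪v.2, w.2⟫) + ψ p.1 * (v.1 * w.1) := by
  simp [sphForm]
  ring

/-- Tangent vectors of the sphere. -/
theorem tan_sphere {p e : ℝ × V} (hp : p ∈ sphereN V) (he : e ∈ tangentConeAt ℝ (sphereN V) p) :
    p.1 * e.1 + ⟪p.2, e.2⟫ = 0 := by
  have hf : HasFDerivAt (fun q : ℝ × V => q.1 ^ 2 + ‖q.2‖ ^ 2)
      ((2 * p.1) • ContinuousLinearMap.fst ℝ ℝ V +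
        (2 : ℝ) • (innerSL ℝ p.2).comp (ContinuousLinearMap.snd ℝ ℝ V)) p := by
    have h1 : HasFDerivAt (fun q : ℝ × V => q.1 ^ 2) ((2 * p.1) • ContinuousLinearMap.fst ℝ ℝ V)
        p := by
      have := (hasFDerivAt_fst (𝕜 := ℝ) (E := ℝ) (F := V) (p := p)).pow 2
      simpa using this
    have h2 : HasFDerivAt (fun q : ℝ × V => ‖q.2‖ ^ 2)
        ((2 : ℝ) • (innerSL ℝ p.2).comp (ContinuousLinearMap.snd ℝ ℝ V)) p := by
      have := (hasFDerivAt_snd (𝕜 := ℝ) (E := ℝ) (F := V) (p := p)).norm_sq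
      rw [← Nat.cast_smul_eq_nsmul ℝ] at this
      simpa using this
    exact h1.add h2
  have h3 := (hf.hasFDerivWithinAt (s := sphereN V)).mapsTo_tangent_cone he
  have h4 : (fun q : ℝ × V => q.1 ^ 2 + ‖q.2‖ ^ 2) '' sphereN V ⊆ {1} := by
    rintro _ ⟨q, hq, rfl⟩
    exact hq
  have h5 := tangentConeAt_mono h4 h3
  have h6 : tangentConeAt ℝ ({1} : Set ℝ) (p.1 ^ 2 + ‖p.2‖ ^ 2) ⊆ {0} := by
    rw [show p.1 ^ 2 + ‖p.2‖ ^ 2 = 1 from hp]
    refine tangentConeAt_subset_zero ?_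
    intro h
    have h8 := (accPt_iff_frequently.1 h)
    simp only [mem_singleton_iff] at h8
    obtain ⟨y, hy1, hy2⟩ := h8.exists
    exact hy1 hy2
  have h7 := h6 h5
  simp only [add_apply, smul_apply, ContinuousLinearMap.comp_apply, ContinuousLinearMap.coe_fst',
    ContinuousLinearMap.coe_snd', smul_eq_mul, innerSL_apply_apply, mem_singleton_iff] at h7
  linarith

/-- The great circle with initial data `ν`, `τ`. -/
def circ (ν τ : V) (t : ℝ) : V := Real.cos t • ν + Real.sin t • τ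

/-- Its velocity. -/
def circ' (ν τ : V) (t : ℝ) : V := (-Real.sin t) • ν + Real.cos t • τ

section circ

variable {ν τ : V}

theorem circ_deriv (ν τ : V) (t : ℝ) : HasDerivAt (circ ν τ) (circ' ν τ t) t :=
  ((Real.hasDerivAt_cos t).smul_const ν).add ((Real.hasDerivAt_sin t).smul_const τ)

theorem circ'_deriv (ν τ : V) (t : ℝ) : HasDerivAt (circ' ν τ) (-circ ν τ t) t := by
  have h := ((Real.hasDerivAt_sin t).neg.smul_const ν).add ((Real.hasDerivAt_cos t).smul_const τ)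
  refine h.congr_deriv ?_
  simp only [circ, neg_add, neg_smul]

theorem circ_inner (hν : ‖ν‖ = 1) (hτ : ‖τ‖ = 1) (hντ : ⟪ν, τ⟫ = 0) (t : ℝ) :
    ⟪circ ν τ t, circ ν τ t⟫ = 1 ∧ ⟪circ' ν τ t, circ' ν τ t⟫ = 1 ∧
      ⟪circ ν τ t, circ' ν τ t⟫ = 0 := by
  have h1 : ⟪ν, ν⟫ = 1 := by rw [real_inner_self_eq_norm_sq, hν, one_pow]
  have h2 : ⟪τ, τ⟫ = 1 := by rw [real_inner_self_eq_norm_sq, hτ, one_pow]
  have h3 : ⟪τ, ν⟫ = 0 := by rw [real_inner_comm]; exact hντ
  have h4 := Real.sin_sq_add_cos_sq t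
  simp only [circ, circ', inner_add_left, inner_add_right, real_inner_smul_left,
    real_inner_smul_right, h1, h2, h3, hντ]
  refine ⟨by linarith, by linarith, by ring⟩

theorem circ_periodic (ν τ : V) (n : ℕ) (t : ℝ) :
    circ ν τ (t + n * (2 * Real.pi)) = circ ν τ t := by
  simp only [circ, Real.cos_add_nat_mul_two_pi, Real.sin_add_nat_mul_two_pi]

end circ

/-- The scalar identity behind the geodesic equation on the sphere. -/
theorem sph_identity {κ C s U c R R' f f' g g' b b' a a' dq : ℝ} (hκ : κ ≠ 0) (hs : s ≠ 0)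
    (hR : R ≠ 0) (hb0 : b ≠ 0) (hcs : s ^ 2 + C ^ 2 = 1) (hb : b = f * s ^ 2)
    (ha : a = κ ^ 2 * (f + g * s ^ 2)) (hRb : R ^ 2 * b = a)
    (hb' : b' = f' * (-κ * s) * s ^ 2 + f * (2 * s * (κ * C)))
    (ha' : a' = κ ^ 2 * (f' * (-κ * s) + (g' * (-κ * s) * s ^ 2 + g * (2 * s * (κ * C)))))
    (hRb' : 2 * R * R' * b + R ^ 2 * b' = a') (hU : U ^ 2 + c ^ 2 = b) :
    (((dq * C + (κ * C * U / (R * s ^ 2)) * (-κ * s * U) -
        (R' * U * U + R * (b' / 2)) / κ) * s -
        ((κ * C * U / (R * s ^ 2)) * C - R * U / κ) * (κ * C * U)) / s ^ 2) -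
      (dq - c / s * (c * R)) * (C / s) =
    1 / 2 * (R * b) * (f' * ((-κ * s * U / (R * b)) ^ 2 + ((κ * C * U / (R * b)) ^ 2 +
      (s * c / b) ^ 2)) + g' * (-κ * s * U / (R * b)) ^ 2) := by
  have hf : f ≠ 0 := by
    rintro rfl
    apply hb0
    rw [hb]; ring
  have hg : g = R ^ 2 * f / κ ^ 2 - f / s ^ 2 := by
    rw [← hRb, hb] at ha
    field_simp
    linarith
  have hR' : R' = (a' - R ^ 2 * b') / (2 * R * b) := by
    rw [← hRb']
    field_simp
    ring
  have key : (((dq * C + (κ * C * U / (R * s ^ 2)) * (-κ * s * U) -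
        (R' * U * U + R * (b' / 2)) / κ) * s -
        ((κ * C * U / (R * s ^ 2)) * C - R * U / κ) * (κ * C * U)) / s ^ 2) -
      (dq - c / s * (c * R)) * (C / s) -
    1 / 2 * (R * b) * (f' * ((-κ * s * U / (R * b)) ^ 2 + ((κ * C * U / (R * b)) ^ 2 +
      (s * c / b) ^ 2)) + g' * (-κ * s * U / (R * b)) ^ 2) -
      (-(κ ^ 2 * C * U ^ 2 / (R * s ^ 4)) - f' * κ ^ 2 * U ^ 2 / (2 * R * b)) *
        (s ^ 2 + C ^ 2 - 1) - (R * C / s ^ 2 - 1 / 2 * R * f' * s ^ 2 / b) *
        (U ^ 2 + c ^ 2 - b) = 0 := by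
    rw [hR', ha', hb', hg, hb]
    field_simp
    ring
  linear_combination key + (-(κ ^ 2 * C * U ^ 2 / (R * s ^ 4)) -
    f' * κ ^ 2 * U ^ 2 / (2 * R * b)) * hcs + (R * C / s ^ 2 - 1 / 2 * R * f' * s ^ 2 / b) * hU

/-- A periodic motion gives a closed geodesic on the sphere. -/
theorem sph_closed {b ρ φ ψ : ℝ → ℝ} {κ : ℝ} (hκ : κ ≠ 0) (S : Sys b ρ)
    (hb : ∀ x, b x = φ (Real.cos (κ * x)) * Real.sin (κ * x) ^ 2) (hφ : Differentiable ℝ φ)
    (hψ : Differentiable ℝ ψ) (hρ : Differentiable ℝ ρ) (hρ0 : ∀ x, 0 < ρ x) {δ : ℝ}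
    (hδ : 0 ≤ δ) (hρb : ∀ x, δ < b x → ρ x ^ 2 * b x = κ ^ 2 * (φ (Real.cos (κ * x)) +
      ψ (Real.cos (κ * x)) * Real.sin (κ * x) ^ 2)) {p : ℝ × ℝ} {r : ℚ}
    (hper : S.Per 0 (r * (2 * Real.pi)) 0 p) (hp : δ < b p.1 - p.2 ^ 2) {ν τ : V}
    (hν : ‖ν‖ = 1) (hτ : ‖τ‖ = 1) (hντ : ⟪ν, τ⟫ = 0) :
    (((Real.cos (κ * p.1), Real.sin (κ * p.1) • ν),
      (-κ * Real.sin (κ * p.1) * p.2 / (ρ p.1 * b p.1),
        (κ * Real.cos (κ * p.1) * p.2 / (ρ p.1 * b p.1)) • ν +
        (Real.sin (κ * p.1) * √(b p.1 - p.2 ^ 2) / b p.1) • τ)) : (ℝ × V) × (ℝ × V)) ∈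
      closedVectors (sphereN V) (sphForm φ ψ) ⊥ := by
  obtain ⟨P, hP, hX, hU, hW, hq⟩ := hper
  rw [add_zero] at hq
  set c := √(b p.1 - p.2 ^ 2) with hc
  have hv0 : 0 < b p.1 - p.2 ^ 2 := hδ.trans_lt hp
  have hc0 : 0 < c := Real.sqrt_pos.2 hv0
  have hc2 : c ^ 2 = b p.1 - p.2 ^ 2 := Real.sq_sqrt hv0.le
  have hbfun : b = fun x => φ (Real.cos (κ * x)) * Real.sin (κ * x) ^ 2 := funext hb
  have hcosd : ∀ x : ℝ, HasDerivAt (fun x => Real.cos (κ * x)) (-κ * Real.sin (κ * x)) x := by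
    intro x
    have h := ((hasDerivAt_id x).const_mul κ).cos
    refine h.congr_deriv ?_
    simp only [id]
    ring
  have hsind : ∀ x : ℝ, HasDerivAt (fun x => Real.sin (κ * x)) (κ * Real.cos (κ * x)) x := by
    intro x
    have h := ((hasDerivAt_id x).const_mul κ).sin
    refine h.congr_deriv ?_
    simp only [id]
    ring
  have hφd : ∀ x : ℝ, HasDerivAt (fun x => φ (Real.cos (κ * x)))
      (deriv φ (Real.cos (κ * x)) * (-κ * Real.sin (κ * x))) x := fun x =>
    (hφ _).hasDerivAt.comp x (hcosd x)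
  have hψd : ∀ x : ℝ, HasDerivAt (fun x => ψ (Real.cos (κ * x)))
      (deriv ψ (Real.cos (κ * x)) * (-κ * Real.sin (κ * x))) x := fun x =>
    (hψ _).hasDerivAt.comp x (hcosd x)
  have hs2d : ∀ x : ℝ, HasDerivAt (fun x => Real.sin (κ * x) ^ 2)
      (2 * Real.sin (κ * x) * (κ * Real.cos (κ * x))) x := by
    intro x
    have h := (hsind x).fun_pow 2
    refine h.congr_deriv ?_
    simp
  have hbd : ∀ x, HasDerivAt b (deriv φ (Real.cos (κ * x)) * (-κ * Real.sin (κ * x)) *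
      Real.sin (κ * x) ^ 2 + φ (Real.cos (κ * x)) *
        (2 * Real.sin (κ * x) * (κ * Real.cos (κ * x)))) x := by
    intro x
    rw [hbfun]
    exact (hφd x).fun_mul (hs2d x)
  have hdb : Differentiable ℝ b := fun x => (hbd x).differentiableAt
  have hen : ∀ t, S.U p t ^ 2 + c ^ 2 = b (S.X p t) := by
    intro t
    have := S.energy hdb p t
    linarith
  have hδb : ∀ t, δ < b (S.X p t) := by
    intro t
    have h1 := hen t
    have h2 := sq_nonneg (S.U p t)
    linarith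
  have hbpos : ∀ t, 0 < b (S.X p t) := fun t => hδ.trans_lt (hδb t)
  have hsne : ∀ t, Real.sin (κ * S.X p t) ≠ 0 := by
    intro t h0
    have h1 := hbpos t
    rw [hb, h0] at h1
    simp at h1
  -- the relation between the derivatives
  have hrel : ∀ t, 2 * ρ (S.X p t) * deriv ρ (S.X p t) * b (S.X p t) +
      ρ (S.X p t) ^ 2 * deriv b (S.X p t) =
      κ ^ 2 * (deriv φ (Real.cos (κ * S.X p t)) * (-κ * Real.sin (κ * S.X p t)) +
        (deriv ψ (Real.cos (κ * S.X p t)) * (-κ * Real.sin (κ * S.X p t)) *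
          Real.sin (κ * S.X p t) ^ 2 + ψ (Real.cos (κ * S.X p t)) *
          (2 * Real.sin (κ * S.X p t) * (κ * Real.cos (κ * S.X p t))))) := by
    intro t
    set x := S.X p t
    have h1 : HasDerivAt (fun x => ρ x ^ 2 * b x)
        (2 * ρ x * deriv ρ x * b x + ρ x ^ 2 * deriv b x) x := by
      have h := ((hρ x).hasDerivAt.fun_pow 2).fun_mul (hdb x).hasDerivAt
      refine h.congr_deriv ?_
      simp
    have h2 : HasDerivAt (fun x => κ ^ 2 * (φ (Real.cos (κ * x)) +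
        ψ (Real.cos (κ * x)) * Real.sin (κ * x) ^ 2))
        (κ ^ 2 * (deriv φ (Real.cos (κ * x)) * (-κ * Real.sin (κ * x)) +
        (deriv ψ (Real.cos (κ * x)) * (-κ * Real.sin (κ * x)) *
          Real.sin (κ * x) ^ 2 + ψ (Real.cos (κ * x)) *
          (2 * Real.sin (κ * x) * (κ * Real.cos (κ * x)))))) x :=
      ((hφd x).fun_add ((hψd x).fun_mul (hs2d x))).const_mul _
    have h3 : (fun x => ρ x ^ 2 * b x) =ᶠ[𝓝 x] (fun x => κ ^ 2 * (φ (Real.cos (κ * x)) +
        ψ (Real.cos (κ * x)) * Real.sin (κ * x) ^ 2)) := by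
      have : ∀ᶠ y in 𝓝 x, δ < b y := hdb.continuous.continuousAt.eventually_const_lt (hδb t)
      exact this.mono fun y hy => hρb y hy
    exact (h1.congr_of_eventuallyEq h3.symm).unique h2
  have hWP : 0 < S.W p P := by
    have := S.W_mono hρ0 p hP
    rwa [S.W0] at this
  have hrpos : 0 < (r : ℝ) := by
    have h1 : 0 < (r : ℝ) * (2 * Real.pi) := hq ▸ mul_pos hc0 hWP
    exact (pos_iff_pos_of_mul_pos h1).2 (by positivity)
  have hr' : 0 < r := by exact_mod_cast hrpos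
  obtain ⟨M, hM⟩ : ∃ M : ℕ, (r.den : ℝ) * (r : ℝ) = M := by
    obtain ⟨M, hM⟩ := Int.eq_ofNat_of_zero_le (Rat.num_pos.2 hr').le
    refine ⟨M, ?_⟩
    have h3 : (r.den : ℝ) * (r : ℝ) = r.num := by
      have := Rat.den_mul_eq_num r
      exact_mod_cast this
    rw [h3, hM]
    simp
  set η : ℝ → ℝ := fun t => c * S.W p t with hη
  have hηd : ∀ t, HasDerivAt η (c * ρ (S.X p t)) t := fun t => (S.dW p t).const_mul c
  set Cf : ℝ → ℝ := fun t => Real.cos (κ * S.X p t) with hCf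
  set sf : ℝ → ℝ := fun t => Real.sin (κ * S.X p t) with hsf
  have hcs : ∀ t, sf t ^ 2 + Cf t ^ 2 = 1 := fun t => Real.sin_sq_add_cos_sq _
  have hCd : ∀ t, HasDerivAt Cf (-κ * sf t * S.U p t) t := fun t =>
    (hcosd (S.X p t)).comp t (S.dX p t)
  have hsd : ∀ t, HasDerivAt sf (κ * Cf t * S.U p t) t := fun t =>
    (hsind (S.X p t)).comp t (S.dX p t)
  set Y : ℝ → ℝ × V := fun t => (Cf t, sf t • circ ν τ (η t)) with hY
  set Z : ℝ → ℝ × V := fun t => (-κ * sf t * S.U p t / (ρ (S.X p t) * b (S.X p t)),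
    (κ * Cf t * S.U p t / (ρ (S.X p t) * b (S.X p t))) • circ ν τ (η t) +
      (sf t * c / b (S.X p t)) • circ' ν τ (η t)) with hZ
  set μ : ℝ → ℝ := fun t => ρ (S.X p t) * b (S.X p t) with hμ
  have hμpos : ∀ t, 0 < μ t := fun t => mul_pos (hρ0 _) (hbpos _)
  have hμc : Continuous μ :=
    (hρ.continuous.comp (S.contX p)).mul (hdb.continuous.comp (S.contX p))
  have hYN : ∀ t, Y t ∈ sphereN V := by
    intro t
    show (Cf t) ^ 2 + ‖sf t • circ ν τ (η t)‖ ^ 2 = 1
    rw [← real_inner_self_eq_norm_sq, real_inner_smul_left, real_inner_smul_right,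
      (circ_inner hν hτ hντ (η t)).1]
    have := hcs t
    linear_combination this
  have hYd : ∀ t, HasDerivAt Y (μ t • Z t) t := by
    intro t
    have h2 := ((circ_deriv ν τ (η t))).scomp t (hηd t)
    have h3 := (hsd t).fun_smul h2
    have h4 := (hCd t).prodMk h3
    refine h4.congr_deriv ?_
    have e1 := (hρ0 (S.X p t)).ne'
    have e2 := (hbpos t).ne'
    simp only [hZ, hμ, Prod.smul_mk, smul_eq_mul, smul_smul, smul_add]
    rw [Prod.mk.injEq]
    constructor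
    · field_simp
    · rw [add_comm]
      congr 1
      · congr 1
        field_simp
      · congr 1
        field_simp
  have hin : ∀ t, ⟪(Z t).2, (Z t).2⟫ =
      (κ * Cf t * S.U p t / (ρ (S.X p t) * b (S.X p t))) ^ 2 + (sf t * c / b (S.X p t)) ^ 2 := by
    intro t
    obtain ⟨i1, i2, i3⟩ := circ_inner hν hτ hντ (η t)
    have i4 : ⟪circ' ν τ (η t), circ ν τ (η t)⟫ = 0 := by rw [real_inner_comm]; exact i3
    simp only [hZ, inner_add_left, inner_add_right, real_inner_smul_left, real_inner_smul_right,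
      i1, i2, i3, i4]
    ring
  have hbS : ∀ t, b (S.X p t) = φ (Cf t) * sf t ^ 2 := fun t => hb _
  have hab : ∀ t, ρ (S.X p t) ^ 2 * b (S.X p t) =
      κ ^ 2 * (φ (Cf t) + ψ (Cf t) * sf t ^ 2) := fun t => hρb _ (hδb t)
  have hunit : ∀ t, sphForm φ ψ (Y t) (Z t) (Z t) = 1 := by
    intro t
    have e1 := (hρ0 (S.X p t)).ne'
    have e2 := (hbpos t).ne'
    have e3 := hen t
    have e4 := hbS t
    have e5 := hab t
    have e6 := hcs t
    rw [sphForm_apply, hin]
    simp only [hY, hZ]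
    set B := b (S.X p t) with hB
    set R := ρ (S.X p t) with hR
    set u := S.U p t with hu
    set f := φ (Cf t) with hf
    set g := ψ (Cf t) with hg
    have h1 : f * ((-κ * sf t * u / (R * B)) * (-κ * sf t * u / (R * B)) +
        ((κ * Cf t * u / (R * B)) ^ 2 + (sf t * c / B) ^ 2)) +
        g * ((-κ * sf t * u / (R * B)) * (-κ * sf t * u / (R * B))) =
        (u ^ 2 * (κ ^ 2 * (f * (sf t ^ 2 + Cf t ^ 2) + g * sf t ^ 2)) +
          R ^ 2 * (f * sf t ^ 2) * c ^ 2) / (R ^ 2 * B ^ 2) := by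
      field_simp
      ring
    rw [h1, e6, mul_one, ← e5, ← e4, div_eq_one_iff_eq (by positivity)]
    linear_combination (R ^ 2 * B) * e3
  set qf : ℝ → ℝ := fun t => κ * Cf t * S.U p t / (ρ (S.X p t) * sf t ^ 2) with hqf
  have hsf0 : ∀ t, sf t ≠ 0 := hsne
  have dρ : ∀ t, HasDerivAt (fun r => ρ (S.X p r)) (deriv ρ (S.X p t) * S.U p t) t := fun t =>
    (hρ _).hasDerivAt.comp t (S.dX p t)
  have hqd : ∀ t, DifferentiableAt ℝ qf t := by
    intro t
    have d1 : DifferentiableAt ℝ (fun r => κ * Cf r * S.U p r) t :=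
      ((hCd t).differentiableAt.const_mul κ).fun_mul (S.dU p t).differentiableAt
    have d2 : DifferentiableAt ℝ (fun r => ρ (S.X p r) * sf r ^ 2) t :=
      (dρ t).differentiableAt.fun_mul ((hsd t).differentiableAt.fun_pow 2)
    exact d1.fun_div d2 (mul_ne_zero (hρ0 _).ne' (pow_ne_zero 2 (hsf0 t)))
  set dA : ℝ → ℝ := fun t => (deriv ρ (S.X p t) * S.U p t * S.U p t +
    ρ (S.X p t) * (deriv b (S.X p t) / 2)) / κ with hdA
  set D : ℝ → (ℝ × V) →L[ℝ] ℝ := fun t =>
    (((deriv qf t * Cf t + qf t * (-κ * sf t * S.U p t) - dA t) * sf t -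
      (qf t * Cf t - ρ (S.X p t) * S.U p t / κ) * (κ * Cf t * S.U p t)) / sf t ^ 2) •
      ContinuousLinearMap.fst ℝ ℝ V +
    (innR V ((deriv qf t - c / sf t * (c * ρ (S.X p t))) • circ ν τ (η t))).comp
      (ContinuousLinearMap.snd ℝ ℝ V) with hD
  have hmom : ∀ t, HasDerivAt (fun r => sphForm φ ψ (Y r) (Z r)) (μ t • ((μ t)⁻¹ • D t)) t := by
    intro t
    have hfun : (fun r => sphForm φ ψ (Y r) (Z r)) =
        fun r => ((qf r * Cf r - ρ (S.X p r) * S.U p r / κ) / sf r) •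
            ContinuousLinearMap.fst ℝ ℝ V +
          (innR V (qf r • circ ν τ (η r) + (c / sf r) • circ' ν τ (η r))).comp
            (ContinuousLinearMap.snd ℝ ℝ V) := by
      funext r
      refine ContinuousLinearMap.ext fun e => ?_
      have e1 := (hρ0 (S.X p r)).ne'
      have e2 := (hbpos r).ne'
      have e3 := hbS r
      have e4 := hab r
      have e5 := hcs r
      have e6 := hsf0 r
      rw [sphForm_apply]
      simp only [hY, hZ, hqf, smul_apply, smul_eq_mul, add_apply, innR_apply, inner_add_left,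
        real_inner_smul_left, ContinuousLinearMap.comp_apply, ContinuousLinearMap.coe_fst',
        ContinuousLinearMap.coe_snd']
      set B := b (S.X p r) with hB
      set R := ρ (S.X p r) with hR
      set u := S.U p r with hu
      set f := φ (Cf r) with hf
      set g := ψ (Cf r) with hg
      have hf0 : f ≠ 0 := by
        intro h0
        rw [h0, zero_mul] at e3
        exact e2 e3
      have c1 : f * (-κ * sf r * u / (R * B)) + g * (-κ * sf r * u / (R * B)) =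
          (κ * Cf r * u / (R * sf r ^ 2) * Cf r - R * u / κ) / sf r := by
        rw [e3] at e4 ⊢
        field_simp
        linear_combination u * e4 + (-u * f * κ ^ 2) * e5
      have c2 : f * (κ * Cf r * u / (R * B)) = κ * Cf r * u / (R * sf r ^ 2) := by
        rw [e3]
        field_simp
      have c3 : f * (sf r * c / B) = c / sf r := by
        rw [e3]
        field_simp
      linear_combination e.1 * c1 + ⟪circ ν τ (η r), e.2⟫ * c2 + ⟪circ' ν τ (η r), e.2⟫ * c3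
    rw [hfun]
    have dAd : HasDerivAt (fun r => ρ (S.X p r) * S.U p r / κ) (dA t) t :=
      ((dρ t).fun_mul (S.dU p t)).div_const κ
    have d2a := (((hqd t).hasDerivAt.fun_mul (hCd t)).fun_sub dAd).fun_div (hsd t) (hsf0 t)
    have d2 := smul_fst_deriv (F := V) d2a
    have dσ : HasDerivAt (fun r => circ ν τ (η r)) ((c * ρ (S.X p t)) • circ' ν τ (η t)) t :=
      (circ_deriv ν τ (η t)).scomp t (hηd t)
    have dσ' : HasDerivAt (fun r => circ' ν τ (η r)) ((c * ρ (S.X p t)) • (-circ ν τ (η t))) t :=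
      (circ'_deriv ν τ (η t)).scomp t (hηd t)
    have d3 := ((hqd t).hasDerivAt.fun_smul dσ).fun_add
      (((hasDerivAt_const t c).fun_div (hsd t) (hsf0 t)).fun_smul dσ')
    have d4 := ((((ContinuousLinearMap.compL ℝ (ℝ × V) V ℝ).flip
      (ContinuousLinearMap.snd ℝ ℝ V)).comp (innR V)).hasFDerivAt).comp_hasDerivAt t d3
    have d5 := d2.fun_add d4
    refine d5.congr_deriv ?_
    rw [show μ t • ((μ t)⁻¹ • D t) = D t from smul_inv_smul₀ (hμpos t).ne' _]
    simp only [hD]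
    congr 1
    refine ContinuousLinearMap.ext fun e => ?_
    have e1 := (hρ0 (S.X p t)).ne'
    have e6 := hsf0 t
    simp only [ContinuousLinearMap.comp_apply, ContinuousLinearMap.flip_apply,
      ContinuousLinearMap.compL_apply, innR_apply, inner_add_left, real_inner_smul_left,
      inner_neg_left, ContinuousLinearMap.coe_snd']
    have c1 : qf t * (c * ρ (S.X p t)) = c * (κ * Cf t * S.U p t) / sf t ^ 2 := by
      simp only [hqf]
      field_simp
    linear_combination ⟪circ' ν τ (η t), e.2⟫ * c1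
  have hζ : ∀ t, ∀ e ∈ tangentConeAt ℝ (sphereN V) (Y t), ((μ t)⁻¹ • D t) e =
      (1 / 2) * fderiv ℝ (fun q => sphForm φ ψ q (Z t) (Z t)) (Y t) e := by
    intro t e he
    have htan := tan_sphere (hYN t) he
    have e1 := (hρ0 (S.X p t)).ne'
    have e2 := (hbpos t).ne'
    have e6 := hsf0 t
    have htan2 : ⟪circ ν τ (η t), e.2⟫ = -(Cf t / sf t) * e.1 := by
      simp only [hY, real_inner_smul_left] at htan
      field_simp
      linarith
    have hfd : fderiv ℝ (fun q => sphForm φ ψ q (Z t) (Z t)) (Y t) e =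
        deriv φ (Cf t) * e.1 * ((Z t).1 * (Z t).1 + ⟪(Z t).2, (Z t).2⟫) +
          deriv ψ (Cf t) * e.1 * ((Z t).1 * (Z t).1) := by
      simp only [sphForm_apply]
      have h1 : HasFDerivAt (fun q : ℝ × V => q.1) (ContinuousLinearMap.fst ℝ ℝ V) (Y t) :=
        hasFDerivAt_fst
      have h2 : HasFDerivAt (fun q : ℝ × V => φ q.1) _ (Y t) :=
        ((hφ (Y t).1).hasFDerivAt).comp (Y t) h1
      have h3 : HasFDerivAt (fun q : ℝ × V => ψ q.1) _ (Y t) :=
        ((hψ (Y t).1).hasFDerivAt).comp (Y t) h1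
      have h4 := (h2.mul_const ((Z t).1 * (Z t).1 + ⟪(Z t).2, (Z t).2⟫)).fun_add
        (h3.mul_const ((Z t).1 * (Z t).1))
      rw [h4.fderiv]
      simp [hY]
      ring
    rw [hfd, hin]
    simp only [hD, smul_apply, smul_eq_mul, add_apply, ContinuousLinearMap.comp_apply,
      ContinuousLinearMap.coe_fst', ContinuousLinearMap.coe_snd', innR_apply,
      real_inner_smul_left, htan2]
    have hb' : deriv b (S.X p t) = deriv φ (Cf t) * (-κ * sf t) * sf t ^ 2 +
        φ (Cf t) * (2 * sf t * (κ * Cf t)) := (hbd (S.X p t)).deriv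
    have key := sph_identity (κ := κ) (C := Cf t) (s := sf t) (U := S.U p t) (c := c)
      (R := ρ (S.X p t)) (R' := deriv ρ (S.X p t)) (f := φ (Cf t)) (f' := deriv φ (Cf t))
      (g := ψ (Cf t)) (g' := deriv ψ (Cf t)) (b := b (S.X p t)) (b' := deriv b (S.X p t))
      (dq := deriv qf t) hκ e6 e1 e2 (hcs t) (hbS t) rfl (hab t) hb' rfl (hrel t) (hen t)
    have hgoal : (((deriv qf t * Cf t + qf t * (-κ * sf t * S.U p t) - dA t) * sf t -
        (qf t * Cf t - ρ (S.X p t) * S.U p t / κ) * (κ * Cf t * S.U p t)) / sf t ^ 2) * e.1 +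
        (deriv qf t - c / sf t * (c * ρ (S.X p t))) * (-(Cf t / sf t) * e.1) =
        μ t * (1 / 2 * (deriv φ (Cf t) * e.1 * ((Z t).1 * (Z t).1 +
          ((κ * Cf t * S.U p t / (ρ (S.X p t) * b (S.X p t))) ^ 2 +
            (sf t * c / b (S.X p t)) ^ 2)) + deriv ψ (Cf t) * e.1 * ((Z t).1 * (Z t).1))) := by
      simp only [hqf, hdA, hZ, hμ] at key ⊢
      linear_combination e.1 * key
    rw [hgoal, inv_mul_cancel_left₀ (hμpos t).ne']
  have hX0 : ∀ t, S.X p (t + P) = S.X p t + 0 := fun t => by simpa using hX t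
  have hdX := iter_period (f := S.X p) (c := (0 : ℝ)) hX0 r.den
  have hdW := iter_period (f := S.W p) (c := S.W p P) hW r.den
  have hnpos : (0 : ℝ) < r.den := by exact_mod_cast r.den_pos
  have hdX' : ∀ t, S.X p (t + r.den * P) = S.X p t := fun t => by simpa using hdX t
  have hη' : ∀ t, η (t + r.den * P) = η t + M * (2 * Real.pi) := by
    intro t
    simp only [hη]
    rw [hdW t, nsmul_eq_mul]
    linear_combination (r.den : ℝ) * hq + (2 * Real.pi) * hM
  have hres := reparam (N := sphereN V) (g := sphForm φ ψ) (Γ := ⊥) hμc hμpos hYN hYd hmom hζ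
    hunit (P := r.den * P) (by positivity) (A := 1) (Subgroup.one_mem _) (fun t => by
      show (Real.cos (κ * S.X p (t + r.den * P)), Real.sin (κ * S.X p (t + r.den * P)) •
        circ ν τ (η (t + r.den * P))) = Y t
      rw [hdX', hη', circ_periodic]) (fun t => by
      show ρ (S.X p (t + r.den * P)) * b (S.X p (t + r.den * P)) = _
      rw [hdX']) 0
  have hη0 : η 0 = 0 := by simp only [hη, S.W0, mul_zero]
  have hσ0 : circ ν τ 0 = ν := by simp [circ]
  have hσ0' : circ' ν τ 0 = τ := by simp [circ']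
  have hY0 : Y 0 = (Real.cos (κ * p.1), Real.sin (κ * p.1) • ν) := by
    simp only [hY, hCf, hsf, S.X0, hη0, hσ0]
  have hZ0 : Z 0 = (-κ * Real.sin (κ * p.1) * p.2 / (ρ p.1 * b p.1),
        (κ * Real.cos (κ * p.1) * p.2 / (ρ p.1 * b p.1)) • ν +
        (Real.sin (κ * p.1) * c / b p.1) • τ) := by
    simp only [hZ, hCf, hsf, S.X0, S.U0, hη0, hσ0, hσ0']
  rw [hY0, hZ0] at hres
  exact hres

end Pool.Agent.CGD
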