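import Mathlib
import Pool.Agent.CGD.Sph2

/-!
# Density for rotationally symmetric metrics on spheres (helper82)
-/

noncomputable section

open Set Filter Topology MeasureTheory
open scoped ContDiff RealInnerProductSpace

namespace Pool.Agent.CGD

namespace Sys

variable {b ρ : ℝ → ℝ} (S : Sys b ρ)

/-- Closed oscillating motions near all initial values at a positive level, if `b` has a zero. -/
theorem near_closed (hb : ContDiff ℝ 2 b) (hbp : Function.Periodic b 1) {m : ℝ} (hm : 0 < m)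
    (hρ : ∀ x, m ≤ ρ x) (hz : ∃ y, b y ≤ 0) {δ₀ : ℝ} (hδ₀ : 0 ≤ δ₀)
    (hnc : ∀ x, Good b x → δ₀ < b x → S.NonConst 0 x) {L : ℝ} (hL : 0 < L) {x u : ℝ}
    (hc : δ₀ < b x - u ^ 2) {δ : ℝ} (hδ : 0 < δ) :
    ∃ p : ℝ × ℝ, dist p (x, u) < δ ∧ ∃ r : ℚ, S.Per 0 (r * L) 0 p := by
  -- positive velocities
  have main : ∀ u : ℝ, 0 < u → δ₀ < b x - u ^ 2 → ∀ δ > 0,
      ∃ p : ℝ × ℝ, dist p (x, u) < δ ∧ ∃ r : ℚ, S.Per 0 (r * L) 0 p := by
    intro u hu hc δ hδ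
    obtain ⟨y, hy⟩ := hz
    have hcont : ContinuousAt (fun v => √(b x - v)) (b x - u ^ 2) := by fun_prop
    have hsq : √(b x - (b x - u ^ 2)) = u := by
      rw [show b x - (b x - u ^ 2) = u ^ 2 by ring]
      exact Real.sqrt_sq hu.le
    obtain ⟨δ', hδ', hball⟩ := Metric.continuousAt_iff.1 hcont (δ / 2) (by positivity)
    rw [hsq] at hball
    have hlt : b x - u ^ 2 < min (b x - u ^ 2 + δ') (b x) := by
      refine lt_min (by linarith) ?_
      have : 0 < u ^ 2 := by positivity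
      linarith
    obtain ⟨v, hv, hreg⟩ := exists_regular hb hlt
    have hv1 : v < b x - u ^ 2 + δ' := hv.2.trans_le (min_le_left _ _)
    have hv2 : v < b x := hv.2.trans_le (min_le_right _ _)
    set w := √(b x - v) with hw
    have hw0 : 0 < w := Real.sqrt_pos.2 (by linarith)
    have hwv : b x - w ^ 2 = v := by
      rw [hw, Real.sq_sqrt (by linarith)]; ring
    have hwu : dist w u < δ / 2 := hball (by
      rw [Real.dist_eq, abs_of_pos (by linarith [hv.1])]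
      linarith)
    obtain ⟨p, hp, hclo⟩ := S.osc_dense hb hbp hm hρ (s := 0) hL hw0
      (by rw [hwv]; linarith [hv.1])
      (fun x₁ hg hbx₁ _ _ => hnc x₁ hg (by rw [hbx₁, hwv]; linarith [hv.1]))
      (by rw [hwv]; exact hreg) ⟨y, by rw [hwv]; linarith [hv.1]⟩
      (show (0:ℝ) < δ / 2 by positivity)
    refine ⟨p, ?_, hclo⟩
    have h1 : dist ((x, w) : ℝ × ℝ) (x, u) < δ / 2 := by
      rw [Prod.dist_eq]
      simpa using hwu
    calc dist p (x, u) ≤ dist p (x, w) + dist ((x, w) : ℝ × ℝ) (x, u) := dist_triangle _ _ _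
      _ < δ / 2 + δ / 2 := add_lt_add hp h1
      _ = δ := by ring
  have main' : ∀ u : ℝ, 0 ≤ u → δ₀ < b x - u ^ 2 → ∀ δ > 0,
      ∃ p : ℝ × ℝ, dist p (x, u) < δ ∧ ∃ r : ℚ, S.Per 0 (r * L) 0 p := by
    intro u hu hc δ hδ
    rcases hu.lt_or_eq with h | h
    · exact main u h hc δ hδ
    subst h
    have hlim : Tendsto (fun w : ℝ => b x - w ^ 2) (𝓝 0) (𝓝 (b x - 0 ^ 2)) := by
      have : Continuous fun w : ℝ => b x - w ^ 2 := by fun_prop
      exact this.tendsto 0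
    have hev := (hlim.eventually_const_lt hc).filter_mono (nhdsWithin_le_nhds (s := Ioi 0))
    have hev2 : ∀ᶠ w in 𝓝[>] (0:ℝ), w ∈ Ioo 0 (δ / 2) := Ioo_mem_nhdsGT (by positivity)
    obtain ⟨w, hw1, hw2⟩ := (hev.and hev2).exists
    obtain ⟨p, hp, hclo⟩ := main w hw2.1 hw1 (δ / 2) (by positivity)
    refine ⟨p, ?_, hclo⟩
    have h1 : dist ((x, w) : ℝ × ℝ) (x, 0) < δ / 2 := by
      rw [Prod.dist_eq]
      simp only [dist_self, Real.dist_eq, sub_zero]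
      rw [abs_of_pos hw2.1, max_eq_right hw2.1.le]
      exact hw2.2
    calc dist p (x, 0) ≤ dist p (x, w) + dist ((x, w) : ℝ × ℝ) (x, 0) := dist_triangle _ _ _
      _ < δ / 2 + δ / 2 := add_lt_add hp h1
      _ = δ := by ring
  rcases le_total 0 u with hu | hu
  · exact main' u hu hc δ hδ
  · obtain ⟨p, hp, r, hr⟩ := main' (-u) (by linarith) (by rw [neg_sq]; exact hc) δ hδ
    refine ⟨(p.1, -p.2), ?_, r, ?_⟩
    · rw [Prod.dist_eq] at hp ⊢
      simp only at hp ⊢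
      have e : dist (-p.2) u = dist p.2 (-u) := by
        rw [Real.dist_eq, Real.dist_eq, ← abs_neg]
        congr 1
        ring
      rw [e]
      exact hp
    · have := Per.rev S (x := p.1) (u := p.2) hr
      rwa [neg_zero] at this

end Sys

/-- `(e ^ t - 1) / t`. -/
def ex (t : ℝ) : ℝ := ∫ u in (0:ℝ)..1, 1 * Real.exp (t * u)

theorem ex_contDiff {k : WithTop ℕ∞} : ContDiff ℝ k ex := by
  have h := expInt_analytic (T := 1) zero_le_one (w := fun _ => 1) (g := fun u => u)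
    continuous_const (fun _ => zero_le_one) continuous_id
  have h2 : AnalyticOnNhd ℝ ex univ := h
  exact (contDiffOn_univ.1 h2.contDiffOn_of_completeSpace)

theorem ex_mul (t : ℝ) : t * ex t = Real.exp t - 1 := by
  have hd : ∀ u : ℝ, HasDerivAt (fun u => Real.exp (t * u)) (t * (1 * Real.exp (t * u))) u := by
    intro u
    have h := ((hasDerivAt_id u).const_mul t).exp
    refine h.congr_deriv ?_
    simp only [id]
    ring
  have := intervalIntegral.integral_eq_sub_of_hasDerivAt (a := 0) (b := 1)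
    (fun u _ => hd u) (Continuous.intervalIntegrable (by fun_prop) _ _)
  rw [intervalIntegral.integral_const_mul] at this
  rw [ex, this]
  simp

/-- The perturbed profile. -/
def psiS (φ ψ : ℝ → ℝ) (s z : ℝ) : ℝ :=
  ψ z + (φ z + (1 - z ^ 2) * ψ z) * (2 * s * φ z) * ex (2 * s * φ z * (1 - z ^ 2))

/-- Coefficient of `dx²` for the latitude `cos (2 π x)`. -/
def sphA (φ ψ : ℝ → ℝ) (x : ℝ) : ℝ :=
  (2 * Real.pi) ^ 2 * (φ (Real.cos (2 * Real.pi * x)) +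
    ψ (Real.cos (2 * Real.pi * x)) * Real.sin (2 * Real.pi * x) ^ 2)

/-- The square of the radius of the latitude `cos (2 π x)`. -/
def sphB (φ : ℝ → ℝ) (x : ℝ) : ℝ :=
  φ (Real.cos (2 * Real.pi * x)) * Real.sin (2 * Real.pi * x) ^ 2

theorem sphA_psiS (φ ψ : ℝ → ℝ) (s x : ℝ) :
    sphA φ (psiS φ ψ s) x = sphA φ ψ x * Real.exp (2 * s * sphB φ x) := by
  have h1 := Real.sin_sq_add_cos_sq (2 * Real.pi * x)
  have h2 : 1 - Real.cos (2 * Real.pi * x) ^ 2 = Real.sin (2 * Real.pi * x) ^ 2 := by linarith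
  have h3 := ex_mul (2 * s * φ (Real.cos (2 * Real.pi * x)) * Real.sin (2 * Real.pi * x) ^ 2)
  simp only [sphA, sphB, psiS, h2]
  rw [← mul_assoc (2 * s)]
  linear_combination ((2 * Real.pi) ^ 2 * (φ (Real.cos (2 * Real.pi * x)) +
    ψ (Real.cos (2 * Real.pi * x)) * Real.sin (2 * Real.pi * x) ^ 2)) * h3

theorem psiS_contDiff {k : WithTop ℕ∞} {φ ψ : ℝ → ℝ} (hφ : ContDiff ℝ k φ)
    (hψ : ContDiff ℝ k ψ) : ContDiff ℝ k fun q : ℝ × ℝ => psiS φ ψ q.1 q.2 := by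
  have h1 : ContDiff ℝ k fun q : ℝ × ℝ => φ q.2 := hφ.comp contDiff_snd
  have h2 : ContDiff ℝ k fun q : ℝ × ℝ => ψ q.2 := hψ.comp contDiff_snd
  have h3 : ContDiff ℝ k fun q : ℝ × ℝ => ex (2 * q.1 * φ q.2 * (1 - q.2 ^ 2)) :=
    ex_contDiff.comp (by fun_prop)
  simp only [psiS]
  fun_prop

theorem cos_shift (x : ℝ) : Real.cos (2 * Real.pi * (x + 1)) = Real.cos (2 * Real.pi * x) := by
  rw [mul_add, mul_one, Real.cos_add_two_pi]

theorem sin_shift (x : ℝ) : Real.sin (2 * Real.pi * (x + 1)) = Real.sin (2 * Real.pi * x) := by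
  rw [mul_add, mul_one, Real.sin_add_two_pi]

theorem sphA_periodic (φ ψ : ℝ → ℝ) : Function.Periodic (sphA φ ψ) 1 := by
  intro x
  simp only [sphA, cos_shift, sin_shift]

theorem sphB_periodic (φ : ℝ → ℝ) : Function.Periodic (sphB φ) 1 := by
  intro x
  simp only [sphB, cos_shift, sin_shift]

theorem sphA_contDiff {k : WithTop ℕ∞} {φ ψ : ℝ → ℝ} (hφ : ContDiff ℝ k φ)
    (hψ : ContDiff ℝ k ψ) : ContDiff ℝ k (sphA φ ψ) := by
  have h1 : ContDiff ℝ k fun x : ℝ => φ (Real.cos (2 * Real.pi * x)) := hφ.comp (by fun_prop)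
  have h2 : ContDiff ℝ k fun x : ℝ => ψ (Real.cos (2 * Real.pi * x)) := hψ.comp (by fun_prop)
  unfold sphA
  fun_prop

theorem sphB_contDiff {k : WithTop ℕ∞} {φ : ℝ → ℝ} (hφ : ContDiff ℝ k φ) :
    ContDiff ℝ k (sphB φ) := by
  have h1 : ContDiff ℝ k fun x : ℝ => φ (Real.cos (2 * Real.pi * x)) := hφ.comp (by fun_prop)
  unfold sphB
  fun_prop

theorem cos_mem (θ : ℝ) : Real.cos θ ∈ Icc (-1 : ℝ) 1 :=
  ⟨Real.neg_one_le_cos θ, Real.cos_le_one θ⟩

theorem sphA_pos {φ ψ : ℝ → ℝ} (hψ0 : ∀ z ∈ Icc (-1 : ℝ) 1, 0 < φ z + (1 - z ^ 2) * ψ z)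
    (x : ℝ) : 0 < sphA φ ψ x := by
  have h1 := hψ0 _ (cos_mem (2 * Real.pi * x))
  have h2 : 1 - Real.cos (2 * Real.pi * x) ^ 2 = Real.sin (2 * Real.pi * x) ^ 2 := by
    have := Real.sin_sq_add_cos_sq (2 * Real.pi * x)
    linarith
  rw [h2, mul_comm (Real.sin (2 * Real.pi * x) ^ 2)] at h1
  unfold sphA
  positivity

theorem sphB_nonneg {φ : ℝ → ℝ} (hφ0 : ∀ z ∈ Icc (-1 : ℝ) 1, 0 < φ z) (x : ℝ) :
    0 ≤ sphB φ x := mul_nonneg (hφ0 _ (cos_mem _)).le (sq_nonneg _)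

section dens

variable {V : Type*} [NormedAddCommGroup V] [InnerProductSpace ℝ V]

/-- Tangent vectors in terms of latitude and longitude. -/
def gen (θ β γ : ℝ) (ν τ : V) : (ℝ × V) × (ℝ × V) :=
  ((Real.cos θ, Real.sin θ • ν), (-Real.sin θ * β, (Real.cos θ * β) • ν + γ • τ))

/-- The unit tangent vectors away from the poles and transverse to the meridians. -/
def gset (V : Type*) [NormedAddCommGroup V] [InnerProductSpace ℝ V] (φ ψ : ℝ → ℝ) :
    Set ((ℝ × V) × (ℝ × V)) :=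
  {z | ∃ (θ β γ : ℝ) (ν τ : V), 0 < θ ∧ θ < Real.pi ∧ ‖ν‖ = 1 ∧ ‖τ‖ = 1 ∧ ⟪ν, τ⟫ = 0 ∧ 0 < γ ∧
    β ^ 2 * (φ (Real.cos θ) + ψ (Real.cos θ) * Real.sin θ ^ 2) + φ (Real.cos θ) * γ ^ 2 = 1 ∧
    z = gen θ β γ ν τ}

theorem unit_sub {φ ψ : ℝ → ℝ} (hφ : Continuous φ) (hφ0 : ∀ z ∈ Icc (-1 : ℝ) 1, 0 < φ z)
    (hperp : ∀ ν : V, ∃ τ : V, ‖τ‖ = 1 ∧ ⟪ν, τ⟫ = 0) :
    unitBundle (sphereN V) (sphForm φ ψ) ⊆ closure (gset V φ ψ) := by
  rintro ⟨p, v⟩ ⟨hp, hv, hu⟩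
  simp only at hp hv hu
  have htan := tan_sphere hp hv
  rw [sphForm_apply, real_inner_self_eq_norm_sq] at hu
  have hp' : p.1 ^ 2 + ‖p.2‖ ^ 2 = 1 := hp
  have hz : p.1 ∈ Icc (-1 : ℝ) 1 := by
    have : p.1 ^ 2 ≤ 1 := by nlinarith [sq_nonneg ‖p.2‖]
    constructor <;> nlinarith
  have hcosI : ∀ θ : ℝ, Real.cos θ ∈ Icc (-1 : ℝ) 1 := fun θ =>
    ⟨Real.neg_one_le_cos θ, Real.cos_le_one θ⟩
  by_cases hp2 : p.2 = 0
  · -- the poles
    have hz1 : p.1 ^ 2 = 1 := by simpa [hp2] using hp'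
    have hz0 : p.1 ≠ 0 := by
      intro h
      rw [h] at hz1
      norm_num at hz1
    have hv1 : v.1 = 0 := by
      rw [hp2, inner_zero_left, add_zero] at htan
      exact (mul_eq_zero.1 htan).resolve_left hz0
    rw [hv1] at hu
    have hu' : φ p.1 * ‖v.2‖ ^ 2 = 1 := by linarith
    have hv2 : v.2 ≠ 0 := by
      intro h
      rw [h] at hu'
      simp at hu'
    have hn : 0 < ‖v.2‖ := norm_pos_iff.2 hv2
    set τ : V := ‖v.2‖⁻¹ • v.2 with hτ
    have hτ1 : ‖τ‖ = 1 := by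
      rw [hτ, norm_smul, norm_inv, norm_norm, inv_mul_cancel₀ hn.ne']
    have hτv : ‖v.2‖ • τ = v.2 := by rw [hτ, smul_smul, mul_inv_cancel₀ hn.ne', one_smul]
    obtain ⟨ν, hν1, hντ⟩ := hperp τ
    have hντ' : ⟪ν, τ⟫ = 0 := by rw [real_inner_comm]; exact hντ
    obtain ⟨θf, hθc, hθ0, hθs, hθI⟩ : ∃ θf : ℝ → ℝ, Continuous θf ∧ Real.cos (θf 0) = p.1 ∧
        Real.sin (θf 0) = 0 ∧ ∀ ε, 0 < ε → ε < Real.pi → 0 < θf ε ∧ θf ε < Real.pi := by
      have h : (p.1 - 1) * (p.1 + 1) = 0 := by linear_combination hz1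
      rcases mul_eq_zero.1 h with h | h
      · exact ⟨fun ε => ε, continuous_id, by rw [Real.cos_zero]; linarith, Real.sin_zero,
          fun ε h1 h2 => ⟨h1, h2⟩⟩
      · exact ⟨fun ε => Real.pi - ε, by fun_prop,
          by simp only [sub_zero]; rw [Real.cos_pi]; linarith,
          by simp, fun ε h1 h2 => ⟨by linarith, by linarith⟩⟩
    have hφpos : ∀ ε, 0 < φ (Real.cos (θf ε)) := fun ε => hφ0 _ (hcosI _)
    have hsq : ∀ ε, √(φ (Real.cos (θf ε))) ≠ 0 := fun ε => (Real.sqrt_pos.2 (hφpos ε)).ne'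
    set f : ℝ → (ℝ × V) × (ℝ × V) := fun ε =>
      gen (θf ε) 0 (1 / √(φ (Real.cos (θf ε)))) ν τ with hf
    have hfc : Continuous f := by
      have h1 : Continuous fun ε => 1 / √(φ (Real.cos (θf ε))) :=
        continuous_const.div (by fun_prop) hsq
      simp only [hf, gen]
      fun_prop
    have hf0 : f 0 = (p, v) := by
      have e1 : 1 / √(φ p.1) = ‖v.2‖ := by
        have h1 : ‖v.2‖ = √(‖v.2‖ ^ 2) := (Real.sqrt_sq hn.le).symm
        have h2 : ‖v.2‖ ^ 2 = 1 / φ p.1 := by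
          rw [eq_div_iff (hφ0 _ hz).ne']
          linarith
        rw [h1, h2, Real.sqrt_div zero_le_one, Real.sqrt_one]
      simp only [hf, gen, hθ0, hθs, e1, hτv, mul_zero, zero_smul, zero_add]
      refine Prod.ext (Prod.ext rfl hp2.symm) (Prod.ext hv1.symm rfl)
    rw [← hf0]
    have hev : ∀ᶠ ε in 𝓝[>] (0 : ℝ), f ε ∈ gset V φ ψ := by
      have e1 : ∀ᶠ ε in 𝓝[>] (0:ℝ), ε ∈ Ioo 0 Real.pi := Ioo_mem_nhdsGT Real.pi_pos
      filter_upwards [e1] with ε hε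
      refine ⟨θf ε, 0, _, ν, τ, (hθI ε hε.1 hε.2).1, (hθI ε hε.1 hε.2).2, hν1, hτ1, hντ',
        one_div_pos.2 (Real.sqrt_pos.2 (hφpos ε)), ?_, rfl⟩
      rw [div_pow, Real.sq_sqrt (hφpos ε).le]
      have := (hφpos ε).ne'
      field_simp
      ring
    exact mem_closure_of_tendsto ((hfc.tendsto 0).mono_left nhdsWithin_le_nhds) hev
  · -- away from the poles
    have hr : 0 < ‖p.2‖ := norm_pos_iff.2 hp2
    set r := ‖p.2‖ with hrdef
    set θ := Real.arccos p.1 with hθ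
    have hcos : Real.cos θ = p.1 := Real.cos_arccos hz.1 hz.2
    have hsin : Real.sin θ = r := by
      rw [hθ, Real.sin_arccos, show 1 - p.1 ^ 2 = r ^ 2 by linarith, Real.sqrt_sq hr.le]
    have hθ1 : 0 < θ := by
      rw [hθ, Real.arccos_pos]
      nlinarith [hz.1, hz.2]
    have hθ2 : θ < Real.pi := by
      rcases (Real.arccos_le_pi p.1).lt_or_eq with h | h
      · exact h
      · rw [← hθ] at h
        rw [h, Real.sin_pi] at hsin
        linarith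
    set ν : V := r⁻¹ • p.2 with hν
    have hν1 : ‖ν‖ = 1 := by
      rw [hν, norm_smul, norm_inv, Real.norm_of_nonneg hr.le, inv_mul_cancel₀ hr.ne']
    have hνν : ⟪ν, ν⟫ = 1 := by rw [real_inner_self_eq_norm_sq, hν1, one_pow]
    have hνp : r • ν = p.2 := by rw [hν, smul_smul, mul_inv_cancel₀ hr.ne', one_smul]
    clear_value ν
    set β : ℝ := -v.1 / r with hβ
    have hβ1 : -r * β = v.1 := by rw [hβ]; field_simp
    set w : V := v.2 - (p.1 * β) • ν with hw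
    have hvw : v.2 = (p.1 * β) • ν + w := by rw [hw]; abel
    have hνw : ⟪ν, w⟫ = 0 := by
      rw [hw, inner_sub_right, real_inner_smul_right, hνν]
      have : ⟪p.2, v.2⟫ = r * ⟪ν, v.2⟫ := by
        conv_lhs => rw [← hνp]
        rw [real_inner_smul_left]
      rw [this, ← hβ1] at htan
      have h2 : r * (⟪ν, v.2⟫ - p.1 * β) = 0 := by linarith
      rcases mul_eq_zero.1 h2 with h | h
      · exact absurd h hr.ne'
      · linarith
    have hnv : ‖v.2‖ ^ 2 = p.1 ^ 2 * β ^ 2 + ‖w‖ ^ 2 := by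
      rw [hvw, norm_add_sq_real, real_inner_smul_left, hνw, norm_smul, hν1, mul_one,
        Real.norm_eq_abs, sq_abs]
      ring
    have hunit : β ^ 2 * (φ p.1 + ψ p.1 * r ^ 2) + φ p.1 * ‖w‖ ^ 2 = 1 := by
      rw [hnv, ← hβ1] at hu
      linear_combination hu - φ p.1 * β ^ 2 * hp'
    have hφz : 0 < φ p.1 := hφ0 _ hz
    by_cases hw0 : w = 0
    · obtain ⟨τ, hτ1, hντ⟩ := hperp ν
      rw [hw0] at hunit hvw
      simp only [norm_zero] at hunit
      set f : ℝ → (ℝ × V) × (ℝ × V) := fun ε =>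
        gen θ (Real.cos ε * β) (Real.sin ε / √(φ p.1)) ν τ with hf
      have hfc : Continuous f := by
        simp only [hf, gen]
        fun_prop
      have hf0 : f 0 = (p, v) := by
        simp only [hf, gen, hcos, hsin, Real.cos_zero, Real.sin_zero, one_mul, zero_div,
          zero_smul, hνp, hβ1]
        refine Prod.ext rfl (Prod.ext rfl hvw.symm)
      rw [← hf0]
      have hev : ∀ᶠ ε in 𝓝[>] (0 : ℝ), f ε ∈ gset V φ ψ := by
        have e1 : ∀ᶠ ε in 𝓝[>] (0:ℝ), ε ∈ Ioo 0 Real.pi := Ioo_mem_nhdsGT Real.pi_pos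
        filter_upwards [e1] with ε hε
        refine ⟨θ, _, _, ν, τ, hθ1, hθ2, hν1, hτ1, hντ,
          div_pos (Real.sin_pos_of_pos_of_lt_pi hε.1 hε.2) (Real.sqrt_pos.2 hφz), ?_, rfl⟩
        rw [div_pow, Real.sq_sqrt hφz.le, hcos, hsin]
        have h1 := Real.sin_sq_add_cos_sq ε
        field_simp
        linear_combination Real.cos ε ^ 2 * hunit + h1
      exact mem_closure_of_tendsto ((hfc.tendsto 0).mono_left nhdsWithin_le_nhds) hev
    · have hwn : 0 < ‖w‖ := norm_pos_iff.2 hw0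
      refine subset_closure ⟨θ, β, ‖w‖, ν, ‖w‖⁻¹ • w, hθ1, hθ2, hν1, ?_, ?_, hwn, ?_, ?_⟩
      · rw [norm_smul, norm_inv, norm_norm, inv_mul_cancel₀ hwn.ne']
      · rw [real_inner_smul_right, hνw, mul_zero]
      · rw [hcos, hsin]
        exact hunit
      · simp only [gen, hcos, hsin, hνp, hβ1, smul_smul, mul_inv_cancel₀ hwn.ne', one_smul]
        exact Prod.ext rfl (Prod.ext rfl hvw)

theorem gset_sub {φ ψ : ℝ → ℝ} (hφ : ContDiff ℝ 2 φ) (hψ : ContDiff ℝ 2 ψ)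
    (hφ0 : ∀ z ∈ Icc (-1 : ℝ) 1, 0 < φ z)
    (hψ0 : ∀ z ∈ Icc (-1 : ℝ) 1, 0 < φ z + (1 - z ^ 2) * ψ z) {s : ℝ}
    (hs : ∀ δ : ℝ, 0 < δ → ∃ δ₀, 0 < δ₀ ∧ δ₀ < δ ∧
      ∀ S : Sys (sphB φ) (rcut (sphA φ ψ) (sphB φ) δ₀ s), ∀ x, Good (sphB φ) x →
        δ₀ < sphB φ x → S.NonConst 0 x) :
    gset V φ (psiS φ ψ s) ⊆ closure (closedVectors (sphereN V) (sphForm φ (psiS φ ψ s)) ⊥) := by
  rintro _ ⟨θ, β, γ, ν, τ, hθ1, hθ2, hν1, hτ1, hντ, hγ, hunit, rfl⟩
  have hcosI : ∀ θ : ℝ, Real.cos θ ∈ Icc (-1 : ℝ) 1 := fun θ =>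
    ⟨Real.neg_one_le_cos θ, Real.cos_le_one θ⟩
  set a := sphA φ ψ with ha
  set b := sphB φ with hb
  set ψ' := psiS φ ψ s with hψ'
  set κ : ℝ := 2 * Real.pi with hκ
  have hκ0 : 0 < κ := by positivity
  have hψ'd : ContDiff ℝ 2 ψ' := by
    have h1 := psiS_contDiff hφ hψ
    have h2 : ContDiff ℝ 2 fun z : ℝ => (s, z) := by fun_prop
    exact h1.comp h2
  have haC : ContDiff ℝ 2 a := sphA_contDiff hφ hψ
  have hbC : ContDiff ℝ 2 b := sphB_contDiff hφ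
  have hap : Function.Periodic a 1 := sphA_periodic φ ψ
  have hbp : Function.Periodic b 1 := sphB_periodic φ
  have ha0 : ∀ x, 0 < a x := sphA_pos hψ0
  have hb0 : ∀ x, 0 ≤ b x := sphB_nonneg hφ0
  have has : ∀ x, κ ^ 2 * (φ (Real.cos (κ * x)) + ψ' (Real.cos (κ * x)) *
      Real.sin (κ * x) ^ 2) = a x * Real.exp (2 * s * b x) := fun x => sphA_psiS φ ψ s x
  set x := θ / κ with hx
  have hκx : κ * x = θ := by rw [hx]; field_simp
  have hsinθ : 0 < Real.sin θ := Real.sin_pos_of_pos_of_lt_pi hθ1 hθ2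
  have hφθ : 0 < φ (Real.cos θ) := hφ0 _ (hcosI _)
  have hbx : b x = φ (Real.cos θ) * Real.sin θ ^ 2 := by
    show φ (Real.cos (κ * x)) * Real.sin (κ * x) ^ 2 = _
    rw [hκx]
  have hbx0 : 0 < b x := by rw [hbx]; positivity
  have hasx := has x
  rw [hκx] at hasx
  set A := φ (Real.cos θ) + ψ' (Real.cos θ) * Real.sin θ ^ 2 with hA
  have hApos : 0 < A := by
    have h1 : 0 < κ ^ 2 * A := by
      rw [hasx]
      exact mul_pos (ha0 x) (Real.exp_pos _)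
    exact (pos_iff_pos_of_mul_pos h1).1 (by positivity)
  set c := γ * φ (Real.cos θ) * Real.sin θ with hc
  have hc0 : 0 < c := by positivity
  have hcb : c ^ 2 ≤ b x := by
    have h1 : φ (Real.cos θ) * γ ^ 2 ≤ 1 := by nlinarith [mul_nonneg (sq_nonneg β) hApos.le]
    have h2 : c ^ 2 = (φ (Real.cos θ) * γ ^ 2) * b x := by rw [hbx, hc]; ring
    rw [h2]
    exact mul_le_of_le_one_left hbx0.le h1
  obtain ⟨δ₀, hδ₀, hδ₀c, hnc⟩ := hs (c ^ 2) (by positivity)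
  set ρ := rcut a b δ₀ s with hρ
  have hρC : ContDiff ℝ 1 ρ := rcut_contDiff haC hbC ha0 hb0 hδ₀ s
  have hρp : Function.Periodic ρ 1 := rcut_periodic hap hbp s
  have hρ0 : ∀ x, 0 < ρ x := rcut_pos ha0 hb0 hδ₀ s
  obtain ⟨m, hm, hρm⟩ := per_pos hρC.continuous hρp hρ0
  obtain ⟨S⟩ := exists_sys hbC hbp hρC hρp
  have hρb : ∀ x, δ₀ < b x → ρ x ^ 2 * b x = κ ^ 2 * (φ (Real.cos (κ * x)) +
      ψ' (Real.cos (κ * x)) * Real.sin (κ * x) ^ 2) := by
    intro y hy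
    have h1 := rcut_sq (a := a) (b := b) ha0 hδ₀ s hy.le
    have h2 : b y ≠ 0 := (hδ₀.trans hy).ne'
    rw [has, hρ, h1]
    field_simp
  have hδb : δ₀ < b x := hδ₀c.trans_le hcb
  have hρx := hρb x hδb
  rw [hκx] at hρx
  have hρx0 := hρ0 x
  set u := β * ρ x * b x / κ with hu
  have huc : u ^ 2 + c ^ 2 = b x := by
    have h1 : u ^ 2 = β ^ 2 * (ρ x ^ 2 * b x) * b x / κ ^ 2 := by rw [hu]; ring
    have h2 : c ^ 2 = (φ (Real.cos θ) * γ ^ 2) * b x := by rw [hbx, hc]; ring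
    rw [h1, h2, hρx]
    have h3 : β ^ 2 * (κ ^ 2 * A) * b x / κ ^ 2 = β ^ 2 * A * b x := by field_simp
    rw [h3]
    linear_combination (b x) * hunit
  have hlev : δ₀ < b x - u ^ 2 := by linarith
  have hsqrt : √(b x - u ^ 2) = c := by
    rw [show b x - u ^ 2 = c ^ 2 by linarith]
    exact Real.sqrt_sq hc0.le
  set Ψ : ℝ × ℝ → (ℝ × V) × (ℝ × V) := fun p =>
    ((Real.cos (κ * p.1), Real.sin (κ * p.1) • ν),
      (-κ * Real.sin (κ * p.1) * p.2 / (ρ p.1 * b p.1),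
        (κ * Real.cos (κ * p.1) * p.2 / (ρ p.1 * b p.1)) • ν +
        (Real.sin (κ * p.1) * √(b p.1 - p.2 ^ 2) / b p.1) • τ)) with hΨ
  have hΨx : Ψ (x, u) = gen θ β γ ν τ := by
    simp only [hΨ, gen, hκx, hsqrt]
    have e1 : -κ * Real.sin θ * u / (ρ x * b x) = -Real.sin θ * β := by
      rw [hu]; field_simp
    have e2 : κ * Real.cos θ * u / (ρ x * b x) = Real.cos θ * β := by
      rw [hu]; field_simp
    have e3 : Real.sin θ * c / b x = γ := by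
      rw [hbx, hc]; field_simp
    rw [e1, e2, e3]
  have hΨc : ContinuousAt Ψ (x, u) := by
    have h1 : ρ ((x, u) : ℝ × ℝ).1 * b ((x, u) : ℝ × ℝ).1 ≠ 0 := (mul_pos hρx0 hbx0).ne'
    have h2 : b ((x, u) : ℝ × ℝ).1 ≠ 0 := hbx0.ne'
    have h3 : Continuous ρ := hρC.continuous
    have h4 : Continuous b := hbC.continuous
    simp only [hΨ]
    fun_prop (disch := assumption)
  rw [← hΨx]
  have hcl : ((x, u) : ℝ × ℝ) ∈ closure {p | Ψ p ∈
      closedVectors (sphereN V) (sphForm φ ψ') ⊥} := by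
    rw [Metric.mem_closure_iff]
    intro ε hε
    have hcont : Continuous fun p : ℝ × ℝ => b p.1 - p.2 ^ 2 := by
      have := hbC.continuous
      fun_prop
    obtain ⟨δ, hδ, hball⟩ := Metric.isOpen_iff.1 (isOpen_lt continuous_const hcont) (x, u) hlev
    obtain ⟨p, hp, r, hr⟩ := S.near_closed hbC hbp hm hρm ⟨0, by
      show φ (Real.cos (κ * 0)) * Real.sin (κ * 0) ^ 2 ≤ 0
      simp⟩ hδ₀.le (hnc S) hκ0 hlev (lt_min hε hδ)
    refine ⟨p, ?_, ?_⟩
    · exact sph_closed hκ0.ne' S (fun x => rfl) (hφ.differentiable (by norm_num))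
        (hψ'd.differentiable (by norm_num)) (hρC.differentiable (by norm_num)) hρ0 hδ₀.le hρb hr
        (hball (hp.trans_le (min_le_right _ _))) hν1 hτ1 hντ
    · rw [dist_comm]
      exact hp.trans_le (min_le_left _ _)
  exact closure_mono (image_subset_iff.2 fun p hp => hp) (mem_closure_image hΨc hcl)

/-- **Rotationally symmetric metrics on spheres.** -/
theorem sph_dense {φ ψ : ℝ → ℝ} (hφ : ContDiff ℝ 2 φ) (hψ : ContDiff ℝ 2 ψ)
    (hφ0 : ∀ z ∈ Icc (-1 : ℝ) 1, 0 < φ z)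
    (hψ0 : ∀ z ∈ Icc (-1 : ℝ) 1, 0 < φ z + (1 - z ^ 2) * ψ z) :
    ∃ E : Set ℝ, E.Countable ∧ ∀ s ∉ E, ∀ (V : Type*) [NormedAddCommGroup V]
      [InnerProductSpace ℝ V], (∀ ν : V, ∃ τ : V, ‖τ‖ = 1 ∧ ⟪ν, τ⟫ = 0) →
      DenseClosed (sphereN V) (sphForm φ (psiS φ ψ s)) ⊥ := by
  have hex := fun n : ℕ => exists_exceptional (sphA_contDiff hφ hψ) (sphB_contDiff hφ)
    (sphA_periodic φ ψ) (sphB_periodic φ) (sphA_pos hψ0) (sphB_nonneg hφ0)
    (δ := 1 / ((n : ℝ) + 1)) (by positivity)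
  choose E hE hEs using hex
  refine ⟨⋃ n, E n, countable_iUnion hE, fun s hs V _ _ hperp => ?_⟩
  refine (unit_sub hφ.continuous hφ0 hperp).trans ?_
  refine closure_minimal (gset_sub hφ hψ hφ0 hψ0 fun δ hδ => ?_) isClosed_closure
  obtain ⟨n, hn⟩ := exists_nat_one_div_lt hδ
  exact ⟨1 / ((n : ℝ) + 1), by positivity, hn,
    hEs n s fun h => hs (mem_iUnion.2 ⟨n, h⟩)⟩

end dens

end Pool.Agent.CGD
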