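import Mathlib
import Pool.Agent.CGD.Lim
import Pool.Agent.CGD.Sph3

/-!
# Rotationally symmetric metrics on spheres are limits (helper82)
-/

set_option maxSynthPendingDepth 3

noncomputable section

open Set Filter Topology MeasureTheory
open scoped ContDiff RealInnerProductSpace

namespace Pool.Agent.CGD

theorem exists_perp {V : Type*} [NormedAddCommGroup V] [InnerProductSpace ℝ V]
    [FiniteDimensional ℝ V] (hV : 2 ≤ Module.finrank ℝ V) (ν : V) :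
    ∃ τ : V, ‖τ‖ = 1 ∧ ⟪ν, τ⟫ = 0 := by
  have h1 : Module.finrank ℝ (Submodule.span ℝ {ν}) ≤ 1 := by
    have := finrank_span_le_card (R := ℝ) ({ν} : Set V)
    simpa using this
  have h2 := (Submodule.span ℝ {ν}).finrank_add_finrank_orthogonal
  have h3 : (Submodule.span ℝ {ν})ᗮ ≠ ⊥ := by
    intro h
    rw [h, finrank_bot] at h2
    omega
  obtain ⟨w, hw, hw0⟩ := Submodule.exists_mem_ne_zero_of_ne_bot h3
  have hw1 : ⟪ν, w⟫ = 0 := Submodule.mem_orthogonal_singleton_iff_inner_right.1 hw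
  refine ⟨‖w‖⁻¹ • w, ?_, ?_⟩
  · rw [norm_smul, norm_inv, norm_norm, inv_mul_cancel₀ (norm_ne_zero_iff.2 hw0)]
  · rw [real_inner_smul_right, hw1, mul_zero]

/-- The pole direction `dz²` as a form on `ℝ × V`. -/
def zForm (V : Type*) [NormedAddCommGroup V] [InnerProductSpace ℝ V] :
    (ℝ × V) →L[ℝ] (ℝ × V) →L[ℝ] ℝ :=
  (ContinuousLinearMap.mul ℝ ℝ).bilinearComp (ContinuousLinearMap.fst ℝ ℝ V)
    (ContinuousLinearMap.fst ℝ ℝ V)

/-- The Euclidean form on `ℝ × V`. -/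
def eForm (V : Type*) [NormedAddCommGroup V] [InnerProductSpace ℝ V] :
    (ℝ × V) →L[ℝ] (ℝ × V) →L[ℝ] ℝ :=
  zForm V + (innR V).bilinearComp (ContinuousLinearMap.snd ℝ ℝ V) (ContinuousLinearMap.snd ℝ ℝ V)

theorem sphForm_eq (φ ψ : ℝ → ℝ) {V : Type*} [NormedAddCommGroup V] [InnerProductSpace ℝ V]
    (p : ℝ × V) : sphForm φ ψ p = φ p.1 • eForm V + ψ p.1 • zForm V := rfl

/-- Smooth families of rotationally symmetric metrics. -/
theorem sph_family {k : WithTop ℕ∞} {φ ψ : ℝ → ℝ → ℝ} {V : Type*} [NormedAddCommGroup V]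
    [InnerProductSpace ℝ V]
    (hφ : ContDiff ℝ k fun z : ℝ × ℝ => φ z.1 z.2) (hψ : ContDiff ℝ k fun z : ℝ × ℝ => ψ z.1 z.2) :
    ContDiff ℝ k fun z : ℝ × (ℝ × V) => sphForm (φ z.1) (ψ z.1) z.2 := by
  have p1 : ContDiff ℝ k fun z : ℝ × (ℝ × V) => (z.1, z.2.1) :=
    contDiff_fst.prodMk (contDiff_fst.comp contDiff_snd)
  have h1 : ContDiff ℝ k fun z : ℝ × (ℝ × V) => φ z.1 z.2.1 := hφ.comp p1
  have h2 : ContDiff ℝ k fun z : ℝ × (ℝ × V) => ψ z.1 z.2.1 := hψ.comp p1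
  simp only [sphForm_eq]
  exact (h1.smul contDiff_const).add (h2.smul contDiff_const)

theorem sph_contDiff {k : WithTop ℕ∞} {φ ψ : ℝ → ℝ} {V : Type*} [NormedAddCommGroup V]
    [InnerProductSpace ℝ V] (hφ : ContDiff ℝ k φ) (hψ : ContDiff ℝ k ψ) :
    ContDiff ℝ k (sphForm (V := V) φ ψ) := by
  have h1 : ContDiff ℝ k fun p : ℝ × V => φ p.1 := hφ.comp contDiff_fst
  have h2 : ContDiff ℝ k fun p : ℝ × V => ψ p.1 := hψ.comp contDiff_fst
  have he : sphForm (V := V) φ ψ = fun p : ℝ × V => φ p.1 • eForm V + ψ p.1 • zForm V := rfl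
  rw [he]
  exact (h1.smul contDiff_const).add (h2.smul contDiff_const)

theorem sph_isMetric {k : ℕ∞} {φ ψ : ℝ → ℝ} {V : Type*} [NormedAddCommGroup V]
    [InnerProductSpace ℝ V] (hφ : ContDiff ℝ k φ) (hψ : ContDiff ℝ k ψ)
    (hφ0 : ∀ z ∈ Icc (-1 : ℝ) 1, 0 < φ z)
    (hψ0 : ∀ z ∈ Icc (-1 : ℝ) 1, 0 < φ z + (1 - z ^ 2) * ψ z) :
    IsMetric k (sphereN V) ⊥ (sphForm φ ψ) where
  smooth := sph_contDiff hφ hψ
  symm := by
    intro p v w
    rw [sphForm_apply, sphForm_apply, real_inner_comm, mul_comm v.1]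
  pos := by
    intro p hp v hv hv0
    have htan := tan_sphere hp hv
    have hp' : p.1 ^ 2 + ‖p.2‖ ^ 2 = 1 := hp
    have hz : p.1 ∈ Icc (-1 : ℝ) 1 := by
      have : p.1 ^ 2 ≤ 1 := by nlinarith [sq_nonneg ‖p.2‖]
      constructor <;> nlinarith
    rw [sphForm_apply, real_inner_self_eq_norm_sq]
    have h1 : (p.1 * v.1) ^ 2 ≤ (1 - p.1 ^ 2) * ‖v.2‖ ^ 2 := by
      have h2 : p.1 * v.1 = -⟪p.2, v.2⟫ := by linarith
      have h3 : ⟪p.2, v.2⟫ ^ 2 ≤ ‖p.2‖ ^ 2 * ‖v.2‖ ^ 2 := by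
        rw [← mul_pow]
        exact sq_le_sq' (neg_le_of_abs_le (abs_real_inner_le_norm _ _))
          (le_of_abs_le (abs_real_inner_le_norm _ _))
      rw [h2, neg_sq]
      have h4 : 1 - p.1 ^ 2 = ‖p.2‖ ^ 2 := by linarith
      rw [h4]
      exact h3
    set Q := v.1 * v.1 + ‖v.2‖ ^ 2 with hQ
    have hQ0 : 0 < Q := by
      by_cases h : v.2 = 0
      · have h5 : v.1 ≠ 0 := fun h5 => hv0 (Prod.ext h5 h)
        have := mul_self_pos.2 h5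
        rw [hQ]
        positivity
      · have := norm_pos_iff.2 h
        have := mul_self_nonneg v.1
        rw [hQ]
        positivity
    have h2 : v.1 * v.1 ≤ (1 - p.1 ^ 2) * Q := by
      rw [hQ]
      nlinarith
    have h3 := hφ0 _ hz
    have h4 := hψ0 _ hz
    rcases le_total 0 (ψ p.1) with h | h
    · have := mul_self_nonneg v.1
      positivity
    · have h5 : ψ p.1 * ((1 - p.1 ^ 2) * Q) ≤ ψ p.1 * (v.1 * v.1) :=
        mul_le_mul_of_nonpos_left h2 h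
      have h6 : 0 < (φ p.1 + (1 - p.1 ^ 2) * ψ p.1) * Q := mul_pos h4 hQ0
      linarith
  inv := by
    intro A hA p hp
    have hA1 : A = 1 := Subgroup.mem_bot.1 hA
    subst hA1
    have hd : HasFDerivAt (⇑(1 : Equiv.Perm (ℝ × V))) (ContinuousLinearMap.id ℝ (ℝ × V)) p :=
      hasFDerivAt_id p
    refine ⟨hp, hd.differentiableAt, fun v _ w _ => ?_⟩
    rw [hd.fderiv]
    rfl

theorem psiS_pos {φ ψ : ℝ → ℝ} (hψ0 : ∀ z ∈ Icc (-1 : ℝ) 1, 0 < φ z + (1 - z ^ 2) * ψ z) (s : ℝ) :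
    ∀ z ∈ Icc (-1 : ℝ) 1, 0 < φ z + (1 - z ^ 2) * psiS φ ψ s z := by
  intro z hz
  have h3 := ex_mul (2 * s * φ z * (1 - z ^ 2))
  have h4 : φ z + (1 - z ^ 2) * psiS φ ψ s z =
      (φ z + (1 - z ^ 2) * ψ z) * Real.exp (2 * s * φ z * (1 - z ^ 2)) := by
    rw [psiS]
    linear_combination (φ z + (1 - z ^ 2) * ψ z) * h3
  rw [h4]
  exact mul_pos (hψ0 z hz) (Real.exp_pos _)

theorem psiS_zero (φ ψ : ℝ → ℝ) : psiS φ ψ 0 = ψ := by
  funext z
  simp [psiS]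

theorem psiS_contDiff' {k : WithTop ℕ∞} {φ ψ : ℝ → ℝ} (hφ : ContDiff ℝ k φ)
    (hψ : ContDiff ℝ k ψ) (s : ℝ) : ContDiff ℝ k (psiS φ ψ s) := by
  have h1 := psiS_contDiff hφ hψ
  have h2 : ContDiff ℝ k fun z : ℝ => (s, z) := by fun_prop
  exact h1.comp h2

/-- **Every rotationally symmetric metric on the sphere is a limit.** -/
theorem sph_limit {k : ℕ∞} (hk : 2 ≤ k) {φ ψ : ℝ → ℝ} (hφ : ContDiff ℝ k φ)
    (hψ : ContDiff ℝ k ψ) (hφ0 : ∀ z ∈ Icc (-1 : ℝ) 1, 0 < φ z)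
    (hψ0 : ∀ z ∈ Icc (-1 : ℝ) 1, 0 < φ z + (1 - z ^ 2) * ψ z) {V : Type} [NormedAddCommGroup V]
    [InnerProductSpace ℝ V] [FiniteDimensional ℝ V] (hV : 2 ≤ Module.finrank ℝ V) :
    IsLimit k (sphereN V) ⊥ (sphForm φ ψ) := by
  intro K hK n hn ε hε
  have hk2 : (2 : WithTop ℕ∞) ≤ ((k : ℕ∞) : WithTop ℕ∞) := two_le_coe hk
  obtain ⟨E, hE, hdense⟩ := sph_dense.{0} (hφ.of_le hk2) (hψ.of_le hk2) hφ0 hψ0
  have hfam : ContDiff ℝ k fun z : ℝ × (ℝ × V) => sphForm φ (psiS φ ψ z.1) z.2 :=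
    sph_family (φ := fun _ => φ) (ψ := psiS φ ψ) (hφ.comp contDiff_snd) (psiS_contDiff hφ hψ)
  have hev := close_of_family (G := fun s => sphForm φ (psiS φ ψ s)) hfam hK hn hε
  simp only [psiS_zero] at hev
  obtain ⟨s, hs1, hs2⟩ := exists_not_mem_countable hE hev
  exact ⟨sphForm φ (psiS φ ψ s), sph_isMetric hφ (psiS_contDiff' hφ hψ s) hφ0 (psiS_pos hψ0 s),
    hdense s hs1 V (exists_perp hV), hs2⟩

/-- The group generated by the antipodal map. -/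
def antiGroup (V : Type*) [NormedAddCommGroup V] [InnerProductSpace ℝ V] :
    Subgroup (Equiv.Perm (ℝ × V)) where
  carrier := {A | A = 1 ∨ ∀ p, A p = -p}
  mul_mem' := by
    rintro A B hA hB
    rcases hA with rfl | hA
    · simpa using hB
    · rcases hB with rfl | hB
      · right
        simpa using hA
      · left
        ext1 p
        rw [Equiv.Perm.mul_apply, hB, hA, neg_neg, Equiv.Perm.one_apply]
  one_mem' := Or.inl rfl
  inv_mem' := by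
    rintro A hA
    rcases hA with rfl | hA
    · left
      simp
    · right
      intro p
      rw [Equiv.Perm.inv_def, Equiv.symm_apply_eq, hA, neg_neg]

theorem sphereN_neg {V : Type*} [NormedAddCommGroup V] [InnerProductSpace ℝ V] {p : ℝ × V}
    (hp : p ∈ sphereN V) : -p ∈ sphereN V := by
  have h : p.1 ^ 2 + ‖p.2‖ ^ 2 = 1 := hp
  show (-p).1 ^ 2 + ‖(-p).2‖ ^ 2 = 1
  rw [Prod.fst_neg, Prod.snd_neg, neg_sq, norm_neg]
  exact h

theorem sph_isMetric_anti {k : ℕ∞} {φ ψ : ℝ → ℝ} {V : Type*} [NormedAddCommGroup V]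
    [InnerProductSpace ℝ V] (hφ : ContDiff ℝ k φ) (hψ : ContDiff ℝ k ψ)
    (hφ0 : ∀ z ∈ Icc (-1 : ℝ) 1, 0 < φ z)
    (hψ0 : ∀ z ∈ Icc (-1 : ℝ) 1, 0 < φ z + (1 - z ^ 2) * ψ z) (hφe : ∀ z, φ (-z) = φ z)
    (hψe : ∀ z, ψ (-z) = ψ z) : IsMetric k (sphereN V) (antiGroup V) (sphForm φ ψ) where
  smooth := (sph_isMetric hφ hψ hφ0 hψ0).smooth
  symm := (sph_isMetric hφ hψ hφ0 hψ0).symm
  pos := (sph_isMetric hφ hψ hφ0 hψ0).pos
  inv := by
    intro A hA p hp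
    rcases hA with rfl | hA
    · exact (sph_isMetric hφ hψ hφ0 hψ0).inv 1 (Subgroup.mem_bot.2 rfl) p hp
    · have hf : (A : ℝ × V → ℝ × V) = fun p => -p := funext hA
      have hd : HasFDerivAt A (-ContinuousLinearMap.id ℝ (ℝ × V)) p := by
        rw [hf]
        exact (hasFDerivAt_id p).neg
      refine ⟨by rw [hA]; exact sphereN_neg hp, hd.differentiableAt, fun v _ w _ => ?_⟩
      rw [hd.fderiv, hA, sphForm_apply, sphForm_apply]
      simp only [Prod.fst_neg, hφe, hψe, neg_apply, ContinuousLinearMap.id_apply,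
        Prod.snd_neg, inner_neg_neg]
      ring

theorem psiS_even {φ ψ : ℝ → ℝ} (hφe : ∀ z, φ (-z) = φ z) (hψe : ∀ z, ψ (-z) = ψ z) (s z : ℝ) :
    psiS φ ψ s (-z) = psiS φ ψ s z := by
  simp only [psiS, hφe, hψe, neg_sq]

theorem DenseClosed.mono' {F : Type*} [NormedAddCommGroup F] [NormedSpace ℝ F] {N : Set F}
    {g : F → F →L[ℝ] F →L[ℝ] ℝ} {Γ : Subgroup (Equiv.Perm F)}
    (h : DenseClosed N g ⊥) : DenseClosed N g Γ := by
  refine h.trans (closure_mono ?_)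
  rintro _ ⟨γ, ⟨h1, h2, T, hT, A, hA, h3⟩, t, rfl⟩
  exact ⟨γ, ⟨h1, h2, T, hT, A, bot_le (a := Γ) hA, h3⟩, t, rfl⟩

/-- The same on the projective spaces. -/
theorem proj_limit {k : ℕ∞} (hk : 2 ≤ k) {φ ψ : ℝ → ℝ} (hφ : ContDiff ℝ k φ)
    (hψ : ContDiff ℝ k ψ) (hφ0 : ∀ z ∈ Icc (-1 : ℝ) 1, 0 < φ z)
    (hψ0 : ∀ z ∈ Icc (-1 : ℝ) 1, 0 < φ z + (1 - z ^ 2) * ψ z) (hφe : ∀ z, φ (-z) = φ z)
    (hψe : ∀ z, ψ (-z) = ψ z) {V : Type} [NormedAddCommGroup V]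
    [InnerProductSpace ℝ V] [FiniteDimensional ℝ V] (hV : 2 ≤ Module.finrank ℝ V) :
    IsLimit k (sphereN V) (antiGroup V) (sphForm φ ψ) := by
  intro K hK n hn ε hε
  have hk2 : (2 : WithTop ℕ∞) ≤ ((k : ℕ∞) : WithTop ℕ∞) := two_le_coe hk
  obtain ⟨E, hE, hdense⟩ := sph_dense.{0} (hφ.of_le hk2) (hψ.of_le hk2) hφ0 hψ0
  have hfam : ContDiff ℝ k fun z : ℝ × (ℝ × V) => sphForm φ (psiS φ ψ z.1) z.2 :=
    sph_family (φ := fun _ => φ) (ψ := psiS φ ψ) (hφ.comp contDiff_snd) (psiS_contDiff hφ hψ)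
  have hev := close_of_family (G := fun s => sphForm φ (psiS φ ψ s)) hfam hK hn hε
  simp only [psiS_zero] at hev
  obtain ⟨s, hs1, hs2⟩ := exists_not_mem_countable hE hev
  exact ⟨sphForm φ (psiS φ ψ s), sph_isMetric_anti hφ (psiS_contDiff' hφ hψ s) hφ0
    (psiS_pos hψ0 s) hφe (psiS_even hφe hψe s),
    (hdense s hs1 V (exists_perp hV)).mono', hs2⟩

end Pool.Agent.CGD
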